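import Pool.Agent.Lib.MP_cce914_co.Count
import Pool.Agent.Lib.helper80.PT

set_option autoImplicit false

namespace Pool.Agent.Lib.MP_cce914_co

open Pool.Agent.Lib.helper80 Polynomial

abbrev Gr := List (ℕ × ℕ)

def gr (g : Gr) (e : ℕ) : ℕ × ℕ := g.getD e (0, 0)

def memL (l : List ℕ) (x : ℕ) : Bool := l.any fun y => Nat.beq y x

def incL (g : Gr) (e v : ℕ) : Bool := Nat.beq (gr g e).1 v || Nat.beq (gr g e).2 v

def degL (g : Gr) (A : List ℕ) (v : ℕ) : ℕ :=
  (A.filter fun e => Nat.beq (gr g e).1 v).length + (A.filter fun e => Nat.beq (gr g e).2 v).length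

def keepL (g : Gr) (T A : List ℕ) (e : ℕ) : Bool :=
  (memL T (gr g e).1 || Nat.ble 2 (degL g A (gr g e).1)) &&
    (memL T (gr g e).2 || Nat.ble 2 (degL g A (gr g e).2))

def pruneS (s : Gr × List ℕ × List ℕ) : Gr × List ℕ × List ℕ :=
  (s.1, s.2.1, s.2.2.filter fun e => keepL s.1 s.2.1 s.2.2 e)

def coreL (g : Gr) (T A : List ℕ) : List ℕ := (pruneS^[A.length] (g, T, A)).2.2

def fineL (g : Gr) (T A : List ℕ) : Bool :=
  A.all fun e => (!memL T (gr g e).1 && Nat.ble (degL g A (gr g e).1) 2) &&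
    (!memL T (gr g e).2 && Nat.ble (degL g A (gr g e).2) 2)

def avL (g : Gr) (T A : List ℕ) : Bool := fineL g T (coreL g T A)

def onlyL (g : Gr) (E : List ℕ) (v e f : ℕ) : Bool :=
  E.all fun x => !incL g x v || (Nat.beq x e || Nat.beq x f)

def delL (g : Gr) (E : List ℕ) (e : ℕ) : Bool :=
  onlyL g E (gr g e).1 e e || (onlyL g E (gr g e).2 e e ||
    E.any fun f => !Nat.beq (gr g e).1 (gr g e).2 &&
      (onlyL g E (gr g e).1 e f && onlyL g E (gr g e).2 e f))

def adjL (g : Gr) (E : List ℕ) (v e f : ℕ) : Bool :=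
  incL g e v && (incL g f v && onlyL g E v e f)

def serL (g : Gr) (E : List ℕ) (e f : ℕ) : Bool :=
  !Nat.beq (gr g e).1 (gr g e).2 && ((adjL g E (gr g e).1 e f || adjL g E (gr g e).2 e f) ||
    E.any fun x => !Nat.beq x e && (!Nat.beq x f && (!Nat.beq (gr g x).1 (gr g x).2 &&
      (adjL g E (gr g x).1 e x && adjL g E (gr g x).2 x f))))

def sameB (b c : Bool) : Bool := (b && c) || (!b && !c)

def okL (g : Gr) (E U : List ℕ) (e f : ℕ) : Bool :=
  bif Nat.beq e f then delL g E e else (sameB (memL U e) (memL U f) && serL g E e f)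

def cands (g : Gr) (E U : List ℕ) : List (ℕ × ℕ) :=
  (E.flatMap fun e => E.map fun f => (e, f)).filter fun p => okL g E U p.1 p.2

def psiL (e f : ℕ) (A : List ℕ) : List ℕ :=
  A.filter fun x => !Nat.beq x e && ((memL A e && memL A f) || !Nat.beq x f)

def mergeL (x y v : ℕ) : ℕ := bif Nat.beq v y then x else v

def relabel (g : Gr) (e f : ℕ) : Gr :=
  bif Nat.beq e f then g else
    g.map fun p => (mergeL (gr g e).1 (gr g e).2 p.1, mergeL (gr g e).1 (gr g e).2 p.2)

/-- graph, ground set, `U`, `X`, `X'` -/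
abbrev St := Gr × List ℕ × List ℕ × List ℕ × List ℕ

def actS (s : St) (p : ℕ × ℕ) : St :=
  (relabel s.1 p.1 p.2, s.2.1.filter (fun x => !Nat.beq x p.1), s.2.2.1,
    psiL p.1 p.2 s.2.2.2.1, psiL p.1 p.2 s.2.2.2.2)

def stepS (s : St) : St :=
  bif (cands s.1 s.2.1 s.2.2.1).isEmpty then s else
    actS s ((cands s.1 s.2.1 s.2.2.1).headD (0, 0))

def runS (s : St) : St := stepS^[s.2.1.length] s

def bdL (g : Gr) (E U : List ℕ) : List ℕ :=
  (E.flatMap fun e => [(gr g e).1, (gr g e).2]).filter fun v =>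
    (E.any fun e => memL U e && incL g e v) && E.any fun e => !memL U e && incL g e v

def cmpS (s : St) : Bool :=
  sameB (avL s.1 [] s.2.2.2.1) (avL s.1 [] s.2.2.2.2) &&
    (bdL s.1 s.2.1 s.2.2.1).all fun u => (bdL s.1 s.2.1 s.2.2.1).all fun v =>
      sameB (avL s.1 [u, v] s.2.2.2.1) (avL s.1 [u, v] s.2.2.2.2)

def parseG (w : List Bool) : Gr :=
  (List.range (lead w)).map fun e =>
    (lead (w.drop (lead w + 1 + e * (2 * lead w + 2 * lead w))),
      lead (w.drop (lead w + 1 + e * (2 * lead w + 2 * lead w) + 2 * lead w)))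

def parseA (w : List Bool) (k : ℕ) : List ℕ :=
  (List.range (lead w)).filter fun e =>
    w.getD (lead w + 1 + lead w * (2 * lead w + 2 * lead w) + k * lead w + e) false

def indM (w : List Bool) : List Bool := [avL (parseG w) [] (parseA w 0)]

def relM (w : List Bool) : List Bool :=
  [cmpS (runS (parseG w, List.range (lead w), parseA w 0, parseA w 1, parseA w 2))]

/-! ### Polynomial time -/

section
variable {α : Type} [Enc α]

@[fun_prop] theorem pt_gr {g : α → Gr} {e : α → ℕ} (hg : PT g) (he : PT e) :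
    PT fun a => gr (g a) (e a) := by unfold gr; fun_prop

@[fun_prop] theorem pt_memL {l : α → List ℕ} {e : α → ℕ} (hg : PT l) (he : PT e) :
    PT fun a => memL (l a) (e a) := by unfold memL; fun_prop

@[fun_prop] theorem pt_incL {g : α → Gr} {e v : α → ℕ} (hg : PT g) (he : PT e) (hv : PT v) :
    PT fun a => incL (g a) (e a) (v a) := by unfold incL; fun_prop

@[fun_prop] theorem pt_degL {g : α → Gr} {A : α → List ℕ} {v : α → ℕ} (hg : PT g) (he : PT A)
    (hv : PT v) : PT fun a => degL (g a) (A a) (v a) := by unfold degL; fun_prop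

@[fun_prop] theorem pt_keepL {g : α → Gr} {T A : α → List ℕ} {v : α → ℕ} (hg : PT g) (hT : PT T)
    (he : PT A) (hv : PT v) : PT fun a => keepL (g a) (T a) (A a) (v a) := by
  unfold keepL; fun_prop

theorem sz_filter_le {β : Type} [Enc β] (p : β → Bool) (l : List β) : sz (l.filter p) ≤ sz l := by
  induction l with
  | nil => simp
  | cons a l ih =>
    rw [List.filter_cons]
    split_ifs <;> simp <;> omega

theorem pt_coreL0 : PT fun s : Gr × List ℕ × List ℕ => coreL s.1 s.2.1 s.2.2 := by
  have h : PT pruneS := by unfold pruneS; fun_prop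
  have key : ∀ (s : Gr × List ℕ × List ℕ) i, sz (pruneS^[i] s) ≤ sz s := by
    intro s i
    induction i with
    | zero => simp
    | succ i ih =>
      rw [Function.iterate_succ_apply']
      refine le_trans ?_ ih
      generalize pruneS^[i] s = t
      obtain ⟨g, T, A⟩ := t
      have := sz_filter_le (fun e => keepL g T A e) A
      simp only [pruneS, sz_pair]
      omega
  exact PT.snd (PT.snd (PT.iterate h (n := fun s : Gr × List ℕ × List ℕ => s.2.2.length)
    (by fun_prop) PT.id' X fun a i _ => by simpa using key a i))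

@[fun_prop] theorem pt_coreL {g : α → Gr} {T A : α → List ℕ} (hg : PT g) (hT : PT T)
    (he : PT A) : PT fun a => coreL (g a) (T a) (A a) :=
  PT.comp (g := fun a => (g a, T a, A a)) pt_coreL0 (by fun_prop)

@[fun_prop] theorem pt_fineL {g : α → Gr} {T A : α → List ℕ} (hg : PT g) (hT : PT T)
    (he : PT A) : PT fun a => fineL (g a) (T a) (A a) := by unfold fineL; fun_prop

@[fun_prop] theorem pt_avL {g : α → Gr} {T A : α → List ℕ} (hg : PT g) (hT : PT T)
    (he : PT A) : PT fun a => avL (g a) (T a) (A a) := by unfold avL; fun_prop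

@[fun_prop] theorem pt_onlyL {g : α → Gr} {E : α → List ℕ} {v e f : α → ℕ} (hg : PT g)
    (hE : PT E) (hv : PT v) (he : PT e) (hf : PT f) :
    PT fun a => onlyL (g a) (E a) (v a) (e a) (f a) := by unfold onlyL; fun_prop

@[fun_prop] theorem pt_delL {g : α → Gr} {E : α → List ℕ} {e : α → ℕ} (hg : PT g)
    (hE : PT E) (he : PT e) : PT fun a => delL (g a) (E a) (e a) := by unfold delL; fun_prop

@[fun_prop] theorem pt_adjL {g : α → Gr} {E : α → List ℕ} {v e f : α → ℕ} (hg : PT g)
    (hE : PT E) (hv : PT v) (he : PT e) (hf : PT f) :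
    PT fun a => adjL (g a) (E a) (v a) (e a) (f a) := by unfold adjL; fun_prop

@[fun_prop] theorem pt_serL {g : α → Gr} {E : α → List ℕ} {e f : α → ℕ} (hg : PT g)
    (hE : PT E) (he : PT e) (hf : PT f) :
    PT fun a => serL (g a) (E a) (e a) (f a) := by unfold serL; fun_prop

@[fun_prop] theorem pt_sameB {b c : α → Bool} (hb : PT b) (hc : PT c) :
    PT fun a => sameB (b a) (c a) := by unfold sameB; fun_prop

@[fun_prop] theorem pt_okL {g : α → Gr} {E U : α → List ℕ} {e f : α → ℕ} (hg : PT g)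
    (hE : PT E) (hU : PT U) (he : PT e) (hf : PT f) :
    PT fun a => okL (g a) (E a) (U a) (e a) (f a) := by unfold okL; fun_prop

@[fun_prop] theorem pt_cands {g : α → Gr} {E U : α → List ℕ} (hg : PT g)
    (hE : PT E) (hU : PT U) : PT fun a => cands (g a) (E a) (U a) := by unfold cands; fun_prop

@[fun_prop] theorem pt_psiL {A : α → List ℕ} {e f : α → ℕ} (he : PT e) (hf : PT f) (hA : PT A) :
    PT fun a => psiL (e a) (f a) (A a) := by unfold psiL; fun_prop

@[fun_prop] theorem pt_mergeL {x y v : α → ℕ} (hx : PT x) (hy : PT y) (hv : PT v) :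
    PT fun a => mergeL (x a) (y a) (v a) := by unfold mergeL; fun_prop

@[fun_prop] theorem pt_relabel {g : α → Gr} {e f : α → ℕ} (hg : PT g) (he : PT e) (hf : PT f) :
    PT fun a => relabel (g a) (e a) (f a) := by unfold relabel; fun_prop

@[fun_prop] theorem pt_actS {s : α → St} {p : α → ℕ × ℕ} (hs : PT s) (hp : PT p) :
    PT fun a => actS (s a) (p a) := by unfold actS; fun_prop

theorem pt_stepS : PT stepS := by unfold stepS; fun_prop

def Small (N : ℕ) (s : St) : Prop :=
  s.1.length ≤ N ∧ (∀ p ∈ s.1, p.1 ≤ N ∧ p.2 ≤ N) ∧ sz s.2 ≤ N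

theorem gr_le {N : ℕ} {g : Gr} (h : ∀ p ∈ g, p.1 ≤ N ∧ p.2 ≤ N) (e : ℕ) : (gr g e).1 ≤ N := by
  unfold gr
  by_cases he : e < g.length
  · rw [List.getD_eq_getElem _ _ he]
    exact (h _ (List.getElem_mem he)).1
  · rw [List.getD_eq_default _ _ (by omega)]
    simp

theorem Small.step {N : ℕ} {s : St} (h : Small N s) : Small N (stepS s) := by
  unfold stepS
  cases (cands s.1 s.2.1 s.2.2.1).isEmpty
  · simp only [cond_false]
    generalize (cands s.1 s.2.1 s.2.2.1).headD (0, 0) = p
    obtain ⟨g, E, U, X, X'⟩ := s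
    obtain ⟨h1, h2, h3⟩ := h
    simp only [actS, Small] at *
    refine ⟨?_, ?_, ?_⟩
    · unfold relabel
      cases Nat.beq p.1 p.2 <;> simpa using h1
    · unfold relabel
      cases Nat.beq p.1 p.2
      · simp only [cond_false, List.mem_map]
        rintro _ ⟨q, hq, rfl⟩
        have h4 := gr_le h2 p.1
        have h5 := h2 q hq
        unfold mergeL
        constructor
        · cases Nat.beq q.1 (gr g p.1).2 <;> simp <;> omega
        · cases Nat.beq q.2 (gr g p.1).2 <;> simp <;> omega
      · exact h2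
    · have h4 := sz_filter_le (fun x => !Nat.beq x p.1) E
      have h5 : sz (psiL p.1 p.2 X) ≤ sz X := sz_filter_le _ _
      have h6 : sz (psiL p.1 p.2 X') ≤ sz X' := sz_filter_le _ _
      simp only [sz_pair] at *
      omega
  · exact h

theorem pt_runS : PT runS := by
  have key : ∀ (s : St) i, Small (sz s) (stepS^[i] s) := by
    intro s i
    induction i with
    | zero =>
      obtain ⟨g, r⟩ := s
      have h1 := length_le_sz g
      refine ⟨by simp; omega, fun p hp => ?_, by simp⟩
      have h2 := sz_le_of_mem hp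
      obtain ⟨x, y⟩ := p
      simp at h2 ⊢
      omega
    | succ i ih => rw [Function.iterate_succ_apply']; exact ih.step
  refine PT.iterate pt_stepS (n := fun s : St => s.2.1.length) (by fun_prop) PT.id'
    (2 * (X * (2 * (3 * X + 1) + 1)) + 1 + X) fun a i _ => ?_
  have h := key a i
  generalize stepS^[i] a = t at h
  obtain ⟨g, r⟩ := t
  obtain ⟨h1, h2, h3⟩ := h
  have h4 := sz_le_of_forall (l := g) (m := 3 * sz a + 1) fun p hp => by
    have := h2 p hp
    obtain ⟨x, y⟩ := p
    simp at this ⊢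
    omega
  have h5 : g.length * (2 * (3 * sz a + 1) + 1) ≤ sz a * (2 * (3 * sz a + 1) + 1) :=
    Nat.mul_le_mul_right _ h1
  simp only [sz_pair, eval_add, eval_mul, eval_X, eval_ofNat, eval_one] at h3 ⊢
  omega

@[fun_prop] theorem pt_bdL {g : α → Gr} {E U : α → List ℕ} (hg : PT g)
    (hE : PT E) (hU : PT U) : PT fun a => bdL (g a) (E a) (U a) := by unfold bdL; fun_prop

theorem pt_cmpS : PT cmpS := by unfold cmpS; fun_prop

@[fun_prop] theorem pt_parseG {w : α → List Bool} (hw : PT w) : PT fun a => parseG (w a) := by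
  unfold parseG; fun_prop

@[fun_prop] theorem pt_parseA {w : α → List Bool} (hw : PT w) (k : ℕ) :
    PT fun a => parseA (w a) k := by
  unfold parseA; fun_prop

theorem pt_indM : PT indM := by unfold indM; fun_prop

theorem pt_relM : PT relM := by
  unfold relM
  exact PT.cons (PT.comp pt_cmpS (PT.comp pt_runS (by fun_prop))) (PT.const _)

end

end Pool.Agent.Lib.MP_cce914_co
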