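import Pool.Agent.Lib.MP_cce914_co.Def

set_option autoImplicit false

namespace Pool.Agent.Lib.MP_cce914_co

open Finset

variable {ι : Type} [DecidableEq ι] (G : ι → ℕ × ℕ)

def Inc (e : ι) (v : ℕ) : Prop := (G e).1 = v ∨ (G e).2 = v

instance (e : ι) (v : ℕ) : Decidable (Inc G e v) := by unfold Inc; infer_instance

def Vx (B : Finset ι) : Finset ℕ := B.image (fun e => (G e).1) ∪ B.image (fun e => (G e).2)

def Av (T : Finset ℕ) (A : Finset ι) : Prop := ∀ B ⊆ A, B.card ≤ (Vx G B \ T).card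

variable {G}

omit [DecidableEq ι] in
theorem mem_Vx {B : Finset ι} {v : ℕ} : v ∈ Vx G B ↔ ∃ e ∈ B, Inc G e v := by
  simp only [Vx, Inc, mem_union, mem_image]
  constructor
  · rintro (⟨e, he, h⟩ | ⟨e, he, h⟩)
    · exact ⟨e, he, Or.inl h⟩
    · exact ⟨e, he, Or.inr h⟩
  · rintro ⟨e, he, h | h⟩
    · exact Or.inl ⟨e, he, h⟩
    · exact Or.inr ⟨e, he, h⟩

omit [DecidableEq ι] in
theorem Vx_mono {A B : Finset ι} (h : A ⊆ B) : Vx G A ⊆ Vx G B := fun v hv => by
  obtain ⟨e, he, h'⟩ := mem_Vx.1 hv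
  exact mem_Vx.2 ⟨e, h he, h'⟩

omit [DecidableEq ι] in
theorem fst_mem_Vx {B : Finset ι} {e : ι} (h : e ∈ B) : (G e).1 ∈ Vx G B :=
  mem_Vx.2 ⟨e, h, Or.inl rfl⟩

omit [DecidableEq ι] in
theorem snd_mem_Vx {B : Finset ι} {e : ι} (h : e ∈ B) : (G e).2 ∈ Vx G B :=
  mem_Vx.2 ⟨e, h, Or.inr rfl⟩

theorem Vx_union (A B : Finset ι) : Vx G (A ∪ B) = Vx G A ∪ Vx G B := by
  ext v
  simp only [mem_Vx, mem_union]
  constructor
  · rintro ⟨e, he | he, h⟩
    · exact Or.inl ⟨e, he, h⟩
    · exact Or.inr ⟨e, he, h⟩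
  · rintro (⟨e, he, h⟩ | ⟨e, he, h⟩)
    · exact ⟨e, Or.inl he, h⟩
    · exact ⟨e, Or.inr he, h⟩

theorem Vx_insert (e : ι) (B : Finset ι) :
    Vx G (insert e B) = insert (G e).1 (insert (G e).2 (Vx G B)) := by
  ext v
  simp only [mem_Vx, mem_insert, Inc]
  constructor
  · rintro ⟨g, rfl | hg, h⟩
    · rcases h with h | h
      · exact Or.inl h.symm
      · exact Or.inr (Or.inl h.symm)
    · exact Or.inr (Or.inr ⟨g, hg, h⟩)
  · rintro (h | h | ⟨g, hg, h⟩)
    · exact ⟨e, Or.inl rfl, Or.inl h.symm⟩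
    · exact ⟨e, Or.inl rfl, Or.inr h.symm⟩
    · exact ⟨g, Or.inr hg, h⟩

omit [DecidableEq ι] in
@[simp] theorem Vx_empty : Vx G (∅ : Finset ι) = ∅ := by simp [Vx]

/-- Adding an edge that touches `B` adds at most one vertex. -/
theorem card_Vx_insert_le {e : ι} {B : Finset ι} {v : ℕ} (h : Inc G e v) (hv : v ∈ Vx G B) :
    (Vx G (insert e B)).card ≤ (Vx G B).card + 1 := by
  rw [Vx_insert]
  rcases h with h | h
  · rw [insert_comm, h, insert_eq_of_mem hv]; exact card_insert_le _ _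
  · rw [h, insert_eq_of_mem hv]; exact card_insert_le _ _

omit [DecidableEq ι] in
theorem Av.mono {T : Finset ℕ} {A A' : Finset ι} (h : Av G T A) (hA : A' ⊆ A) : Av G T A' :=
  fun B hB => h B (hB.trans hA)

omit [DecidableEq ι] in
theorem Av.monoT {T T' : Finset ℕ} {A : Finset ι} (h : Av G T A) (hT : T' ⊆ T) : Av G T' A :=
  fun B hB => (h B hB).trans (card_le_card (sdiff_subset_sdiff Subset.rfl hT))

omit [DecidableEq ι] in
theorem av_empty_iff {A : Finset ι} : Av G ∅ A ↔ ∀ B ⊆ A, B.card ≤ (Vx G B).card := by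
  simp [Av]

omit [DecidableEq ι] in
theorem sum_degree (B : Finset ι) : ∑ v ∈ Vx G B, degree G B v = 2 * B.card := by
  simp only [degree, sum_add_distrib]
  rw [← card_eq_sum_card_fiberwise (f := fun e => (G e).1) (fun e he => by
      exact fst_mem_Vx he),
    ← card_eq_sum_card_fiberwise (f := fun e => (G e).2) (fun e he => by
      exact snd_mem_Vx he)]
  ring

omit [DecidableEq ι] in
theorem degree_mono {A B : Finset ι} (h : A ⊆ B) (v : ℕ) : degree G A v ≤ degree G B v :=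
  Nat.add_le_add (card_le_card (filter_subset_filter _ h)) (card_le_card (filter_subset_filter _ h))

omit [DecidableEq ι] in
theorem degree_pos {B : Finset ι} {v : ℕ} : 0 < degree G B v ↔ v ∈ Vx G B := by
  rw [mem_Vx, degree, Nat.add_pos_iff_pos_or_pos, card_pos, card_pos]
  constructor
  · rintro (⟨e, he⟩ | ⟨e, he⟩)
    · exact ⟨e, (mem_filter.1 he).1, Or.inl (mem_filter.1 he).2⟩
    · exact ⟨e, (mem_filter.1 he).1, Or.inr (mem_filter.1 he).2⟩
  · rintro ⟨e, he, h | h⟩
    · exact Or.inl ⟨e, mem_filter.2 ⟨he, h⟩⟩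
    · exact Or.inr ⟨e, mem_filter.2 ⟨he, h⟩⟩

theorem degree_insert {B : Finset ι} {e : ι} (he : e ∉ B) {v : ℕ} (h : Inc G e v) :
    degree G B v + 1 ≤ degree G (insert e B) v := by
  unfold degree
  rw [filter_insert, filter_insert]
  have h1 : ∀ p : ι → Prop, ∀ _ : DecidablePred p, e ∉ B.filter p := fun p _ h =>
    he (mem_filter.1 h).1
  rcases h with h | h
  · rw [if_pos h, card_insert_of_notMem (h1 _ _)]
    split_ifs
    · rw [card_insert_of_notMem (h1 _ _)]; omega
    · omega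
  · rw [if_pos h, card_insert_of_notMem (h1 _ _)]
    split_ifs
    · rw [card_insert_of_notMem (h1 _ _)]; omega
    · omega

/-- A vertex of degree at most one lies on at most one edge. -/
theorem eq_of_degree_le_one {A : Finset ι} {v : ℕ} (h : degree G A v ≤ 1) {e g : ι} (he : e ∈ A)
    (hg : g ∈ A) (hev : Inc G e v) (hgv : Inc G g v) : g = e := by
  by_contra hne
  have h1 : degree G {e} v + 1 ≤ degree G (insert g {e}) v :=
    degree_insert (by simpa using hne) hgv
  have h2 : 0 < degree G {e} v := degree_pos.2 (mem_Vx.2 ⟨e, by simp, hev⟩)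
  have h3 : degree G (insert g {e}) v ≤ degree G A v :=
    degree_mono (by intro x hx; simp at hx; rcases hx with rfl | rfl <;> assumption) v
  omega

/-- Edges matched injectively to fresh vertices can be added freely. -/
theorem av_of_inj {T : Finset ℕ} {A F : Finset ι} (φ : ι → ℕ) (hinj : Set.InjOn φ F)
    (hφ : ∀ e ∈ F, Inc G e (φ e) ∧ φ e ∉ T ∧ φ e ∉ Vx G (A \ F)) (h : Av G T (A \ F)) :
    Av G T A := by
  intro B hB
  have h1 := h (B \ F) (sdiff_subset_sdiff hB Subset.rfl)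
  have h2 : ((B ∩ F).image φ).card = (B ∩ F).card :=
    card_image_of_injOn (hinj.mono (by intro x hx; simp at hx; exact hx.2))
  have h3 : Disjoint (Vx G (B \ F) \ T) ((B ∩ F).image φ) := by
    rw [disjoint_right]
    intro v hv hv'
    obtain ⟨e, he, rfl⟩ := mem_image.1 hv
    exact (hφ e (mem_inter.1 he).2).2.2
      (Vx_mono (sdiff_subset_sdiff hB Subset.rfl) (mem_sdiff.1 hv').1)
  have h4 : (Vx G (B \ F) \ T) ∪ ((B ∩ F).image φ) ⊆ Vx G B \ T := by
    intro v hv
    rcases mem_union.1 hv with hv | hv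
    · exact mem_sdiff.2 ⟨Vx_mono sdiff_subset (mem_sdiff.1 hv).1, (mem_sdiff.1 hv).2⟩
    · obtain ⟨e, he, rfl⟩ := mem_image.1 hv
      have := hφ e (mem_inter.1 he).2
      exact mem_sdiff.2 ⟨mem_Vx.2 ⟨e, (mem_inter.1 he).1, this.1⟩, this.2.1⟩
  have h5 := card_le_card h4
  rw [card_union_of_disjoint h3] at h5
  have h6 := card_sdiff_add_card_inter B F
  omega

theorem av_pendant {T : Finset ℕ} {A : Finset ι} {e : ι} {v : ℕ} (hv : v ∉ T) (he : Inc G e v)
    (honly : ∀ g ∈ A, Inc G g v → g = e) (h : Av G T (A.erase e)) : Av G T A := by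
  refine av_of_inj (F := {e}) (fun _ => v) (by simp) ?_ (by rwa [sdiff_singleton_eq_erase])
  intro g hg
  rw [mem_singleton] at hg
  subst hg
  refine ⟨he, hv, fun hm => ?_⟩
  obtain ⟨g', hg', h'⟩ := mem_Vx.1 hm
  rw [sdiff_singleton_eq_erase, mem_erase] at hg'
  exact hg'.1 (honly g' hg'.2 h')

/-- A set with two more vertices than edges is disconnected. -/
theorem exists_split {B : Finset ι} (hne : B.Nonempty) (h : B.card + 2 ≤ (Vx G B).card) :
    ∃ C ⊆ B, C.Nonempty ∧ C ≠ B ∧ Disjoint (Vx G C) (Vx G (B \ C)) := by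
  classical
  obtain ⟨e, he⟩ := hne
  obtain ⟨C, hC, hmax⟩ := exists_max_image
    (B.powerset.filter fun C => C.Nonempty ∧ (Vx G C).card ≤ C.card + 1) card
    ⟨{e}, by
      simp only [mem_filter, mem_powerset, singleton_subset_iff, singleton_nonempty,
        card_singleton, true_and]
      refine ⟨he, ?_⟩
      have : Vx G {e} = {(G e).1, (G e).2} := by simp [Vx]
      rw [this]; exact card_le_two⟩
  simp only [mem_filter, mem_powerset] at hC hmax
  refine ⟨C, hC.1, hC.2.1, fun h' => by rw [h'] at hC; omega, ?_⟩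
  rw [disjoint_left]
  intro v hv hv'
  obtain ⟨g, hg, hgv⟩ := mem_Vx.1 hv'
  rw [mem_sdiff] at hg
  have h1 := card_Vx_insert_le hgv hv
  have h2 := hmax (insert g C) ⟨insert_subset hg.1 hC.1, insert_nonempty _ _, by
    rw [card_insert_of_notMem hg.2]; omega⟩
  rw [card_insert_of_notMem hg.2] at h2
  omega

theorem av_of_pairs {T : Finset ℕ} {Y : Finset ι} (h0 : Av G ∅ Y)
    (h2 : ∀ s ∈ T, ∀ t ∈ T, Av G {s, t} Y) : Av G T Y := by
  intro B
  induction B using Finset.strongInduction with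
  | H B ih =>
    intro hB
    by_contra hlt
    rw [not_le] at hlt
    have hne : B.Nonempty := card_pos.1 (by omega)
    by_cases hc : B.card + 2 ≤ (Vx G B).card
    · obtain ⟨C, hCB, hCne, hCne', hdis⟩ := exists_split hne hc
      have h3 := ih C (hCB.ssubset_of_ne hCne') (hCB.trans hB)
      have h4 := ih (B \ C) (sdiff_ssubset hCB hCne) (sdiff_subset.trans hB)
      have h5 : (Vx G C \ T) ∪ (Vx G (B \ C) \ T) ⊆ Vx G B \ T :=
        union_subset (sdiff_subset_sdiff (Vx_mono hCB) Subset.rfl)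
          (sdiff_subset_sdiff (Vx_mono sdiff_subset) Subset.rfl)
      have h6 := card_le_card h5
      rw [card_union_of_disjoint (hdis.mono sdiff_subset sdiff_subset)] at h6
      have h7 := card_sdiff_add_card_eq_card hCB
      omega
    · have h3 := av_empty_iff.1 h0 B hB
      have h4 := card_sdiff_add_card_inter (Vx G B) T
      by_cases h5 : 1 < (Vx G B ∩ T).card
      · obtain ⟨s, hs, t, ht, hst⟩ := one_lt_card.1 h5
        have h6 := h2 s (mem_inter.1 hs).2 t (mem_inter.1 ht).2 B hB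
        have h7 : ({s, t} : Finset ℕ) ⊆ Vx G B :=
          insert_subset (mem_inter.1 hs).1 (singleton_subset_iff.2 (mem_inter.1 ht).1)
        have h8 := card_sdiff_add_card_eq_card h7
        rw [card_pair hst] at h8
        omega
      · have h6 : (Vx G B ∩ T).card = 1 := by omega
        obtain ⟨s, hs⟩ := card_eq_one.1 h6
        have hs' : s ∈ Vx G B ∩ T := by rw [hs]; simp
        have h7 := h2 s (mem_inter.1 hs').2 s (mem_inter.1 hs').2 B hB
        have h8 : ({s, s} : Finset ℕ) ⊆ Vx G B :=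
          insert_subset (mem_inter.1 hs').1 (singleton_subset_iff.2 (mem_inter.1 hs').1)
        have h9 := card_sdiff_add_card_eq_card h8
        have h10 : ({s, s} : Finset ℕ).card = 1 := by simp
        omega

/-- Hall's theorem. -/
theorem Av.matching {T : Finset ℕ} {A : Finset ι} (h : Av G T A) :
    ∃ φ : ι → ℕ, Set.InjOn φ A ∧ ∀ e ∈ A, Inc G e (φ e) ∧ φ e ∉ T := by
  classical
  let t : A → Finset ℕ := fun e => Vx G {e.1} \ T
  have := (all_card_le_biUnion_card_iff_existsInjective' t).1 (fun s => by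
    have h1 := h (s.map (Function.Embedding.subtype _)) (by
      intro x hx
      obtain ⟨y, -, rfl⟩ := mem_map.1 hx
      exact y.2)
    rw [card_map] at h1
    refine h1.trans (card_le_card fun v hv => ?_)
    obtain ⟨e, he, hev⟩ := mem_Vx.1 (mem_sdiff.1 hv).1
    obtain ⟨y, hy, rfl⟩ := mem_map.1 he
    exact mem_biUnion.2 ⟨y, hy, mem_sdiff.2 ⟨mem_Vx.2 ⟨y.1, by simp, hev⟩, (mem_sdiff.1 hv).2⟩⟩)
  obtain ⟨f, hf, hft⟩ := this
  refine ⟨fun e => if he : e ∈ A then f ⟨e, he⟩ else 0, ?_, ?_⟩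
  · intro e he g hg heg
    simp only [mem_coe] at he hg
    simp only [dif_pos he, dif_pos hg] at heg
    exact congrArg Subtype.val (hf heg)
  · intro e he
    simp only [dif_pos he]
    have := hft ⟨e, he⟩
    obtain ⟨g, hg, hgv⟩ := mem_Vx.1 (mem_sdiff.1 this).1
    rw [mem_singleton] at hg
    subst hg
    exact ⟨hgv, (mem_sdiff.1 this).2⟩

theorem av_of_matching {T : Finset ℕ} {A : Finset ι} (φ : ι → ℕ) (hinj : Set.InjOn φ A)
    (hφ : ∀ e ∈ A, Inc G e (φ e) ∧ φ e ∉ T) : Av G T A :=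
  av_of_inj φ hinj (fun e he => ⟨(hφ e he).1, (hφ e he).2, by simp⟩) (by
    intro B hB; simp at hB; simp [hB])

/-- Replacing `X` by a set `X'` with at least as good a boundary behaviour. -/
theorem av_swap {X X' Z : Finset ι} {S : Finset ℕ} (hS : Vx G X' ∩ Vx G Z ⊆ S)
    (hd : Disjoint X Z) (h : Av G ∅ (X ∪ Z)) (h0 : Av G ∅ X')
    (h2 : ∀ s ∈ S, ∀ t ∈ S, Av G {s, t} X → Av G {s, t} X') : Av G ∅ (X' ∪ Z) := by
  obtain ⟨φ, hinj, hφ⟩ := h.matching
  set T := Z.image φ ∩ S with hT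
  have h1 : Av G T X := av_of_matching φ (hinj.mono (by simp)) (fun e he => by
    refine ⟨(hφ e (mem_union_left _ he)).1, fun hm => ?_⟩
    obtain ⟨z, hz, hze⟩ := mem_image.1 (mem_inter.1 hm).1
    have := hinj (by simp [hz]) (by simp [he]) hze
    subst this
    exact disjoint_left.1 hd he hz)
  have h3 : Av G T X' := av_of_pairs h0 fun s hs t ht =>
    h2 s (mem_inter.1 hs).2 t (mem_inter.1 ht).2
      (h1.monoT (insert_subset hs (singleton_subset_iff.2 ht)))
  intro B hB
  have h4 := h3 (B \ Z) (fun x hx => by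
    have := hB (mem_sdiff.1 hx).1
    rcases mem_union.1 this with h | h
    · exact h
    · exact absurd h (mem_sdiff.1 hx).2)
  have h5 : ((B ∩ Z).image φ).card = (B ∩ Z).card :=
    card_image_of_injOn (hinj.mono (by intro x hx; simp at hx ⊢; exact Or.inr hx.2))
  have h6 : Disjoint (Vx G (B \ Z) \ T) ((B ∩ Z).image φ) := by
    rw [disjoint_right]
    intro v hv hv'
    obtain ⟨e, he, rfl⟩ := mem_image.1 hv
    refine (mem_sdiff.1 hv').2 (mem_inter.2 ⟨mem_image_of_mem _ (mem_inter.1 he).2, hS ?_⟩)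
    refine mem_inter.2 ⟨Vx_mono ?_ (mem_sdiff.1 hv').1,
      mem_Vx.2 ⟨e, (mem_inter.1 he).2, (hφ e (mem_union_right _ (mem_inter.1 he).2)).1⟩⟩
    intro x hx
    rcases mem_union.1 (hB (mem_sdiff.1 hx).1) with h | h
    · exact h
    · exact absurd h (mem_sdiff.1 hx).2
  have h7 : (Vx G (B \ Z) \ T) ∪ ((B ∩ Z).image φ) ⊆ Vx G B \ ∅ := by
    rw [sdiff_empty]
    intro v hv
    rcases mem_union.1 hv with hv | hv
    · exact Vx_mono sdiff_subset (mem_sdiff.1 hv).1
    · obtain ⟨e, he, rfl⟩ := mem_image.1 hv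
      exact mem_Vx.2 ⟨e, (mem_inter.1 he).1, (hφ e (mem_union_right _ (mem_inter.1 he).2)).1⟩
  have h8 := card_le_card h7
  rw [card_union_of_disjoint h6] at h8
  have h9 := card_sdiff_add_card_inter B Z
  omega

end Pool.Agent.Lib.MP_cce914_co
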