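import Pool.Agent.Lib.MP_cce914_co.Alg

set_option autoImplicit false

namespace Pool.Agent.Lib.MP_cce914_co

open Finset

theorem memL_iff {l : List ℕ} {x : ℕ} : memL l x = true ↔ x ∈ l := by
  simp [memL]

theorem incL_iff {g : Gr} {e v : ℕ} : incL g e v = true ↔ Inc (gr g) e v := by
  simp [incL, Inc]

theorem length_filter_eq {A : List ℕ} (hA : A.Nodup) (p : ℕ → Bool) (q : ℕ → Prop)
    [DecidablePred q] (h : ∀ x, p x = true ↔ q x) :
    (A.filter p).length = (A.toFinset.filter q).card := by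
  rw [← List.toFinset_card_of_nodup (hA.filter p)]
  congr 1
  ext x
  simp [h]

theorem degL_eq {g : Gr} {A : List ℕ} (hA : A.Nodup) (v : ℕ) :
    degL g A v = degree (gr g) A.toFinset v := by
  unfold degL degree
  rw [length_filter_eq hA _ (fun e => (gr g e).1 = v) (by simp),
    length_filter_eq hA _ (fun e => (gr g e).2 = v) (by simp)]

theorem keepL_iff {g : Gr} {T A : List ℕ} (hA : A.Nodup) {e : ℕ} :
    keepL g T A e = true ↔ Keep (gr g) T.toFinset A.toFinset e := by
  simp [keepL, Keep, memL_iff, degL_eq hA]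

theorem prune_iter (g : Gr) (T : List ℕ) (n : ℕ) : ∀ A : List ℕ, A.Nodup → A.length ≤ n →
    ∃ C : List ℕ, pruneS^[n] (g, T, A) = (g, T, C) ∧ C.Nodup ∧
      (Av (gr g) T.toFinset C.toFinset ↔ Av (gr g) T.toFinset A.toFinset) ∧
      ∀ e ∈ C, keepL g T C e = true := by
  induction n with
  | zero =>
    intro A hA hn
    have : A = [] := List.length_eq_zero_iff.1 (by omega)
    subst this
    exact ⟨[], rfl, hA, Iff.rfl, by simp⟩
  | succ n ih =>
    intro A hA hn
    by_cases h : ∀ e ∈ A, keepL g T A e = true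
    · refine ⟨A, Function.iterate_fixed ?_ _, hA, Iff.rfl, h⟩
      simp only [pruneS]
      rw [List.filter_eq_self.2 h]
    · have h1 : (A.filter fun e => keepL g T A e).length < A.length := by
        rw [List.length_filter_lt_length_iff_exists]
        push Not at h
        obtain ⟨e, he, h⟩ := h
        exact ⟨e, he, h⟩
      obtain ⟨C, h2, h3, h4, h5⟩ := ih _ (hA.filter fun e => keepL g T A e) (by omega)
      refine ⟨C, by rw [Function.iterate_succ_apply]; exact h2, h3, h4.trans ?_, h5⟩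
      refine av_prune (fun x hx => ?_) fun e he hk => ?_
      · simp only [List.mem_toFinset, List.mem_filter] at hx ⊢
        exact hx.1
      · simp only [List.mem_toFinset, List.mem_filter] at he ⊢
        exact ⟨he, (keepL_iff hA).2 hk⟩

theorem avL_iff {g : Gr} {T A : List ℕ} (hA : A.Nodup) :
    avL g T A = true ↔ Av (gr g) T.toFinset A.toFinset := by
  obtain ⟨C, h1, h2, h3, h4⟩ := prune_iter g T A.length A hA le_rfl
  unfold avL coreL
  rw [h1, ← h3, av_fix fun e he => (keepL_iff h2).1 (h4 e (List.mem_toFinset.1 he))]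
  simp [fineL, degL_eq h2, ← memL_iff]

theorem onlyL_iff {g : Gr} {E : List ℕ} {v e f : ℕ} :
    onlyL g E v e f = true ↔ Only (gr g) E.toFinset v e f := by
  simp only [onlyL, Only, List.all_eq_true, List.mem_toFinset, Bool.or_eq_true, Nat.beq_eq,
    Bool.not_eq_true', ← incL_iff]
  refine forall₂_congr fun x _ => ?_
  cases incL g x v <;> simp

theorem beq_false {x y : ℕ} : Nat.beq x y = false ↔ x ≠ y := by
  rw [← Bool.not_eq_true, Nat.beq_eq]

theorem delL_iff {g : Gr} {E : List ℕ} {e : ℕ} :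
    delL g E e = true ↔ Del (gr g) E.toFinset e := by
  simp [delL, Del, onlyL_iff, beq_false]

theorem adjL_iff {g : Gr} {E : List ℕ} {v e f : ℕ} :
    adjL g E v e f = true ↔ Adj (gr g) E.toFinset v e f := by
  simp [adjL, Adj, onlyL_iff, incL_iff]

theorem serL_iff {g : Gr} {E : List ℕ} {e f : ℕ} :
    serL g E e f = true ↔ Ser (gr g) E.toFinset e f := by
  simp [serL, Ser, adjL_iff, beq_false]

theorem sameB_iff {b c : Bool} : sameB b c = true ↔ (b = true ↔ c = true) := by
  cases b <;> cases c <;> simp [sameB]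

theorem okL_iff {g : Gr} {E U : List ℕ} {e f : ℕ} : okL g E U e f = true ↔
    (e = f ∧ Del (gr g) E.toFinset e) ∨
      (e ≠ f ∧ (e ∈ U ↔ f ∈ U) ∧ Ser (gr g) E.toFinset e f) := by
  unfold okL
  by_cases h : e = f
  · subst h
    simp [delL_iff]
  · rw [beq_false.2 h]
    simp [h, sameB_iff, memL_iff, serL_iff]

theorem mem_cands {g : Gr} {E U : List ℕ} {p : ℕ × ℕ} :
    p ∈ cands g E U ↔ p.1 ∈ E ∧ p.2 ∈ E ∧ okL g E U p.1 p.2 = true := by
  obtain ⟨e, f⟩ := p
  simp [cands, and_assoc]

theorem reduced_of_nil {g : Gr} {E U : List ℕ} (h : cands g E U = []) :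
    Reduced (gr g) E.toFinset U.toFinset := by
  have key : ∀ e ∈ E, ∀ f ∈ E, ¬ okL g E U e f = true := fun e he f hf hk => by
    have : (e, f) ∈ cands g E U := mem_cands.2 ⟨he, hf, hk⟩
    simp [h] at this
  simp only [Reduced, List.mem_toFinset]
  exact ⟨fun e he hd => key e he e he (okL_iff.2 (Or.inl ⟨rfl, hd⟩)),
    fun e he f hf hef hU hs => key e he f hf (okL_iff.2 (Or.inr ⟨hef, hU, hs⟩))⟩

theorem psiL_toFinset (e f : ℕ) (A : List ℕ) : (psiL e f A).toFinset = psi e f A.toFinset := by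
  ext x
  unfold psi psiL
  split_ifs with h
  · simp only [List.mem_toFinset] at h
    simp [memL_iff, h, beq_false, and_comm]
  · simp only [List.mem_toFinset] at h
    simp only [List.mem_toFinset, List.mem_filter, Bool.and_eq_true, Bool.or_eq_true, memL_iff,
      Bool.not_eq_true', beq_false, mem_erase]
    tauto

theorem step_of_cand {g : Gr} {E U : List ℕ} (hE : ∀ e ∈ E, e < g.length) {p : ℕ × ℕ}
    (hp : p ∈ cands g E U) :
    Step (gr g) (gr (relabel g p.1 p.2)) E.toFinset p.1 p.2 ∧ (p.1 ∈ U ↔ p.2 ∈ U) := by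
  obtain ⟨e, f⟩ := p
  obtain ⟨he, -, hk⟩ := mem_cands.1 hp
  simp only at he hk ⊢
  rcases okL_iff.1 hk with ⟨rfl, h⟩ | ⟨hef, hU, h⟩
  · exact ⟨h.step (List.mem_toFinset.2 he) fun x _ => by simp [relabel], Iff.rfl⟩
  · refine ⟨h.step (List.mem_toFinset.2 he) (Ne.symm hef) fun x hx => ?_, hU⟩
    have hx' := hE x (List.mem_toFinset.1 hx)
    have hm : ∀ a b v, mergeL a b v = merge a b v := by
      intro a b v
      unfold mergeL merge
      by_cases h : v = b
      · simp [h]
      · simp [h, beq_false.2 h]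
    unfold relabel
    rw [beq_false.2 hef, cond_false]
    conv_lhs => unfold gr
    rw [List.getD_eq_getElem _ _ (by simpa using hx'), List.getElem_map, hm, hm]
    have : gr g x = g[x] := List.getD_eq_getElem _ _ hx'
    rw [this]
    rfl

theorem length_relabel (g : Gr) (e f : ℕ) : (relabel g e f).length = g.length := by
  unfold relabel
  cases Nat.beq e f <;> simp

/-- The reduction phase. -/
theorem run_spec (U : List ℕ) (l n : ℕ) : ∀ (g : Gr) (E : List ℕ), (∀ e ∈ E, e < g.length) →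
    E.length ≤ n → Lam (gr g) E.toFinset U.toFinset l →
    ∃ (g' : Gr) (E' : List ℕ) (F : List ℕ → List ℕ),
      (∀ X X', stepS^[n] (g, E, U, X, X') = (g', E', U, F X, F X')) ∧
      Reduced (gr g') E'.toFinset U.toFinset ∧ Lam (gr g') E'.toFinset U.toFinset l ∧
      (∀ X, (F X).Sublist X) ∧
      (∀ X : List ℕ, X.toFinset ⊆ E.toFinset → (F X).toFinset ⊆ E'.toFinset) ∧
      ∀ X Z : List ℕ, X.toFinset ⊆ E.toFinset ∩ U.toFinset → Z.toFinset ⊆ E.toFinset \ U.toFinset →
        (Av (gr g) ∅ (X.toFinset ∪ Z.toFinset) ↔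
          Av (gr g') ∅ ((F X).toFinset ∪ (F Z).toFinset)) := by
  induction n with
  | zero =>
    intro g E _ hn hl
    have : E = [] := List.length_eq_zero_iff.1 (by omega)
    subst this
    exact ⟨g, [], id, fun _ _ => rfl, reduced_of_nil rfl, hl, fun _ => List.Sublist.refl _,
      fun _ h => h, fun _ _ _ _ => Iff.rfl⟩
  | succ n ih =>
    intro g E hE hn hl
    cases hc : cands g E U with
    | nil =>
      refine ⟨g, E, id, fun X X' => Function.iterate_fixed ?_ _, reduced_of_nil hc, hl,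
        fun _ => List.Sublist.refl _, fun _ h => h, fun _ _ _ _ => Iff.rfl⟩
      simp [stepS, hc]
    | cons p t =>
      have hp : p ∈ cands g E U := by simp [hc]
      obtain ⟨hs, hU⟩ := step_of_cand hE hp
      have hE1 : (E.filter fun x => !Nat.beq x p.1).toFinset = E.toFinset.erase p.1 := by
        ext x
        simp [beq_false, and_comm]
      have hlen : (E.filter fun x => !Nat.beq x p.1).length < E.length := by
        rw [List.length_filter_lt_length_iff_exists]
        exact ⟨p.1, List.mem_toFinset.1 hs.mem, by simp⟩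
      obtain ⟨g', E', F, h1, h2, h3, h4, h5, h6⟩ := ih (relabel g p.1 p.2)
        (E.filter fun x => !Nat.beq x p.1)
        (fun e he => by rw [length_relabel]; exact hE e (List.mem_filter.1 he).1) (by omega)
        (by rw [hE1]; exact hs.lam hl)
      rw [hE1] at h5 h6
      refine ⟨g', E', fun X => F (psiL p.1 p.2 X), fun X X' => ?_, h2, h3,
        fun X => (h4 _).trans List.filter_sublist, fun X hX => h5 _ ?_, fun X Z hX hZ => ?_⟩
      · rw [Function.iterate_succ_apply, ← h1]
        congr 1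
        simp [stepS, hc, actS]
      · rw [psiL_toFinset]
        exact (psi_subset _ _ _).trans (erase_subset_erase _ hX)
      · have hX1 := hX.trans inter_subset_left
        have hZ1 := hZ.trans sdiff_subset
        have hZ2 : Disjoint Z.toFinset U.toFinset :=
          disjoint_left.2 fun x hx => (mem_sdiff.1 (hZ hx)).2
        rw [hs.iff _ (union_subset hX1 hZ1), psi_union (hX.trans inter_subset_right) hZ2
          (by simpa using hU), ← psiL_toFinset, ← psiL_toFinset]
        refine h6 _ _ ?_ ?_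
        · rw [psiL_toFinset]
          exact subset_inter ((psi_subset _ _ _).trans (erase_subset_erase _ hX1))
            (((psi_subset _ _ _).trans (erase_subset _ _)).trans (hX.trans inter_subset_right))
        · rw [psiL_toFinset]
          exact subset_sdiff.2 ⟨(psi_subset _ _ _).trans (erase_subset_erase _ hZ1),
            hZ2.mono_left ((psi_subset _ _ _).trans (erase_subset _ _))⟩

theorem mem_bdL {g : Gr} {E U : List ℕ} {v : ℕ} : v ∈ bdL g E U ↔
    v ∈ Vx (gr g) (E.toFinset ∩ U.toFinset) ∩ Vx (gr g) (E.toFinset \ U.toFinset) := by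
  simp only [bdL, List.mem_filter, List.mem_flatMap, Bool.and_eq_true, List.any_eq_true,
    memL_iff, incL_iff, mem_inter, mem_Vx, mem_sdiff, List.mem_toFinset, Bool.not_eq_true',
    ← Bool.not_eq_true, and_assoc]
  refine ⟨fun h => h.2, fun h => ⟨?_, h⟩⟩
  obtain ⟨⟨e, he, -, h | h⟩, -⟩ := h
  · exact ⟨e, he, by simp [h]⟩
  · exact ⟨e, he, by simp [h]⟩

open Classical in
/-- The boundary type of a set of edges. -/
noncomputable def typ (G : ℕ → ℕ × ℕ) (S : Finset ℕ) (Y : Finset ℕ) : Bool × Finset (ℕ × ℕ) :=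
  (decide (Av G ∅ Y), (S ×ˢ S).filter fun p => Av G {p.1, p.2} Y)

theorem typ_eq_iff {G : ℕ → ℕ × ℕ} {S Y Y' : Finset ℕ} : typ G S Y = typ G S Y' ↔
    (Av G ∅ Y ↔ Av G ∅ Y') ∧ ∀ s ∈ S, ∀ t ∈ S, (Av G {s, t} Y ↔ Av G {s, t} Y') := by
  classical
  simp only [typ, Prod.mk.injEq, decide_eq_decide, Finset.ext_iff, mem_filter, mem_product,
    and_congr_right_iff, Prod.forall]
  exact fun _ => ⟨fun h s hs t ht => h s t ⟨hs, ht⟩, fun h s t hst => h s hst.1 t hst.2⟩

theorem cmpS_iff {g : Gr} {E U X X' : List ℕ} (hX : X.Nodup) (hX' : X'.Nodup) :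
    cmpS (g, E, U, X, X') = true ↔
      typ (gr g) (bdL g E U).toFinset X.toFinset = typ (gr g) (bdL g E U).toFinset X'.toFinset := by
  simp [typ_eq_iff, cmpS, sameB_iff, avL_iff hX, avL_iff hX']

theorem typ_swap {G : ℕ → ℕ × ℕ} {S X X' Z : Finset ℕ} (hS' : Vx G X' ∩ Vx G Z ⊆ S)
    (hd : Disjoint X Z) (h : typ G S X = typ G S X') (h1 : Av G ∅ (X ∪ Z)) : Av G ∅ (X' ∪ Z) :=
  av_swap hS' hd h1 ((typ_eq_iff.1 h).1.1 (h1.mono subset_union_left))
    fun s hs t ht => ((typ_eq_iff.1 h).2 s hs t ht).1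

/-- The algorithm on lists. -/
theorem main_list (l : ℕ) (g : Gr) (E U : List ℕ) (hE : ∀ e ∈ E, e < g.length)
    (hl : Lam (gr g) E.toFinset U.toFinset l) :
    ∃ f : List ℕ → Fin (2 * 2 ^ ((12 * l) * (12 * l))),
      (∀ X X' Z : List ℕ, X.toFinset ⊆ E.toFinset ∩ U.toFinset →
        X'.toFinset ⊆ E.toFinset ∩ U.toFinset → Z.toFinset ⊆ E.toFinset \ U.toFinset →
        f X = f X' → Av (gr g) ∅ (X.toFinset ∪ Z.toFinset) →
          Av (gr g) ∅ (X'.toFinset ∪ Z.toFinset)) ∧
      ∀ X X' : List ℕ, X.Nodup → X'.Nodup →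
        (cmpS (runS (g, E, U, X, X')) = true ↔ f X = f X') := by
  classical
  obtain ⟨g', E', F, h1, h2, h3, h4, h5, h6⟩ := run_spec U l E.length g E hE le_rfl hl
  set S := (bdL g' E' U).toFinset with hS
  have hS' : S = Vx (gr g') (E'.toFinset ∩ U.toFinset) ∩ Vx (gr g') (E'.toFinset \ U.toFinset) := by
    ext v; rw [hS, List.mem_toFinset, mem_bdL]
  have hcard : S.card ≤ 12 * l := hS' ▸ card_boundary_le h2 h3
  let Ty : Finset (Bool × Finset (ℕ × ℕ)) := univ ×ˢ (S ×ˢ S).powerset
  have hTy : Fintype.card Ty ≤ Fintype.card (Fin (2 * 2 ^ ((12 * l) * (12 * l)))) := by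
    simp only [Ty, Fintype.card_coe, card_product, card_univ, Fintype.card_bool, card_powerset,
      Fintype.card_fin]
    exact Nat.mul_le_mul_left _ (Nat.pow_le_pow_right (by norm_num) (Nat.mul_le_mul hcard hcard))
  obtain ⟨emb⟩ := Function.Embedding.nonempty_of_card_le hTy
  let f : List ℕ → Fin (2 * 2 ^ ((12 * l) * (12 * l))) := fun X =>
    emb ⟨typ (gr g') S (F X).toFinset,
      mem_product.2 ⟨mem_univ _, mem_powerset.2 (filter_subset _ _)⟩⟩
  have hf : ∀ X X', f X = f X' ↔ typ (gr g') S (F X).toFinset = typ (gr g') S (F X').toFinset := by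
    intro X X'
    simp only [f, EmbeddingLike.apply_eq_iff_eq, Subtype.mk.injEq]
  have hsub : ∀ X : List ℕ, (F X).toFinset ⊆ X.toFinset := fun X x hx =>
    List.mem_toFinset.2 ((h4 X).subset (List.mem_toFinset.1 hx))
  refine ⟨f, fun X X' Z hX hX' hZ hff => ?_, fun X X' hX hX' => ?_⟩
  · rw [h6 X Z hX hZ, h6 X' Z hX' hZ]
    refine typ_swap ?_ ?_ ((hf _ _).1 hff)
    · rw [hS']
      refine inter_subset_inter (Vx_mono (subset_inter (h5 _ (hX'.trans inter_subset_left))
        ((hsub _).trans (hX'.trans inter_subset_right)))) (Vx_mono (subset_sdiff.2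
          ⟨h5 _ (hZ.trans sdiff_subset), ?_⟩))
      exact disjoint_left.2 fun x hx => (mem_sdiff.1 (hZ (hsub _ hx))).2
    · exact disjoint_left.2 fun x hx hx' =>
        (mem_sdiff.1 (hZ (hsub _ hx'))).2 (mem_inter.1 (hX (hsub _ hx))).2
  · rw [hf]
    unfold runS
    simp only
    rw [h1, cmpS_iff (hX.sublist (h4 X)) (hX'.sublist (h4 X'))]

end Pool.Agent.Lib.MP_cce914_co
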