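import Pool.Agent.Lib.MP_cce914_co.Red

set_option autoImplicit false

namespace Pool.Agent.Lib.MP_cce914_co

open Finset

variable {ι : Type} [DecidableEq ι] {G : ι → ℕ × ℕ}

/-- Deficiency form of Hall's theorem on the vertex side. -/
theorem exists_indep_of_deficiency {A : Finset ι} {δ : ℕ}
    (h : ∀ Y ⊆ Vx G A, Y.card ≤ (A.filter fun e => ∃ v ∈ Y, Inc G e v).card + δ) :
    ∃ I ⊆ A, Av G ∅ I ∧ (Vx G A).card ≤ I.card + δ := by
  classical
  let t : Vx G A → Finset (ι ⊕ ℕ) := fun v => (A.filter fun e => Inc G e v).disjSum (range δ)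
  have := (all_card_le_biUnion_card_iff_existsInjective' t).1 (fun s => by
    rcases s.eq_empty_or_nonempty with rfl | ⟨v0, hv0⟩
    · simp
    have h1 := h (s.map (Function.Embedding.subtype _)) (by
      intro x hx
      obtain ⟨y, -, rfl⟩ := mem_map.1 hx
      exact y.2)
    rw [card_map] at h1
    refine h1.trans ?_
    conv_lhs => rw [← card_range δ, ← card_disjSum]
    refine card_le_card fun x hx => ?_
    rcases mem_disjSum.1 hx with ⟨e, he, rfl⟩ | ⟨i, hi, rfl⟩
    · obtain ⟨he1, v, hv, hev⟩ := mem_filter.1 he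
      obtain ⟨y, hy, rfl⟩ := mem_map.1 hv
      exact mem_biUnion.2 ⟨y, hy, inl_mem_disjSum.2 (mem_filter.2 ⟨he1, hev⟩)⟩
    · exact mem_biUnion.2 ⟨v0, hv0, inr_mem_disjSum.2 hi⟩)
  obtain ⟨f, hf, hft⟩ := this
  refine ⟨A.filter fun e => ∃ v, f v = Sum.inl e, filter_subset _ _, ?_, ?_⟩
  · refine av_of_matching (fun e => if h : ∃ v, f v = Sum.inl e then h.choose.1 else 0) ?_ ?_
    · intro e he g hg heg
      have he' := (mem_filter.1 he).2
      have hg' := (mem_filter.1 hg).2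
      simp only [dif_pos he', dif_pos hg'] at heg
      have h1 := he'.choose_spec
      have h2 := hg'.choose_spec
      rw [Subtype.ext heg, h2] at h1
      exact (Sum.inl_injective h1).symm
    · intro e he
      have he' := (mem_filter.1 he).2
      simp only [dif_pos he']
      have h1 := hft he'.choose
      rw [he'.choose_spec] at h1
      exact ⟨(mem_filter.1 (inl_mem_disjSum.1 h1)).2, by simp⟩
  · conv_rhs => rw [← card_range δ, ← card_disjSum]
    rw [← Fintype.card_coe, ← card_univ]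
    refine card_le_card_of_injOn f (fun v _ => ?_) hf.injOn
    rcases mem_disjSum.1 (hft v) with ⟨e, he, h1⟩ | ⟨i, hi, h1⟩
    · rw [← h1]
      exact inl_mem_disjSum.2 (mem_filter.2 ⟨(mem_filter.1 he).1, v, h1.symm⟩)
    · rw [← h1]
      exact inr_mem_disjSum.2 hi

def Iso (G : ι → ℕ × ℕ) (A : Finset ι) (e : ι) : Prop :=
  Only G A (G e).1 e e ∧ Only G A (G e).2 e e ∧ (G e).1 ≠ (G e).2

open Classical in
noncomputable def Good (G : ι → ℕ × ℕ) (A : Finset ι) : Finset ℕ :=
  (Vx G A).filter fun v => ∃ e ∈ A, Inc G e v ∧ Iso G A e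

theorem only_union {A A' : Finset ι} {v : ℕ} {e f : ι} (h : Only G A v e f) (hv : v ∉ Vx G A') :
    Only G (A ∪ A') v e f := by
  intro g hg hgv
  rcases mem_union.1 hg with hg | hg
  · exact h g hg hgv
  · exact absurd (mem_Vx.2 ⟨g, hg, hgv⟩) hv

theorem mem_Vx_of_only {A A' : Finset ι} {v : ℕ} {e : ι} (hd : ¬ Del G (A ∪ A') e)
    (h : Only G A v e e) (he : Inc G e v) : v ∈ Vx G A' := by
  by_contra hv
  have := only_union h hv
  rcases he with rfl | rfl
  · exact hd (Or.inl this)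
  · exact hd (Or.inr (Or.inl this))

theorem side_bound {A A' : Finset ι} (hd : ∀ e ∈ A, ¬ Del G (A ∪ A') e)
    (hs : ∀ e ∈ A, ∀ f ∈ A, e ≠ f → ¬ Ser G (A ∪ A') e f) :
    ∃ I ⊆ A, Av G ∅ I ∧
      6 * (Vx G A).card ≤ 6 * I.card + 2 * (Vx G A ∩ Vx G A').card + (Good G A).card := by
  classical
  let wa : ι → ℕ := fun e => if Only G A (G e).1 e e then (if Only G A (G e).2 e e then 3 else 4)
    else (if Only G A (G e).2 e e then 2 else 3)
  let wb : ι → ℕ := fun e => if Only G A (G e).1 e e then (if Only G A (G e).2 e e then 3 else 2)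
    else (if Only G A (G e).2 e e then 4 else 3)
  let c : ι → ℕ → ℕ := fun e v =>
    (if (G e).1 = v then wa e else 0) + (if (G e).2 = v then wb e else 0)
  have hw : ∀ e, wa e + wb e = 6 ∧ 2 ≤ wa e ∧ 2 ≤ wb e := by
    intro e; simp only [wa, wb]; split_ifs <;> simp
  have c2 : ∀ e v, Inc G e v → 2 ≤ c e v := by
    intro e v h
    have := hw e
    simp only [c]
    rcases h with h | h <;> rw [if_pos h] <;> omega
  have cloop : ∀ e v, Inc G e v → (G e).1 = (G e).2 → c e v = 6 := by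
    intro e v h h'
    have := hw e
    simp only [c]
    rcases h with h | h
    · rw [if_pos h, if_pos (h' ▸ h)]; omega
    · rw [if_pos h, if_pos (h' ▸ h)]; omega
  have cleaf : ∀ e v, Inc G e v → Only G A v e e → 3 ≤ c e v ∧ (¬ Iso G A e → 4 ≤ c e v) := by
    intro e v h h'
    by_cases hl : (G e).1 = (G e).2
    · rw [cloop e v h hl]; omega
    simp only [c, wa, wb, Iso]
    rcases h with rfl | rfl
    · simp only [if_true, if_pos h', if_neg (Ne.symm hl)]
      split_ifs with h2 <;> simp [h', hl, h2]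
    · simp only [if_true, if_pos h', if_neg hl]
      split_ifs with h2 <;> simp [h', hl, h2]
  have hlow : ∀ v ∈ Vx G A, 6 ≤ ∑ e ∈ A, c e v + 2 * (if v ∈ Vx G A ∩ Vx G A' then 1 else 0) +
      (if v ∈ Good G A then 1 else 0) := by
    intro v hv
    obtain ⟨e, he, hev⟩ := mem_Vx.1 hv
    by_cases h1 : Only G A v e e
    · have h2 := mem_Vx_of_only (hd e he) h1 hev
      rw [if_pos (mem_inter.2 ⟨hv, h2⟩)]
      have h3 : c e v ≤ ∑ e ∈ A, c e v := single_le_sum (f := fun e => c e v) (by simp) he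
      have h4 := cleaf e v hev h1
      by_cases h5 : Iso G A e
      · have h6 : v ∈ Good G A := mem_filter.2 ⟨hv, e, he, hev, h5⟩
        rw [if_pos h6]; omega
      · have := h4.2 h5; omega
    · have h1' := h1
      simp only [Only, or_self, not_forall] at h1'
      obtain ⟨f, hf, hfv, hfe⟩ := h1'
      have h3 : c e v + c f v ≤ ∑ e ∈ A, c e v := by
        rw [← sum_pair (f := fun e => c e v) (Ne.symm hfe)]
        exact sum_le_sum_of_subset (insert_subset he (singleton_subset_iff.2 hf))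
      have h4 := c2 e v hev
      have h5 := c2 f v hfv
      by_cases h6 : v ∈ Vx G A'
      · rw [if_pos (mem_inter.2 ⟨hv, h6⟩)]; omega
      by_cases h7 : Only G A v e f
      · have h8 : Adj G (A ∪ A') v e f := ⟨hev, hfv, only_union h7 h6⟩
        have h9 : (G e).1 = (G e).2 := by
          by_contra h9
          refine hs e he f hf (Ne.symm hfe) ⟨h9, Or.inl ?_⟩
          rcases hev with rfl | rfl
          · exact Or.inl h8
          · exact Or.inr h8
        have := cloop e v hev h9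
        omega
      · simp only [Only, not_forall, not_or] at h7
        obtain ⟨g, hg, hgv, hge, hgf⟩ := h7
        have h8 := c2 g v hgv
        have h9 : c g v + (c e v + c f v) ≤ ∑ e ∈ A, c e v := by
          rw [← sum_pair (f := fun e => c e v) (Ne.symm hfe),
            ← sum_insert (f := fun e => c e v) (by simp [hge, hgf])]
          exact sum_le_sum_of_subset
            (insert_subset hg (insert_subset he (singleton_subset_iff.2 hf)))
        omega
  have hup : ∀ Y : Finset ℕ, ∑ v ∈ Y, ∑ e ∈ A, c e v ≤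
      6 * (A.filter fun e => ∃ v ∈ Y, Inc G e v).card := by
    intro Y
    rw [sum_comm, card_filter, mul_sum]
    refine sum_le_sum fun e _ => ?_
    simp only [c, sum_add_distrib, sum_ite_eq]
    have := hw e
    split_ifs with h1 h2 h3 h3 h2 h3 h3
    all_goals first
      | omega
      | exact absurd ⟨_, h1, Or.inl rfl⟩ h3
      | exact absurd ⟨_, h2, Or.inr rfl⟩ h3
  have hind : ∀ Y Z : Finset ℕ, ∑ v ∈ Y, (if v ∈ Z then 1 else 0) ≤ Z.card := by
    intro Y Z
    rw [← card_filter]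
    exact card_le_card fun v hv => (mem_filter.1 hv).2
  obtain ⟨I, hI, h1, h2⟩ := exists_indep_of_deficiency (G := G) (A := A)
    (δ := (2 * (Vx G A ∩ Vx G A').card + (Good G A).card) / 6) (fun Y hY => by
      have h3 := sum_le_sum fun v hv => hlow v (hY hv)
      rw [sum_const, smul_eq_mul, sum_add_distrib, sum_add_distrib, ← mul_sum] at h3
      have h4 := hup Y
      have h5 := hind Y (Vx G A ∩ Vx G A')
      have h6 := hind Y (Good G A)
      omega)
  exact ⟨I, hI, h1, by omega⟩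

theorem Good_subset {A A' : Finset ι} (hd : ∀ e ∈ A, ¬ Del G (A ∪ A') e) :
    Good G A ⊆ Vx G A ∩ Vx G A' := by
  classical
  intro v hv
  obtain ⟨hv, e, he, hev, h⟩ := mem_filter.1 hv
  refine mem_inter.2 ⟨hv, mem_Vx_of_only (hd e he) ?_ hev⟩
  rcases hev with rfl | rfl
  · exact h.1
  · exact h.2.1

omit [DecidableEq ι] in
theorem Iso.only {A : Finset ι} {e : ι} (h : Iso G A e) {v : ℕ} (hv : Inc G e v) :
    Only G A v e e := by
  rcases hv with rfl | rfl
  · exact h.1
  · exact h.2.1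

theorem only_two {A A' : Finset ι} {v : ℕ} {e f : ι} (h : Only G A v e e) (h' : Only G A' v f f) :
    Only G (A ∪ A') v e f := by
  intro g hg hgv
  rcases mem_union.1 hg with hg | hg
  · exact Or.inl (by simpa using h g hg hgv)
  · exact Or.inr (by simpa using h' g hg hgv)

theorem not_both_good {A A' : Finset ι} (hdis : Disjoint A A')
    (hd : ∀ e ∈ A, ¬ Del G (A ∪ A') e)
    (hs : ∀ e ∈ A', ∀ f ∈ A', e ≠ f → ¬ Ser G (A ∪ A') e f) {g : ι} (hg : g ∈ A)
    (hI : Iso G A g) (h1 : (G g).1 ∈ Good G A') (h2 : (G g).2 ∈ Good G A') : False := by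
  classical
  obtain ⟨-, e, he, hev, he'⟩ := mem_filter.1 h1
  obtain ⟨-, f, hf, hfv, hf'⟩ := mem_filter.1 h2
  have h3 := only_two hI.1 (he'.only hev)
  have h4 := only_two hI.2.1 (hf'.only hfv)
  by_cases hef : e = f
  · subst hef
    exact hd g hg (Or.inr (Or.inr ⟨e, mem_union_right _ he, hI.2.2, h3, h4⟩))
  · refine hs e he f hf hef ⟨he'.2.2, Or.inr ⟨g, mem_union_left _ hg, ?_, ?_, hI.2.2,
      ⟨hev, Or.inl rfl, h3.symm⟩, ⟨Or.inr rfl, hfv, h4⟩⟩⟩
    · rintro rfl; exact disjoint_left.1 hdis hg he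
    · rintro rfl; exact disjoint_left.1 hdis hg hf

theorem card_good_inter {A A' : Finset ι} (hdis : Disjoint A A')
    (hd : ∀ e ∈ A, ¬ Del G (A ∪ A') e)
    (hs : ∀ e ∈ A', ∀ f ∈ A', e ≠ f → ¬ Ser G (A ∪ A') e f) :
    2 * (Good G A ∩ Good G A').card ≤ (Vx G A ∩ Vx G A').card := by
  classical
  have key : ∀ s ∈ Good G A ∩ Good G A', ∃ t ∈ (Vx G A ∩ Vx G A') \ (Good G A ∩ Good G A'),
      ∃ e ∈ A, Iso G A e ∧ Inc G e s ∧ Inc G e t ∧ s ≠ t := by
    intro s hs'
    obtain ⟨-, e, he, hes, hI⟩ := mem_filter.1 (mem_inter.1 hs').1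
    have hg : ∀ t, Inc G e t → t ∈ Vx G A ∩ Vx G A' := fun t ht =>
      Good_subset hd (mem_filter.2 ⟨mem_Vx.2 ⟨e, he, ht⟩, e, he, ht, hI⟩)
    rcases hes with rfl | rfl
    · exact ⟨(G e).2, mem_sdiff.2 ⟨hg _ (Or.inr rfl), fun h =>
        not_both_good hdis hd hs he hI (mem_inter.1 hs').2 (mem_inter.1 h).2⟩,
        e, he, hI, Or.inl rfl, Or.inr rfl, hI.2.2⟩
    · exact ⟨(G e).1, mem_sdiff.2 ⟨hg _ (Or.inl rfl), fun h =>
        not_both_good hdis hd hs he hI (mem_inter.1 h).2 (mem_inter.1 hs').2⟩,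
        e, he, hI, Or.inr rfl, Or.inl rfl, hI.2.2.symm⟩
  choose! t ht using key
  have h1 := card_le_card_of_injOn t (fun s hs => (ht s hs).1) (fun s hs s' hs' h => by
    obtain ⟨-, e, he, hI, h1, h2, h3⟩ := ht s hs
    obtain ⟨-, e', he', hI', h1', h2', h3'⟩ := ht s' hs'
    rw [← h] at h2' h3'
    have h4 : e' = e := by simpa using hI.only h2 e' he' h2'
    subst h4
    unfold Inc at *
    omega)
  have h2 : Good G A ∩ Good G A' ⊆ Vx G A ∩ Vx G A' := inter_subset_left.trans (Good_subset hd)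
  have h3 := card_sdiff_add_card_eq_card h2
  omega

def Reduced (G : ι → ℕ × ℕ) (E U : Finset ι) : Prop :=
  (∀ e ∈ E, ¬ Del G E e) ∧ ∀ e ∈ E, ∀ f ∈ E, e ≠ f → (e ∈ U ↔ f ∈ U) → ¬ Ser G E e f

theorem card_boundary_le {E U : Finset ι} {l : ℕ} (hr : Reduced G E U) (hl : Lam G E U l) :
    (Vx G (E ∩ U) ∩ Vx G (E \ U)).card ≤ 12 * l := by
  have hE : E ∩ U ∪ E \ U = E := by rw [union_comm, sdiff_union_inter]
  have hE' : E \ U ∪ E ∩ U = E := sdiff_union_inter _ _
  have hdis : Disjoint (E ∩ U) (E \ U) := (disjoint_sdiff_inter _ _).symm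
  have d1 : ∀ e ∈ E ∩ U, ¬ Del G (E ∩ U ∪ E \ U) e := fun e he => by
    rw [hE]; exact hr.1 e (mem_inter.1 he).1
  have d2 : ∀ e ∈ E \ U, ¬ Del G (E \ U ∪ E ∩ U) e := fun e he => by
    rw [hE']; exact hr.1 e (mem_sdiff.1 he).1
  have s1 : ∀ e ∈ E ∩ U, ∀ f ∈ E ∩ U, e ≠ f → ¬ Ser G E e f := fun e he f hf hef =>
    hr.2 e (mem_inter.1 he).1 f (mem_inter.1 hf).1 hef
      (iff_of_true (mem_inter.1 he).2 (mem_inter.1 hf).2)
  have s2 : ∀ e ∈ E \ U, ∀ f ∈ E \ U, e ≠ f → ¬ Ser G E e f := fun e he f hf hef =>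
    hr.2 e (mem_sdiff.1 he).1 f (mem_sdiff.1 hf).1 hef
      (iff_of_false (mem_sdiff.1 he).2 (mem_sdiff.1 hf).2)
  obtain ⟨I, hI, h1, h2⟩ := side_bound d1 (by rw [hE]; exact s1)
  obtain ⟨J, hJ, h3, h4⟩ := side_bound d2 (by rw [hE']; exact s2)
  obtain ⟨K, hK, h5, h6⟩ := hl I hI J hJ h1 h3
  have h7 := (av_empty_iff.1 h5 K Subset.rfl).trans (card_le_card (Vx_mono hK))
  have h8 := card_union_add_card_inter (Vx G (E ∩ U)) (Vx G (E \ U))
  rw [← Vx_union, hE] at h8
  have h9 := card_good_inter hdis d1 (by rw [hE]; exact s2)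
  have h10 := card_union_add_card_inter (Good G (E ∩ U)) (Good G (E \ U))
  have h11 := card_le_card (union_subset (Good_subset d1)
    ((Good_subset d2).trans (inter_comm _ _).subset))
  rw [inter_comm (Vx G (E \ U))] at h4
  omega

end Pool.Agent.Lib.MP_cce914_co
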