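import Pool.Agent.Lib.MP_cce914_co.Comb

set_option autoImplicit false

namespace Pool.Agent.Lib.MP_cce914_co

open Finset

variable {ι : Type} [DecidableEq ι] {G : ι → ℕ × ℕ}

omit [DecidableEq ι] in
theorem Joined.symm {A : Finset ι} {u v : ℕ} (h : Joined G A u v) : Joined G A v u := by
  unfold Joined at *
  induction h with
  | refl => exact Relation.ReflTransGen.refl
  | tail _ h ih =>
    obtain ⟨e, he, h⟩ := h
    exact Relation.ReflTransGen.head ⟨e, he, h.symm⟩ ih

omit [DecidableEq ι] in
theorem Joined.mono {A B : Finset ι} (hAB : A ⊆ B) {u v : ℕ} (h : Joined G A u v) :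
    Joined G B u v := by
  unfold Joined at *
  induction h with
  | refl => exact Relation.ReflTransGen.refl
  | tail _ h ih =>
    obtain ⟨e, he, h⟩ := h
    exact Relation.ReflTransGen.tail ih ⟨e, hAB he, h⟩

omit [DecidableEq ι] in
theorem joined_of_inc {A : Finset ι} {e : ι} (he : e ∈ A) {u v : ℕ} (hu : Inc G e u)
    (hv : Inc G e v) : Joined G A u v := by
  rcases hu with rfl | rfl <;> rcases hv with rfl | rfl
  · exact Relation.ReflTransGen.refl
  · exact Relation.ReflTransGen.single ⟨e, he, Or.inl rfl⟩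
  · exact Relation.ReflTransGen.single ⟨e, he, Or.inr rfl⟩
  · exact Relation.ReflTransGen.refl

omit [DecidableEq ι] in
/-- A set closed under adjacency in `A` spans everything joined to it. -/
theorem mem_Vx_of_joined {A B : Finset ι} (hcl : ∀ g ∈ A, ∀ v ∈ Vx G B, Inc G g v → g ∈ B)
    {u v : ℕ} (hu : u ∈ Vx G B) (h : Joined G A u v) : v ∈ Vx G B := by
  unfold Joined at h
  induction h with
  | refl => exact hu
  | tail _ h ih =>
    obtain ⟨e, he, h | h⟩ := h
    · exact mem_Vx.2 ⟨e, hcl e he _ ih (Or.inl (by rw [h])), Or.inr (by rw [h])⟩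
    · exact mem_Vx.2 ⟨e, hcl e he _ ih (Or.inr (by rw [h])), Or.inl (by rw [h])⟩

/-- A set either splits into two vertex-disjoint parts or is connected. -/
theorem split_or_joined (B : Finset ι) :
    (∃ C ⊆ B, C.Nonempty ∧ C ≠ B ∧ Disjoint (Vx G C) (Vx G (B \ C))) ∨
      ∀ e ∈ B, ∀ f ∈ B, Joined G B (G e).1 (G f).1 := by
  classical
  by_cases h : ∀ e ∈ B, ∀ f ∈ B, Joined G B (G e).1 (G f).1
  · exact Or.inr h
  left
  push Not at h
  obtain ⟨e, he, f, hf, hef⟩ := h
  refine ⟨B.filter fun g => Joined G B (G e).1 (G g).1, filter_subset _ _,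
    ⟨e, mem_filter.2 ⟨he, Relation.ReflTransGen.refl⟩⟩, fun h => ?_, ?_⟩
  · rw [← h] at hf; exact hef (mem_filter.1 hf).2
  · rw [disjoint_left]
    intro v hv hv'
    obtain ⟨g, hg, hgv⟩ := mem_Vx.1 hv
    obtain ⟨g', hg', hgv'⟩ := mem_Vx.1 hv'
    rw [mem_sdiff] at hg'
    rw [mem_filter] at hg
    refine hg'.2 (mem_filter.2 ⟨hg'.1, ?_⟩)
    exact (hg.2.trans (joined_of_inc hg.1 (Or.inl rfl) hgv)).trans
      (joined_of_inc hg'.1 hgv' (Or.inl rfl))

theorem card_Vx_split {B C : Finset ι} (hCB : C ⊆ B) (h : Disjoint (Vx G C) (Vx G (B \ C))) :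
    (Vx G B).card = (Vx G C).card + (Vx G (B \ C)).card := by
  rw [← card_union_of_disjoint h, ← Vx_union, union_sdiff_of_subset hCB]

omit [DecidableEq ι] in
theorem Vx_nonempty {B : Finset ι} (h : B.Nonempty) : 0 < (Vx G B).card :=
  let ⟨_, he⟩ := h
  card_pos.2 ⟨_, fst_mem_Vx he⟩

theorem exists_cycle {B : Finset ι} (hne : B.Nonempty) (h : (Vx G B).card ≤ B.card) :
    ∃ C ⊆ B, IsCycle G C := by
  classical
  obtain ⟨C, hC, hmin⟩ := exists_min_image
    (B.powerset.filter fun C => C.Nonempty ∧ (Vx G C).card ≤ C.card) card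
    ⟨B, by simp [hne, h]⟩
  simp only [mem_filter, mem_powerset] at hC hmin
  have hlt : ∀ D ⊆ C, D ≠ C → D.Nonempty → D.card < (Vx G D).card := by
    intro D hD hne' hDne
    by_contra hh
    have := hmin D ⟨hD.trans hC.1, hDne, by omega⟩
    have := card_lt_card (hD.ssubset_of_ne hne')
    omega
  have her : ∀ e ∈ C, C.card ≤ 1 ∨ C.card - 1 < (Vx G (C.erase e)).card := by
    intro e he
    by_cases h1 : (C.erase e).Nonempty
    · right
      rw [← card_erase_of_mem he]
      exact hlt _ (erase_subset _ _) (fun h => by rw [← h] at he; simp at he) h1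
    · left
      rw [not_nonempty_iff_eq_empty, ← card_eq_zero, card_erase_of_mem he] at h1
      omega
  have hpos := Vx_nonempty (G := G) hC.2.1
  have h1 : C.card ≤ (Vx G C).card := by
    obtain ⟨e, he⟩ := hC.2.1
    have := card_le_card (Vx_mono (G := G) (erase_subset e C))
    rcases her e he with h | h <;> omega
  have h2 : ∀ v ∈ Vx G C, 2 ≤ degree G C v := by
    intro v hv
    by_contra hh
    obtain ⟨e, he, hev⟩ := mem_Vx.1 hv
    have hsub : Vx G (C.erase e) ⊆ (Vx G C).erase v := by
      intro w hw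
      refine mem_erase.2 ⟨?_, Vx_mono (erase_subset _ _) hw⟩
      rintro rfl
      obtain ⟨g, hg, hgw⟩ := mem_Vx.1 hw
      exact (mem_erase.1 hg).1 (eq_of_degree_le_one (by omega) he (mem_erase.1 hg).2 hev hgw)
    have h3 := card_le_card hsub
    rw [card_erase_of_mem hv] at h3
    rcases her e he with h4 | h4
    · have h5 : (Vx G C).card = 1 := by omega
      obtain ⟨w, hw⟩ := card_eq_one.1 h5
      have h6 := sum_degree (G := G) C
      rw [hw] at hv h6
      rw [mem_singleton] at hv
      subst hv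
      rw [sum_singleton] at h6
      have := card_pos.2 hC.2.1
      omega
    · omega
  have h3 : ∀ v ∈ Vx G C, 2 = degree G C v := by
    refine (sum_eq_sum_iff_of_le h2).1 ?_
    rw [sum_degree, sum_const, smul_eq_mul]
    omega
  refine ⟨C, hC.1, hC.2.1, fun v => ?_, ?_⟩
  · by_cases hv : v ∈ Vx G C
    · exact Or.inr (h3 v hv).symm
    · left
      rw [← degree_pos] at hv
      omega
  · rcases split_or_joined (G := G) C with ⟨D, hD, hDne, hDC, hdis⟩ | h
    · exfalso
      have h4 := hlt D hD hDC hDne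
      have h5 := hlt (C \ D) sdiff_subset (sdiff_ssubset hD hDne).ne
        (sdiff_nonempty.2 fun h => hDC (Subset.antisymm hD h))
      have h6 := card_Vx_split hD hdis
      have h7 := card_sdiff_add_card_eq_card hD
      omega
    · exact h

theorem av_of_indep {A : Finset ι} (h : Indep G A) : Av G ∅ A := by
  rw [av_empty_iff]
  intro B
  induction B using Finset.strongInduction with
  | H B ih =>
    intro hB
    by_contra hlt
    rw [not_le] at hlt
    have hne : B.Nonempty := card_pos.1 (by omega)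
    rcases split_or_joined (G := G) B with ⟨D, hD, hDne, hDC, hdis⟩ | hj
    · have h4 := ih D (hD.ssubset_of_ne hDC) (hD.trans hB)
      have h5 := ih (B \ D) (sdiff_ssubset hD hDne) (sdiff_subset.trans hB)
      have h6 := card_Vx_split hD hdis
      have h7 := card_sdiff_add_card_eq_card hD
      omega
    · obtain ⟨C, hCB, hC⟩ := exists_cycle hne hlt.le
      obtain ⟨e, he⟩ := hC.1
      have h1 := card_erase_of_mem (hCB he)
      have h2 := Vx_nonempty (G := G) hne
      have h3 := card_le_card (Vx_mono (G := G) (erase_subset e B))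
      obtain ⟨D, hDB, hD⟩ := exists_cycle (G := G) (B := B.erase e) (card_pos.1 (by omega))
        (by omega)
      obtain ⟨f, hf⟩ := hD.1
      have hDB' : D ⊆ B := hDB.trans (erase_subset _ _)
      have := h C (hCB.trans hB) D (hDB'.trans hB) hC hD e he f hf
        ((hj e (hCB he) f (hDB' hf)).mono hB)
      rw [this] at he
      simpa using hDB he

omit [DecidableEq ι] in
theorem IsCycle.tight {C : Finset ι} (h : IsCycle G C) : C.card = (Vx G C).card := by
  have h1 := sum_degree (G := G) C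
  rw [sum_congr rfl (g := fun _ => 2) (fun v hv => by
    have := degree_pos.2 hv
    rcases h.2.1 v with h | h <;> omega), sum_const, smul_eq_mul] at h1
  omega

theorem IsCycle.minimal {C : Finset ι} (h : IsCycle G C) {B : Finset ι} (hB : B ⊆ C)
    (hne : B.Nonempty) (ht : (Vx G B).card ≤ B.card) : C ⊆ B := by
  have h1 : ∀ v, degree G C v ≤ 2 := fun v => by rcases h.2.1 v with h | h <;> omega
  have h2 : ∀ v ∈ Vx G B, degree G B v = 2 := by
    refine (sum_eq_sum_iff_of_le (fun v _ => (degree_mono hB v).trans (h1 v))).1 ?_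
    have h3 : ∑ v ∈ Vx G B, degree G B v ≤ ∑ v ∈ Vx G B, 2 :=
      sum_le_sum (fun v _ => (degree_mono hB v).trans (h1 v))
    rw [sum_degree, sum_const, smul_eq_mul] at h3 ⊢
    omega
  have hcl : ∀ g ∈ C, ∀ v ∈ Vx G B, Inc G g v → g ∈ B := by
    intro g hg v hv hgv
    by_contra hn
    have h3 := degree_insert hn hgv
    have h4 := degree_mono (G := G) (insert_subset hg hB) v
    have := h1 v
    have := h2 v hv
    omega
  obtain ⟨e, he⟩ := hne
  intro g hg
  exact hcl g hg _ (mem_Vx_of_joined hcl (fst_mem_Vx he) (h.2.2 e (hB he) g hg)) (Or.inl rfl)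

theorem cycle_subset {A C D : Finset ι} (h : Av G ∅ A) (hCA : C ⊆ A) (hDA : D ⊆ A)
    (hC : IsCycle G C) (hD : IsCycle G D) {e f : ι} (he : e ∈ C) (hf : f ∈ D)
    (hj : Joined G A (G e).1 (G f).1) : C ⊆ D := by
  classical
  rw [av_empty_iff] at h
  obtain ⟨B, hB, hmax⟩ := exists_max_image
    (A.powerset.filter fun B => C ⊆ B ∧ B.card = (Vx G B).card ∧
      ∀ B' ⊆ B, B'.Nonempty → (Vx G B').card ≤ B'.card → C ⊆ B') card
    ⟨C, by
      simp only [mem_filter, mem_powerset]
      exact ⟨hCA, Subset.rfl, hC.tight, fun B' h1 h2 h3 => hC.minimal h1 h2 h3⟩⟩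
  simp only [mem_filter, mem_powerset] at hB hmax
  obtain ⟨hBA, hCB, hBt, hBm⟩ := hB
  have hcl : ∀ g ∈ A, ∀ v ∈ Vx G B, Inc G g v → g ∈ B := by
    intro g hg v hv hgv
    by_contra hn
    have h1 := card_Vx_insert_le hgv hv
    have h2 := h _ (insert_subset hg hBA)
    have h3 := card_insert_of_notMem hn
    obtain ⟨w, hw, hw'⟩ := exists_mem_notMem_of_card_lt_card
      (s := Vx G B) (t := Vx G (insert g B)) (by omega)
    have hgw : Inc G g w := by
      obtain ⟨g', hg', h'⟩ := mem_Vx.1 hw
      rcases mem_insert.1 hg' with rfl | hg'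
      · exact h'
      · exact absurd (mem_Vx.2 ⟨g', hg', h'⟩) hw'
    have h4 := hmax (insert g B) ⟨insert_subset hg hBA, hCB.trans (subset_insert _ _),
      by omega, fun B' hB' hne ht => ?_⟩
    · omega
    by_cases hgB : g ∈ B'
    · have h5 : B'.erase g ⊆ B := by
        intro x hx
        rcases mem_insert.1 (hB' (mem_erase.1 hx).2) with h | h
        · exact absurd h (mem_erase.1 hx).1
        · exact h
      have h6 : Vx G (B'.erase g) ⊆ (Vx G B').erase w := by
        intro x hx
        refine mem_erase.2 ⟨?_, Vx_mono (erase_subset _ _) hx⟩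
        rintro rfl
        exact hw' (Vx_mono h5 hx)
      have hwB : w ∈ Vx G B' := mem_Vx.2 ⟨g, hgB, hgw⟩
      have h7 := card_le_card h6
      rw [card_erase_of_mem hwB] at h7
      have h8 := card_erase_of_mem hgB
      have h9 : 1 < (Vx G B').card :=
        one_lt_card.2 ⟨v, mem_Vx.2 ⟨g, hgB, hgv⟩, w, hwB, fun h => hw' (h ▸ hv)⟩
      exact (hBm _ h5 (card_pos.1 (by omega)) (by omega)).trans (erase_subset _ _)
    · refine hBm B' (fun x hx => ?_) hne ht
      rcases mem_insert.1 (hB' hx) with h | h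
      · exact absurd (h ▸ hx) hgB
      · exact h
  have hfB := mem_Vx_of_joined hcl (fst_mem_Vx (hCB he)) hj
  refine hBm D (fun g hg => ?_) hD.1 hD.tight.ge
  exact hcl g (hDA hg) _ (mem_Vx_of_joined hcl hfB ((hD.2.2 f hf g hg).mono hDA)) (Or.inl rfl)

theorem indep_iff_av {A : Finset ι} : Indep G A ↔ Av G ∅ A :=
  ⟨av_of_indep, fun h _ hCA _ hDA hC hD _ he _ hf hj =>
    Subset.antisymm (cycle_subset h hCA hDA hC hD he hf hj)
      (cycle_subset h hDA hCA hD hC hf he hj.symm)⟩

end Pool.Agent.Lib.MP_cce914_co
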