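import Mathlib

set_option autoImplicit false

/-! A graph with edge set `ι` is given by `G : ι → ℕ × ℕ`, the two ends of each edge; loops and
parallel edges are allowed. -/

namespace Pool.Agent.Lib.MP_cce914_co

section
variable {ι : Type} (G : ι → ℕ × ℕ)

/-- Degree of the vertex `v` in the edge set `A`; a loop counts twice. -/
def degree (A : Finset ι) (v : ℕ) : ℕ :=
  (A.filter fun e => (G e).1 = v).card + (A.filter fun e => (G e).2 = v).card

/-- The vertices `u` and `v` are joined by a walk using edges of `A`. -/
def Joined (A : Finset ι) (u v : ℕ) : Prop :=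
  Relation.ReflTransGen (fun x y => ∃ e ∈ A, G e = (x, y) ∨ G e = (y, x)) u v

/-- `C` is the edge set of a cycle: nonempty, connected and two-regular. -/
def IsCycle (C : Finset ι) : Prop :=
  C.Nonempty ∧ (∀ v, degree G C v = 0 ∨ degree G C v = 2) ∧
    ∀ e ∈ C, ∀ f ∈ C, Joined G C (G e).1 (G f).1

/-- Independence in the bicircular matroid: each component of `A` has at most one cycle. -/
def Indep (A : Finset ι) : Prop :=
  ∀ C ⊆ A, ∀ D ⊆ A, IsCycle G C → IsCycle G D →
    ∀ e ∈ C, ∀ f ∈ D, Joined G A (G e).1 (G f).1 → C = D

/-- Rank function of the bicircular matroid. -/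
noncomputable def rank (A : Finset ι) : ℕ :=
  sSup {k | ∃ I ⊆ A, Indep G I ∧ I.card = k}

end

/-- A number below `n` written in unary and padded to length `n`. -/
def block (n u : ℕ) : List Bool := List.replicate u true ++ List.replicate (n - u) false

/-- The code of the graph: the number of edges in unary, then the two ends of each edge. -/
def codeGraph {m : ℕ} (G : Fin m → ℕ × ℕ) : List Bool :=
  List.replicate m true ++ false ::
    (List.ofFn fun e => block (2 * m) (G e).1 ++ block (2 * m) (G e).2).flatten

/-- The characteristic vector of a set of edges. -/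
def codeSet {m : ℕ} (A : Finset (Fin m)) : List Bool := List.ofFn fun e => decide (e ∈ A)

/-- On input `w` the machine `T` halts within `t` steps, with output the single bit `true` if `p`
holds and the single bit `false` otherwise. -/
def Decides (T : Turing.TM2ComputableAux Bool Bool) (w : List Bool) (p : Prop) (t : ℕ) : Prop :=
  ∃ b : Bool, (b = true ↔ p) ∧ Nonempty (Turing.TM2OutputsInTime T.tm
    (w.map T.inputAlphabet.symm) (some [T.outputAlphabet.symm b]) t)

end Pool.Agent.Lib.MP_cce914_co
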