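import Pool.Agent.Lib.MP_cce914_co.Correct
import Pool.Agent.Lib.MP_cce914_co.Cycle

set_option autoImplicit false

namespace Pool.Agent.Lib.MP_cce914_co

open Finset Pool.Agent.Lib.helper80 Polynomial

variable {m : ℕ}

def toL (A : Finset (Fin m)) : List ℕ := (List.range m).filter fun e => (codeSet A).getD e false

def lift (A : Finset (Fin m)) : Finset ℕ := A.map Fin.valEmbedding

theorem toL_nodup (A : Finset (Fin m)) : (toL A).Nodup := List.nodup_range.filter _

theorem mem_lift {A : Finset (Fin m)} {x : ℕ} : x ∈ lift A ↔ ∃ e ∈ A, e.val = x := by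
  simp [lift]

theorem toL_toFinset (A : Finset (Fin m)) : (toL A).toFinset = lift A := by
  ext x
  simp only [toL, codeSet, List.mem_toFinset, List.mem_filter, List.mem_range, mem_lift]
  constructor
  · rintro ⟨hx, h⟩
    rw [List.getD_eq_getElem _ _ (by simpa using hx)] at h
    exact ⟨⟨x, hx⟩, by simpa using h, rfl⟩
  · rintro ⟨e, he, rfl⟩
    refine ⟨e.2, ?_⟩
    rw [List.getD_eq_getElem _ _ (by simp)]
    simpa using he

theorem range_toFinset : (List.range m).toFinset = lift (univ : Finset (Fin m)) := by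
  ext x
  simp only [List.mem_toFinset, List.mem_range, mem_lift, mem_univ, true_and]
  exact ⟨fun h => ⟨⟨x, h⟩, rfl⟩, fun ⟨e, h⟩ => h ▸ e.2⟩

theorem lift_mono {A B : Finset (Fin m)} (h : A ⊆ B) : lift A ⊆ lift B := map_subset_map.2 h

theorem lift_union (A B : Finset (Fin m)) : lift (A ∪ B) = lift A ∪ lift B := map_union _ _

theorem lift_inter (U : Finset (Fin m)) :
    lift (univ : Finset (Fin m)) ∩ lift U = lift U :=
  inter_eq_right.2 (lift_mono (subset_univ _))

theorem lift_sdiff (U : Finset (Fin m)) :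
    lift (univ : Finset (Fin m)) \ lift U = lift Uᶜ := by
  ext x
  simp only [mem_sdiff, mem_lift, mem_univ, true_and, mem_compl]
  constructor
  · rintro ⟨⟨e, rfl⟩, h⟩
    exact ⟨e, fun he => h ⟨e, he, rfl⟩, rfl⟩
  · rintro ⟨e, he, rfl⟩
    exact ⟨⟨e, rfl⟩, fun ⟨f, hf, h⟩ => he (Fin.ext h ▸ hf)⟩

theorem av_lift {G : Fin m → ℕ × ℕ} {H : ℕ → ℕ × ℕ} (h : ∀ e : Fin m, H e = G e)
    {A : Finset (Fin m)} : Av H ∅ (lift A) ↔ Indep G A := by
  have key : ∀ B : Finset (Fin m), Vx H (lift B) = Vx G B := by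
    intro B
    ext v
    simp only [mem_Vx, mem_lift, Inc]
    constructor
    · rintro ⟨_, ⟨e, he, rfl⟩, h'⟩
      exact ⟨e, he, by rwa [h] at h'⟩
    · rintro ⟨e, he, h'⟩
      exact ⟨e, ⟨e, he, rfl⟩, by rwa [h]⟩
  rw [indep_iff_av, av_empty_iff, av_empty_iff]
  constructor
  · intro h1 B hB
    have := h1 _ (lift_mono hB)
    rwa [key, lift, card_map] at this
  · intro h1 B hB
    obtain ⟨C, hC, rfl⟩ := subset_map_iff.1 hB
    have := key C
    unfold lift at this
    rw [this, card_map]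
    exact h1 C hC

theorem le_rank {ι : Type} {G : ι → ℕ × ℕ} {A I : Finset ι} (hI : I ⊆ A) (h : Indep G I) :
    I.card ≤ rank G A :=
  le_csSup ⟨A.card, fun _ ⟨_, hJ, _, hk⟩ => hk ▸ card_le_card hJ⟩ ⟨I, hI, h, rfl⟩

theorem exists_rank {ι : Type} (G : ι → ℕ × ℕ) (A : Finset ι) :
    ∃ I ⊆ A, Indep G I ∧ I.card = rank G A :=
  Nat.sSup_mem (s := {k | ∃ I ⊆ A, Indep G I ∧ I.card = k})
    ⟨0, ∅, empty_subset _, fun C hC _ _ h => absurd h.1 (by simp [subset_empty.1 hC]), rfl⟩
    ⟨A.card, fun _ ⟨_, hJ, _, hk⟩ => hk ▸ card_le_card hJ⟩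

theorem lam_lift {G : Fin m → ℕ × ℕ} {H : ℕ → ℕ × ℕ} (h : ∀ e : Fin m, H e = G e)
    {U : Finset (Fin m)} {l : ℕ} (hl : rank G U + rank G Uᶜ ≤ rank G univ + l) :
    Lam H (lift (univ : Finset (Fin m))) (lift U) l := by
  intro I hI J hJ h1 h2
  rw [lift_inter] at hI
  rw [lift_sdiff] at hJ
  obtain ⟨I, hI', rfl⟩ := subset_map_iff.1 hI
  obtain ⟨J, hJ', rfl⟩ := subset_map_iff.1 hJ
  obtain ⟨K, -, h3, h4⟩ := exists_rank G univ
  have h5 := le_rank hI' ((av_lift h).1 h1)
  have h6 := le_rank hJ' ((av_lift h).1 h2)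
  refine ⟨lift K, lift_mono (subset_univ _), (av_lift h).2 h3, ?_⟩
  simp only [lift, card_map]
  omega

/-! ### Parsing -/

theorem length_block {n u : ℕ} (h : u ≤ n) : (block n u).length = n := by
  simp [block]; omega

theorem lead_block {n u : ℕ} (h : u < n) (r : List Bool) : lead (block n u ++ r) = u := by
  obtain ⟨k, rfl⟩ := Nat.exists_eq_add_of_lt h
  have : u + k + 1 - u = k + 1 := by omega
  rw [block, this, List.replicate_succ, List.append_assoc, List.cons_append, lead_replicate]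

theorem drop_flatten {k : ℕ} : ∀ (L : List (List Bool)) (r : List Bool) (i : ℕ)
    (hi : i < L.length), (∀ x ∈ L, x.length = k) →
      ∃ r', (L.flatten ++ r).drop (i * k) = L[i] ++ r'
  | x :: L, r, 0, _, _ => ⟨L.flatten ++ r, by simp⟩
  | x :: L, r, i + 1, hi, h => by
    obtain ⟨r', hr⟩ := drop_flatten L r i (by simpa using hi) fun y hy => h y (by simp [hy])
    refine ⟨r', ?_⟩
    have h1 : (i + 1) * k = x.length + i * k := by rw [h x (by simp)]; ring
    rw [List.flatten_cons, List.append_assoc, h1, List.drop_length_add_append, hr]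
    simp

theorem length_flatten_const {k : ℕ} : ∀ L : List (List Bool), (∀ x ∈ L, x.length = k) →
    L.flatten.length = L.length * k
  | [], _ => by simp
  | x :: L, h => by
    rw [List.flatten_cons, List.length_append, h x (by simp),
      length_flatten_const L fun y hy => h y (by simp [hy]), List.length_cons]
    ring

variable {G : Fin m → ℕ × ℕ}

theorem blocks_length (hG : ∀ e, (G e).1 < 2 * m ∧ (G e).2 < 2 * m) :
    ∀ x ∈ (List.ofFn fun e => block (2 * m) (G e).1 ++ block (2 * m) (G e).2),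
      x.length = 2 * m + 2 * m := by
  intro x hx
  obtain ⟨e, rfl⟩ := List.mem_ofFn.1 hx
  rw [List.length_append, length_block (hG e).1.le, length_block (hG e).2.le]

theorem length_codeGraph (hG : ∀ e, (G e).1 < 2 * m ∧ (G e).2 < 2 * m) :
    (codeGraph G).length = m + 1 + m * (2 * m + 2 * m) := by
  rw [codeGraph, List.length_append, List.length_cons, length_flatten_const _ (blocks_length hG)]
  simp; ring

theorem lead_code (G : Fin m → ℕ × ℕ) (r : List Bool) : lead (codeGraph G ++ r) = m := by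
  rw [codeGraph, List.append_assoc, List.cons_append, lead_replicate]

theorem length_parseG (G : Fin m → ℕ × ℕ) (r : List Bool) :
    (parseG (codeGraph G ++ r)).length = m := by
  simp [parseG, lead_code]

theorem gr_parseG (hG : ∀ e, (G e).1 < 2 * m ∧ (G e).2 < 2 * m) (r : List Bool) (e : Fin m) :
    gr (parseG (codeGraph G ++ r)) e = G e := by
  obtain ⟨r', hr⟩ := drop_flatten _ r e (by simp) (blocks_length hG)
  have h1 : (codeGraph G ++ r).drop (m + 1 + e * (2 * m + 2 * m)) =
      block (2 * m) (G e).1 ++ (block (2 * m) (G e).2 ++ r') := by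
    have h2 : codeGraph G ++ r = (List.replicate m true ++ [false]) ++
        ((List.ofFn fun e => block (2 * m) (G e).1 ++ block (2 * m) (G e).2).flatten ++ r) := by
      simp [codeGraph]
    have h3 : m + 1 = (List.replicate m true ++ [false]).length := by simp
    rw [h2, h3, List.drop_length_add_append, hr]
    simp
  have h2 : (codeGraph G ++ r).drop (m + 1 + e * (2 * m + 2 * m) + 2 * m) =
      block (2 * m) (G e).2 ++ r' := by
    rw [← List.drop_drop, h1, List.drop_left' (length_block (hG e).1.le)]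
  unfold gr
  rw [List.getD_eq_getElem _ _ (by rw [length_parseG]; exact e.2)]
  simp only [parseG, lead_code, List.getElem_map, List.getElem_range]
  rw [h1, h2, lead_block (hG e).1, lead_block (hG e).2]

theorem parseG_indep (hG : ∀ e, (G e).1 < 2 * m ∧ (G e).2 < 2 * m) (r : List Bool) :
    parseG (codeGraph G ++ r) = parseG (codeGraph G ++ []) := by
  refine List.ext_getElem (by rw [length_parseG, length_parseG]) fun i h1 h2 => ?_
  have h3 := gr_parseG hG r ⟨i, by rwa [length_parseG] at h1⟩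
  have h4 := gr_parseG hG [] ⟨i, by rwa [length_parseG] at h1⟩
  unfold gr at h3 h4
  rw [List.getD_eq_getElem _ _ h1] at h3
  rw [List.getD_eq_getElem _ _ h2] at h4
  exact h3.trans h4.symm

theorem parseA_code (hG : ∀ e, (G e).1 < 2 * m ∧ (G e).2 < 2 * m) {k : ℕ} (r r' : List Bool)
    (hr : r.length = k * m) (A : Finset (Fin m)) :
    parseA (codeGraph G ++ (r ++ (codeSet A ++ r'))) k = toL A := by
  unfold parseA toL
  rw [lead_code]
  refine List.filter_congr fun e he => ?_
  have he' : e < (codeSet A).length := by simpa [codeSet] using he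
  rw [← List.append_assoc, List.getD_append_right _ _ _ _ (by
    rw [List.length_append, length_codeGraph hG, hr]; omega), List.length_append,
    length_codeGraph hG, hr, Nat.add_sub_cancel_left, List.getD_append _ _ _ _ he']

theorem length_codeSet (A : Finset (Fin m)) : (codeSet A).length = m := by simp [codeSet]

theorem indM_code (hG : ∀ e, (G e).1 < 2 * m ∧ (G e).2 < 2 * m) (X : Finset (Fin m)) :
    ∃ b : Bool, (b = true ↔ Indep G X) ∧ indM (codeGraph G ++ codeSet X) = [b] := by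
  refine ⟨_, ?_, rfl⟩
  have := parseA_code hG (k := 0) [] [] (by simp) X
  rw [List.nil_append, List.append_nil] at this
  rw [this, avL_iff (toL_nodup _), toL_toFinset, List.toFinset_nil, av_lift (gr_parseG hG _)]

theorem relM_code (l : ℕ) (hG : ∀ e, (G e).1 < 2 * m ∧ (G e).2 < 2 * m) (U : Finset (Fin m))
    (hl : rank G U + rank G Uᶜ ≤ rank G univ + l) :
    ∃ f : Finset (Fin m) → Fin (2 * 2 ^ ((12 * l) * (12 * l))),
      (∀ X ⊆ U, ∀ X' ⊆ U, f X = f X' → ∀ Z ⊆ Uᶜ, (Indep G (X ∪ Z) ↔ Indep G (X' ∪ Z))) ∧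
      ∀ X X' : Finset (Fin m), ∃ b : Bool, (b = true ↔ f X = f X') ∧
        relM (codeGraph G ++ codeSet U ++ codeSet X ++ codeSet X') = [b] := by
  have hg := gr_parseG hG []
  obtain ⟨f, h1, h2⟩ := main_list l (parseG (codeGraph G ++ [])) (List.range m) (toL U)
    (fun e he => by rw [length_parseG]; exact List.mem_range.1 he)
    (by rw [range_toFinset, toL_toFinset]; exact lam_lift hg hl)
  simp only [range_toFinset, toL_toFinset, lift_inter, lift_sdiff] at h1
  have h3 : ∀ X ⊆ U, ∀ X' ⊆ U, f (toL X) = f (toL X') → ∀ Z ⊆ Uᶜ,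
      Indep G (X ∪ Z) → Indep G (X' ∪ Z) := by
    intro X hX X' hX' hf Z hZ
    have := h1 (toL X) (toL X') (toL Z) (by rw [toL_toFinset]; exact lift_mono hX)
      (by rw [toL_toFinset]; exact lift_mono hX') (by rw [toL_toFinset]; exact lift_mono hZ) hf
    simp only [toL_toFinset, ← lift_union, av_lift hg] at this
    exact this
  refine ⟨fun X => f (toL X), fun X hX X' hX' hf Z hZ =>
    ⟨h3 X hX X' hX' hf Z hZ, h3 X' hX' X hX hf.symm Z hZ⟩, fun X X' => ⟨_, ?_, rfl⟩⟩
  have a0 := parseA_code hG (k := 0) [] (codeSet X ++ codeSet X') (by simp) U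
  have a1 := parseA_code hG (k := 1) (codeSet U) (codeSet X') (by simp [length_codeSet]) X
  have a2 := parseA_code hG (k := 2) (codeSet U ++ codeSet X) []
    (by simp [length_codeSet]; ring) X'
  simp only [List.nil_append, List.append_nil, List.append_assoc] at a0 a1 a2 ⊢
  rw [a0, a1, a2, lead_code, parseG_indep hG]
  exact h2 _ _ (toL_nodup _) (toL_nodup _)

/-! ### Machines -/

theorem poly_bound (p : ℕ[X]) : ∃ c C : ℕ, ∀ n, p.eval n ≤ C * (n + 1) ^ c := by
  refine ⟨p.natDegree, ∑ i ∈ range (p.natDegree + 1), p.coeff i, fun n => ?_⟩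
  rw [eval_eq_sum_range, sum_mul]
  refine sum_le_sum fun i hi => Nat.mul_le_mul_left _ ?_
  exact (Nat.pow_le_pow_left (Nat.le_succ n) i).trans
    (Nat.pow_le_pow_right (Nat.succ_pos n) (by simpa [Nat.lt_succ_iff] using hi))

theorem exists_machine {F : List Bool → List Bool} (hF : PT F) :
    ∃ (T : Turing.TM2ComputableAux Bool Bool) (p : ℕ[X]), ∀ (w : List Bool) (q : Prop) (t : ℕ),
      (∃ b : Bool, (b = true ↔ q) ∧ F w = [b]) → p.eval w.length ≤ t → Decides T w q t := by
  obtain ⟨M⟩ := PT.toTM2 hF id id F fun _ => rfl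
  refine ⟨M.toTM2ComputableAux, M.time, fun w q t ⟨b, hb, hw⟩ ht => ⟨b, hb, ⟨?_⟩⟩⟩
  have h := M.outputsFun w
  simp only [id, hw, List.map_cons, List.map_nil] at h
  exact ⟨h.toEvalsTo, h.steps_le_m.trans ht⟩

theorem main : ∃ c C : ℕ,
    (∃ T₀ : Turing.TM2ComputableAux Bool Bool, ∀ (m : ℕ) (G : Fin m → ℕ × ℕ),
      (∀ e, (G e).1 < 2 * m ∧ (G e).2 < 2 * m) → ∀ X : Finset (Fin m),
        Decides T₀ (codeGraph G ++ codeSet X) (Indep G X) (C * (m + 1) ^ c)) ∧
    ∃ T : Turing.TM2ComputableAux Bool Bool, ∀ l : ℕ, ∃ π : ℕ, ∀ (m : ℕ) (G : Fin m → ℕ × ℕ),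
      (∀ e, (G e).1 < 2 * m ∧ (G e).2 < 2 * m) → ∀ U : Finset (Fin m),
        rank G U + rank G Uᶜ ≤ rank G univ + l →
        ∃ f : Finset (Fin m) → Fin π,
          (∀ X ⊆ U, ∀ X' ⊆ U, f X = f X' → ∀ Z ⊆ Uᶜ, (Indep G (X ∪ Z) ↔ Indep G (X' ∪ Z))) ∧
          ∀ X ⊆ U, ∀ X' ⊆ U, Decides T (codeGraph G ++ codeSet U ++ codeSet X ++ codeSet X')
            (f X = f X') (C * (m + 1) ^ c) := by
  obtain ⟨T₀, p₀, h₀⟩ := exists_machine pt_indM
  obtain ⟨T, p, h⟩ := exists_machine pt_relM
  obtain ⟨c, C, hc⟩ := poly_bound ((p₀ + p).comp (4 * X * X + 4 * X + 1))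
  simp only [eval_comp, eval_add, eval_mul, eval_X, eval_ofNat, eval_one] at hc
  refine ⟨c, C, ⟨T₀, fun m G hG X => h₀ _ _ _ (indM_code hG X) ?_⟩, T, fun l =>
    ⟨2 * 2 ^ ((12 * l) * (12 * l)), fun m G hG U hl => ?_⟩⟩
  · refine le_trans ?_ (hc m)
    refine (eval_mono p₀ ?_).trans (Nat.le_add_right _ _)
    rw [List.length_append, length_codeGraph hG, length_codeSet]
    nlinarith
  · obtain ⟨f, h1, h2⟩ := relM_code l hG U hl
    refine ⟨f, h1, fun X _ X' _ => h _ _ _ (h2 X X') ?_⟩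
    refine le_trans ?_ (hc m)
    refine (eval_mono p ?_).trans (Nat.le_add_left _ _)
    simp only [List.length_append, length_codeGraph hG, length_codeSet]
    nlinarith

end Pool.Agent.Lib.MP_cce914_co
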