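import Pool.Agent.Lib.MP_cce914_co.GSplit
import Pool.Agent.Lib.MP_cce914_co.Main

set_option autoImplicit false

namespace Pool.Agent.Lib.MP_cce914_co

open Pool.Agent.Lib.helper80 Polynomial

/-- ends and number of the gain -/
abbrev Tr := (ℕ × ℕ) × ℕ

/-- order of the group, number of the identity, tables of `a * b` and `a * b⁻¹` -/
structure Tb where
  k : ℕ
  one : ℕ
  tm : List (List ℕ)
  td : List (List ℕ)

def look (t : List (List ℕ)) (i j : ℕ) : ℕ := (t.getD i []).getD j 0

def memP (Q : List (ℕ × ℕ)) (x i : ℕ) : Bool := Q.any fun p => Nat.beq p.1 x && Nat.beq p.2 i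

variable (c : Tb)

def keepG (A : List Tr) (Q : List (ℕ × ℕ)) (p : ℕ × ℕ) : Bool :=
  A.all fun t => (!Nat.beq p.1 t.1.1 || memP Q t.1.2 (look c.tm p.2 t.2)) &&
    (!Nat.beq p.1 t.1.2 || memP Q t.1.1 (look c.td p.2 t.2))

def stepG (s : List Tr × List (ℕ × ℕ)) : List Tr × List (ℕ × ℕ) :=
  (s.1, s.2.filter fun p => keepG c s.1 s.2 p)

def runG (A : List Tr) (Q : List (ℕ × ℕ)) : List (ℕ × ℕ) := ((stepG c)^[Q.length] (A, Q)).2

def vertG (A : List Tr) (u v : ℕ) : List ℕ := u :: v :: A.flatMap fun t => [t.1.1, t.1.2]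

def initG (A : List Tr) (u v : ℕ) : List (ℕ × ℕ) :=
  ((vertG A u v).flatMap fun x => (List.range c.k).map fun i => (x, i)).filter fun p =>
    !(Nat.beq p.1 u && Nat.beq p.2 c.one)

def reachG (A : List Tr) (u v i : ℕ) : Bool := !memP (runG c A (initG c A u v)) v i

def unbG (A : List Tr) (u : ℕ) : Bool :=
  (List.range c.k).any fun i => !Nat.beq i c.one && reachG c A u u i

def spG (A : List Tr) (t : Tr) : Bool :=
  reachG c A t.1.1 t.1.2 t.2 || (unbG c A t.1.1 && unbG c A t.1.2)

def tG (g : Gr) (h : List ℕ) (e : ℕ) : Tr := (gr g e, h.getD e 0)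

def sideL (U : List ℕ) (e : ℕ) : ℕ := bif memL U e then 0 else 1

def tN (g : Gr) (h U : List ℕ) (e : ℕ) : Tr :=
  ((2 * (gr g e).1 + sideL U e, 2 * (gr g e).2 + sideL U e), h.getD e 0)

def mtL (v : ℕ) : Tr := ((2 * v, 2 * v + 1), c.one)

def indG (g : Gr) (h X : List ℕ) : Bool :=
  X.all fun e => !spG c ((X.filter fun f => !Nat.beq f e).map fun f => tG g h f) (tG g h e)

def isT (g : Gr) (h U : List ℕ) (m v : ℕ) : Bool :=
  spG c (((List.range m).map fun e => tN g h U e) ++ (List.range v).map fun w => mtL c w) (mtL c v)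

def tvL (g : Gr) (h U : List ℕ) (m : ℕ) : List ℕ :=
  ((List.range (2 * m)).filter fun v => isT c g h U m v).flatMap fun v => [2 * v, 2 * v + 1]

def bL (g : Gr) (h U : List ℕ) (m : ℕ) (X : List ℕ) : List Tr :=
  (((List.range m).filter fun e => memL X e || !memL U e).map fun e => tN g h U e) ++
    ((List.range (2 * m)).filter fun v => !isT c g h U m v).map fun w => mtL c w

def relG (g : Gr) (h U : List ℕ) (m : ℕ) (X X' : List ℕ) : Bool :=
  sameB (indG c g h X) (indG c g h X') &&
    (tvL c g h U m).all fun s => (tvL c g h U m).all fun t => (List.range c.k).all fun i =>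
      sameB (spG c (bL c g h U m X) ((s, t), i)) (spG c (bL c g h U m X') ((s, t), i))

def parseH (k : ℕ) (w : List Bool) : List ℕ :=
  (List.range (lead w)).map fun e =>
    lead (w.drop (lead w + 1 + lead w * (2 * lead w + 2 * lead w) + e * k))

def indGM (w : List Bool) : List Bool := [indG c (parseG w) (parseH c.k w) (parseA w c.k)]

def relGM (w : List Bool) : List Bool :=
  [relG c (parseG w) (parseH c.k w) (parseA w c.k) (lead w) (parseA w (c.k + 1))
    (parseA w (c.k + 2))]

/-! ### Polynomial time -/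

section
variable {α : Type} [Enc α]

@[fun_prop] theorem pt_look (t : List (List ℕ)) {i j : α → ℕ} (hi : PT i) (hj : PT j) :
    PT fun a => look t (i a) (j a) := by unfold look; fun_prop

@[fun_prop] theorem pt_memP {Q : α → List (ℕ × ℕ)} {i j : α → ℕ} (hQ : PT Q) (hi : PT i)
    (hj : PT j) : PT fun a => memP (Q a) (i a) (j a) := by unfold memP; fun_prop

@[fun_prop] theorem pt_keepG {A : α → List Tr} {Q : α → List (ℕ × ℕ)} {p : α → ℕ × ℕ}
    (hA : PT A) (hQ : PT Q) (hp : PT p) : PT fun a => keepG c (A a) (Q a) (p a) := by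
  unfold keepG; fun_prop

theorem pt_runG0 : PT fun s : List Tr × List (ℕ × ℕ) => runG c s.1 s.2 := by
  have h : PT (stepG c) := by unfold stepG; fun_prop
  have key : ∀ (s : List Tr × List (ℕ × ℕ)) i, sz ((stepG c)^[i] s) ≤ sz s := by
    intro s i
    induction i with
    | zero => simp
    | succ i ih =>
      rw [Function.iterate_succ_apply']
      refine le_trans ?_ ih
      generalize (stepG c)^[i] s = t
      obtain ⟨A, Q⟩ := t
      have := sz_filter_le (fun p => keepG c A Q p) Q
      simp only [stepG, sz_pair]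
      omega
  exact PT.snd (PT.iterate h (n := fun s : List Tr × List (ℕ × ℕ) => s.2.length)
    (by fun_prop) PT.id' X fun a i _ => by simpa using key a i)

@[fun_prop] theorem pt_runG {A : α → List Tr} {Q : α → List (ℕ × ℕ)} (hA : PT A) (hQ : PT Q) :
    PT fun a => runG c (A a) (Q a) :=
  PT.comp (g := fun a => (A a, Q a)) (pt_runG0 c) (by fun_prop)

@[fun_prop] theorem pt_initG {A : α → List Tr} {u v : α → ℕ} (hA : PT A) (hu : PT u)
    (hv : PT v) : PT fun a => initG c (A a) (u a) (v a) := by unfold initG vertG; fun_prop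

@[fun_prop] theorem pt_reachG {A : α → List Tr} {u v i : α → ℕ} (hA : PT A) (hu : PT u)
    (hv : PT v) (hi : PT i) : PT fun a => reachG c (A a) (u a) (v a) (i a) := by
  unfold reachG; fun_prop

@[fun_prop] theorem pt_unbG {A : α → List Tr} {u : α → ℕ} (hA : PT A) (hu : PT u) :
    PT fun a => unbG c (A a) (u a) := by unfold unbG; fun_prop

@[fun_prop] theorem pt_spG {A : α → List Tr} {t : α → Tr} (hA : PT A) (ht : PT t) :
    PT fun a => spG c (A a) (t a) := by unfold spG; fun_prop

@[fun_prop] theorem pt_tG {g : α → Gr} {h : α → List ℕ} {e : α → ℕ} (hg : PT g) (hh : PT h)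
    (he : PT e) : PT fun a => tG (g a) (h a) (e a) := by unfold tG; fun_prop

@[fun_prop] theorem pt_tN {g : α → Gr} {h U : α → List ℕ} {e : α → ℕ} (hg : PT g) (hh : PT h)
    (hU : PT U) (he : PT e) : PT fun a => tN (g a) (h a) (U a) (e a) := by
  unfold tN sideL; fun_prop

@[fun_prop] theorem pt_mtL {e : α → ℕ} (he : PT e) : PT fun a => mtL c (e a) := by
  unfold mtL; fun_prop

@[fun_prop] theorem pt_indG {g : α → Gr} {h Y : α → List ℕ} (hg : PT g) (hh : PT h)
    (hY : PT Y) : PT fun a => indG c (g a) (h a) (Y a) := by unfold indG; fun_prop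

@[fun_prop] theorem pt_isT {g : α → Gr} {h U : α → List ℕ} {m v : α → ℕ} (hg : PT g) (hh : PT h)
    (hU : PT U) (hm : PT m) (hv : PT v) : PT fun a => isT c (g a) (h a) (U a) (m a) (v a) := by
  unfold isT; fun_prop

@[fun_prop] theorem pt_tvL {g : α → Gr} {h U : α → List ℕ} {m : α → ℕ} (hg : PT g) (hh : PT h)
    (hU : PT U) (hm : PT m) : PT fun a => tvL c (g a) (h a) (U a) (m a) := by
  unfold tvL; fun_prop

@[fun_prop] theorem pt_bL {g : α → Gr} {h U Y : α → List ℕ} {m : α → ℕ} (hg : PT g) (hh : PT h)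
    (hU : PT U) (hm : PT m) (hY : PT Y) : PT fun a => bL c (g a) (h a) (U a) (m a) (Y a) := by
  unfold bL; fun_prop

@[fun_prop] theorem pt_relG {g : α → Gr} {h U Y Y' : α → List ℕ} {m : α → ℕ} (hg : PT g)
    (hh : PT h) (hU : PT U) (hm : PT m) (hY : PT Y) (hY' : PT Y') :
    PT fun a => relG c (g a) (h a) (U a) (m a) (Y a) (Y' a) := by
  unfold relG; fun_prop

@[fun_prop] theorem pt_parseH (k : ℕ) {w : α → List Bool} (hw : PT w) :
    PT fun a => parseH k (w a) := by
  unfold parseH; fun_prop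

theorem pt_indGM : PT (indGM c) := by unfold indGM; fun_prop

theorem pt_relGM : PT (relGM c) := by unfold relGM; fun_prop

end

end Pool.Agent.Lib.MP_cce914_co
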