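import Pool.Agent.Lib.MP_cce914_co.GAlg

set_option autoImplicit false

namespace Pool.Agent.Lib.MP_cce914_co

open Finset

variable {H : Type} [Group H] {k : ℕ} (φ : H ≃ Fin k)

def tab (f : H → H → H) : List (List ℕ) :=
  List.ofFn fun i : Fin k => List.ofFn fun j : Fin k => (φ (f (φ.symm i) (φ.symm j)) : ℕ)

def tb : Tb := ⟨k, φ 1, tab φ fun a b => a * b, tab φ fun a b => a * b⁻¹⟩

omit [Group H] in
theorem look_tab (f : H → H → H) (a b : H) : look (tab φ f) (φ a) (φ b) = φ (f a b) := by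
  unfold look tab
  simp [List.getD_eq_getElem?_getD]

theorem memP_iff {Q : List (ℕ × ℕ)} {x i : ℕ} : memP Q x i = true ↔ (x, i) ∈ Q := by
  simp only [memP, List.any_eq_true, Bool.and_eq_true, Nat.beq_eq]
  exact ⟨fun ⟨p, hp, h1, h2⟩ => h1 ▸ h2 ▸ hp, fun h => ⟨_, h, rfl, rfl⟩⟩

section
variable {ι : Type} (G : ι → ℕ × ℕ) (γ : ι → H)

/-- The list `L` lists the edges of `A`. -/
def Rep (A : Finset ι) (L : List Tr) : Prop := ∀ t, t ∈ L ↔ ∃ e ∈ A, t = (G e, (φ (γ e) : ℕ))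

variable {φ G γ} {A : Finset ι} {L : List Tr}

theorem keepG_iff (h : Rep φ G γ A L) {Q : List (ℕ × ℕ)} {x : ℕ} {g : H} :
    keepG (tb φ) L Q (x, φ g) = true ↔ ∀ e ∈ A, (x = (G e).1 → ((G e).2, (φ (g * γ e) : ℕ)) ∈ Q) ∧
      (x = (G e).2 → ((G e).1, (φ (g * (γ e)⁻¹) : ℕ)) ∈ Q) := by
  simp only [keepG, List.all_eq_true, h _, tb, forall_exists_index, and_imp]
  constructor
  · intro h1 e he
    have := h1 _ e he rfl
    simp only [look_tab, Bool.and_eq_true, Bool.or_eq_true, Bool.not_eq_true', beq_false,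
      memP_iff] at this
    exact ⟨fun h => this.1.resolve_left (by simp [h]), fun h => this.2.resolve_left (by simp [h])⟩
  · rintro h1 _ e he rfl
    simp only [look_tab, Bool.and_eq_true, Bool.or_eq_true, Bool.not_eq_true', beq_false,
      memP_iff]
    exact ⟨or_iff_not_imp_left.2 fun h => (h1 e he).1 (not_not.1 h),
      or_iff_not_imp_left.2 fun h => (h1 e he).2 (not_not.1 h)⟩

theorem step_iter (h : Rep φ G γ A L) (u : ℕ) (V : List ℕ)
    (hV : ∀ e ∈ A, (G e).1 ∈ V ∧ (G e).2 ∈ V) (n : ℕ) : ∀ Q : List (ℕ × ℕ), Q.length ≤ n →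
    (∀ x ∈ V, ∀ g, (x, (φ g : ℕ)) ∉ Q → GainWalk G γ A (u, 1) (x, g)) →
    ∃ C : List (ℕ × ℕ), (stepG (tb φ))^[n] (L, Q) = (L, C) ∧ C ⊆ Q ∧
      (∀ x ∈ V, ∀ g, (x, (φ g : ℕ)) ∉ C → GainWalk G γ A (u, 1) (x, g)) ∧
      ∀ p ∈ C, keepG (tb φ) L C p = true := by
  induction n with
  | zero =>
    intro Q hn hQ
    have : Q = [] := List.length_eq_zero_iff.1 (by omega)
    subst this
    exact ⟨[], rfl, List.Subset.refl _, hQ, by simp⟩
  | succ n ih =>
    intro Q hn hQ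
    by_cases h0 : ∀ p ∈ Q, keepG (tb φ) L Q p = true
    · refine ⟨Q, Function.iterate_fixed ?_ _, List.Subset.refl _, hQ, h0⟩
      simp only [stepG]
      rw [List.filter_eq_self.2 h0]
    · have h1 : (Q.filter fun p => keepG (tb φ) L Q p).length < Q.length := by
        rw [List.length_filter_lt_length_iff_exists]
        push Not at h0
        exact h0
      obtain ⟨C, h2, h3, h4⟩ := ih (Q.filter fun p => keepG (tb φ) L Q p) (by omega) (by
        intro x hx g hg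
        by_cases h5 : (x, (φ g : ℕ)) ∈ Q
        · rw [List.mem_filter, not_and, keepG_iff h] at hg
          have h6 := hg h5
          push Not at h6
          obtain ⟨e, he, h6⟩ := h6
          by_cases h7 : x = (G e).1 → ((G e).2, (φ (g * γ e) : ℕ)) ∈ Q
          · obtain ⟨rfl, h8⟩ := h6 h7
            exact (hQ _ (hV e he).1 _ h8).tail ⟨e, he, Or.inl ⟨rfl, by simp⟩⟩
          · push Not at h7
            obtain ⟨rfl, h8⟩ := h7
            exact (hQ _ (hV e he).2 _ h8).tail ⟨e, he, Or.inr ⟨rfl, by simp⟩⟩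
        · exact hQ x hx g h5)
      exact ⟨C, by rw [Function.iterate_succ_apply]; exact h2,
        fun p hp => (List.mem_filter.1 (h3 hp)).1, h4⟩

theorem reachG_iff (h : Rep φ G γ A L) {u v : ℕ} {g : H} :
    reachG (tb φ) L u v (φ g) = true ↔ GainWalk G γ A (u, 1) (v, g) := by
  obtain ⟨C, h1, h2, h3, h4⟩ := step_iter h u (vertG L u v) (fun e he => by
    have := (h _).2 ⟨e, he, rfl⟩
    simp only [vertG, List.mem_cons, List.mem_flatMap]
    exact ⟨Or.inr (Or.inr ⟨_, this, Or.inl rfl⟩), Or.inr (Or.inr ⟨_, this, Or.inr (Or.inl rfl)⟩)⟩)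
    _ (initG (tb φ) L u v) le_rfl (fun x hx a ha => by
      simp only [initG, tb, List.mem_filter, List.mem_flatMap, List.mem_map, List.mem_range,
        not_and, Bool.not_eq_true', Bool.not_eq_false, Bool.and_eq_true, Nat.beq_eq] at ha
      obtain ⟨rfl, h5⟩ := ha ⟨x, hx, _, (φ a).2, rfl⟩
      rw [φ.injective (Fin.ext h5)]
      exact Relation.ReflTransGen.refl)
  unfold reachG runG
  rw [h1, Bool.not_eq_true', ← Bool.not_eq_true, memP_iff]
  refine ⟨h3 v (by simp [vertG]) g, fun hw => ?_⟩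
  have key : ∀ y, GainWalk G γ A (u, 1) y → (y.1, (φ y.2 : ℕ)) ∉ C := by
    intro y hy
    induction hy with
    | refl =>
      intro h5
      have := h2 h5
      simp [initG, tb] at this
    | tail _ h5 ih =>
      intro h6
      obtain ⟨e, he, ⟨h7, h8⟩ | ⟨h7, h8⟩⟩ := h5
      · have := (((keepG_iff h).1 (h4 _ h6)) e he).2 (by rw [h7])
        rw [h7, h8, mul_inv_cancel_right] at this
        exact ih this
      · have := (((keepG_iff h).1 (h4 _ h6)) e he).1 (by rw [h7])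
        rw [h7, h8, inv_mul_cancel_right] at this
        exact ih this
  exact key _ hw

theorem unbG_iff (h : Rep φ G γ A L) {u : ℕ} : unbG (tb φ) L u = true ↔ Unb G γ A u := by
  simp only [unbG, Unb, List.any_eq_true, List.mem_range, Bool.and_eq_true, Bool.not_eq_true',
    beq_false]
  constructor
  · rintro ⟨i, hi, h1, h2⟩
    obtain ⟨a, ha⟩ := φ.surjective ⟨i, hi⟩
    have h3 : i = φ a := by rw [ha]
    subst h3
    exact ⟨a, fun h4 => h1 (by rw [h4]; rfl), (reachG_iff h).1 h2⟩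
  · rintro ⟨a, h1, h2⟩
    exact ⟨φ a, (φ a).2, fun h3 => h1 (φ.injective (Fin.ext h3)), (reachG_iff h).2 h2⟩

theorem spG_iff (h : Rep φ G γ A L) {p : ℕ × ℕ} {g : H} :
    spG (tb φ) L (p, φ g) = true ↔ Sp G γ A p g := by
  obtain ⟨u, v⟩ := p
  simp only [spG, sp_iff, Bool.or_eq_true, Bool.and_eq_true, reachG_iff h, unbG_iff h]

end

variable {φ} {m : ℕ} {G : Fin m → ℕ × ℕ} {γ : Fin m → H} {g : Gr} {h : List ℕ}

theorem mem_toL {A : Finset (Fin m)} {x : ℕ} : x ∈ toL A ↔ ∃ e ∈ A, e.val = x := by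
  rw [← List.mem_toFinset, toL_toFinset, mem_lift]

theorem memL_toL {A : Finset (Fin m)} {e : Fin m} : memL (toL A) e = true ↔ e ∈ A := by
  rw [memL_iff, mem_toL]
  exact ⟨fun ⟨_, h1, h2⟩ => Fin.ext h2 ▸ h1, fun h1 => ⟨e, h1, rfl⟩⟩

theorem indG_iff (hg : ∀ e : Fin m, gr g e = G e) (hh : ∀ e : Fin m, h.getD e 0 = φ (γ e))
    (X : Finset (Fin m)) : indG (tb φ) g h (toL X) = true ↔ Ind G γ X := by
  have h1 : ∀ e : Fin m, tG g h e = (G e, (φ (γ e) : ℕ)) := fun e => by rw [tG, hg, hh]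
  have h2 : ∀ e : Fin m, Rep φ G γ (X.erase e)
      (((toL X).filter fun f => !Nat.beq f e).map fun f => tG g h f) := by
    intro e t
    simp only [List.mem_map, List.mem_filter, mem_toL, Bool.not_eq_true', beq_false, mem_erase]
    constructor
    · rintro ⟨_, ⟨⟨f, hf, rfl⟩, h3⟩, rfl⟩
      exact ⟨f, ⟨fun h4 => h3 (by rw [h4]), hf⟩, h1 f⟩
    · rintro ⟨f, ⟨h3, hf⟩, rfl⟩
      exact ⟨f, ⟨⟨f, hf, rfl⟩, fun h4 => h3 (Fin.ext h4)⟩, h1 f⟩
  refine Iff.trans ?_ (frameCS G γ).ind_iff.symm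
  simp only [indG, List.all_eq_true, mem_toL, forall_exists_index, and_imp,
    forall_apply_eq_imp_iff₂, Bool.not_eq_true', ← Bool.not_eq_true]
  refine forall₂_congr fun e _ => ?_
  rw [h1, spG_iff (h2 e)]
  rfl

variable [DecidableEq H]

theorem rep_NS (hg : ∀ e : Fin m, gr g e = G e) (hh : ∀ e : Fin m, h.getD e 0 = φ (γ e))
    (U : Finset (Fin m)) {A : Finset (Fin m)} {S : Finset ℕ} {a s : List ℕ}
    (ha : ∀ x, x ∈ a ↔ ∃ e ∈ A, e.val = x) (hs : ∀ v, v ∈ s ↔ v ∈ S) :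
    Rep φ (GN G U) (γN γ) (NS H A S)
      ((a.map fun e => tN g h (toL U) e) ++ s.map fun w => mtL (tb φ) w) := by
  have h1 : ∀ e : Fin m, tN g h (toL U) e =
      (GN (H := H) G U (Sum.inl e), (φ (γN γ (Sum.inl e)) : ℕ)) := by
    intro e
    have : sideL (toL U) e = side U e := by
      unfold sideL side
      split_ifs with h2
      · rw [memL_toL.2 h2]; rfl
      · rw [← memL_toL, Bool.not_eq_true] at h2
        rw [h2]; rfl
    rw [tN, hg, hh, this]
    rfl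
  intro t
  simp only [List.mem_append, List.mem_map, ha, hs, Sum.exists, inl_mem_NS, inr_mem_NS]
  refine or_congr ?_ ?_
  · constructor
    · rintro ⟨_, ⟨e, he, rfl⟩, rfl⟩
      exact ⟨e, he, h1 e⟩
    · rintro ⟨e, he, rfl⟩
      exact ⟨_, ⟨e, he, rfl⟩, h1 e⟩
  · constructor
    · rintro ⟨v, hv, rfl⟩
      exact ⟨_, ⟨v, hv, rfl⟩, rfl⟩
    · rintro ⟨_, ⟨v, hv, rfl⟩, rfl⟩
      exact ⟨v, hv, rfl⟩

theorem relG_iff (hg : ∀ e : Fin m, gr g e = G e) (hh : ∀ e : Fin m, h.getD e 0 = φ (γ e))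
    (U X X' : Finset (Fin m)) :
    relG (tb φ) g h (toL U) m (toL X) (toL X') = true ↔ Rel G γ U (2 * m) X X' := by
  have h1 : ∀ v, isT (tb φ) g h (toL U) m v = true ↔
      Sp (GN G U) (γN γ) (NS H univ (range v)) (2 * v, 2 * v + 1) 1 := fun v =>
    spG_iff (rep_NS hg hh U (fun x => by
      simp only [List.mem_range, mem_univ, true_and]
      exact ⟨fun h => ⟨⟨x, h⟩, rfl⟩, fun ⟨e, h⟩ => h ▸ e.2⟩) fun w => by simp)
  have h2 : ∀ s, s ∈ tvL (tb φ) g h (toL U) m ↔ s ∈ TV G γ U (2 * m) := by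
    intro s
    simp only [tvL, TV, List.mem_flatMap, List.mem_filter, List.mem_range, h1, mem_union,
      mem_image, mem_TT, List.mem_cons, List.not_mem_nil, or_false]
    constructor
    · rintro ⟨v, hv, rfl | rfl⟩
      · exact Or.inl ⟨v, hv, rfl⟩
      · exact Or.inr ⟨v, hv, rfl⟩
    · rintro (⟨v, hv, rfl⟩ | ⟨v, hv, rfl⟩)
      · exact ⟨v, hv, Or.inl rfl⟩
      · exact ⟨v, hv, Or.inr rfl⟩
  have h3 : ∀ Y : Finset (Fin m), Rep φ (GN G U) (γN γ) (NS H (Y ∪ Uᶜ) (PP G γ U (2 * m)))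
      (bL (tb φ) g h (toL U) m (toL Y)) := fun Y => rep_NS hg hh U (fun x => by
    simp only [List.mem_filter, List.mem_range, Bool.or_eq_true, Bool.not_eq_true',
      ← Bool.not_eq_true, mem_union, mem_compl]
    constructor
    · rintro ⟨hx, h3⟩
      exact ⟨⟨x, hx⟩, by rwa [← memL_toL, ← memL_toL (A := U)], rfl⟩
    · rintro ⟨e, he, rfl⟩
      exact ⟨e.2, by rwa [memL_toL, memL_toL]⟩) fun v => by
    simp only [List.mem_filter, List.mem_range, Bool.not_eq_true', ← Bool.not_eq_true, h1, mem_PP]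
  simp only [relG, Rel, Bool.and_eq_true, sameB_iff, indG_iff hg hh, List.all_eq_true, h2,
    List.mem_range]
  refine and_congr_right fun _ => forall₂_congr fun s _ => forall₂_congr fun t _ => ?_
  constructor
  · intro h4 a
    rw [← spG_iff (h3 X), ← spG_iff (h3 X')]
    exact h4 _ (φ a).2
  · intro h4 i hi
    obtain ⟨a, ha⟩ := φ.surjective ⟨i, hi⟩
    have h5 : i = φ a := by rw [ha]
    subst h5
    rw [spG_iff (h3 X), spG_iff (h3 X')]
    exact h4 a

end Pool.Agent.Lib.MP_cce914_co
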