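import Pool.Agent.Lib.MP_cce914_co.Def

set_option autoImplicit false

/-! A gain graph with edge set `ι` is given by `G : ι → ℕ × ℕ`, the two ends of each edge, and
`γ : ι → H`, the gain of each edge `e` read in the direction from `(G e).1` to `(G e).2`; in the
opposite direction the gain is the inverse. -/

namespace Pool.Agent.Lib.MP_cce914_co

section
variable {ι H : Type} [Group H] (G : ι → ℕ × ℕ) (γ : ι → H)

/-- Walks along edges of `A`. A state is a pair (current vertex, product of the gains so far);
one step crosses an edge of `A` and multiplies on the right by its gain in that direction. -/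
def GainWalk (A : Finset ι) : ℕ × H → ℕ × H → Prop :=
  Relation.ReflTransGen fun x y => ∃ e ∈ A,
    (G e = (x.1, y.1) ∧ y.2 = x.2 * γ e) ∨ (G e = (y.1, x.1) ∧ y.2 = x.2 * (γ e)⁻¹)

/-- The product of the gains along every closed walk in `C` is the identity. -/
def Balanced (C : Finset ι) : Prop := ∀ v h, GainWalk G γ C (v, 1) (v, h) → h = 1

/-- Independence in the frame matroid: each component of `A` has at most one cycle, and no cycle
in `A` is balanced. -/
def FrameIndep (A : Finset ι) : Prop :=
  Indep G A ∧ ∀ C ⊆ A, IsCycle G C → ¬ Balanced G γ C

/-- Rank function of the frame matroid. -/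
noncomputable def frameRank (A : Finset ι) : ℕ :=
  sSup {k | ∃ I ⊆ A, FrameIndep G γ I ∧ I.card = k}

end

/-- The code of the gains: for each edge the number of its gain in the enumeration `φ`. -/
def codeGain {H : Type} {k m : ℕ} (φ : H ≃ Fin k) (γ : Fin m → H) : List Bool :=
  (List.ofFn fun e => block k (φ (γ e))).flatten

end Pool.Agent.Lib.MP_cce914_co
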