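import Mathlib

set_option autoImplicit false

namespace Pool.Agent.Lib.MP_cce914_co

open Finset

/-- An independence predicate together with a closure predicate. -/
structure CS (ι : Type) [DecidableEq ι] where
  Ind : Finset ι → Prop
  cl : Finset ι → ι → Prop
  ind_empty : Ind ∅
  ind_mono : ∀ {A B}, Ind B → A ⊆ B → Ind A
  cl_mem : ∀ {A e}, e ∈ A → cl A e
  cl_trans : ∀ {A B e}, (∀ f ∈ B, cl A f) → cl B e → cl A e
  key : ∀ {A e}, e ∉ A → (Ind (insert e A) ↔ Ind A ∧ ¬ cl A e)

namespace CS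

variable {ι : Type} [DecidableEq ι] (M : CS ι)

theorem cl_mono {A B : Finset ι} {e : ι} (h : A ⊆ B) (he : M.cl A e) : M.cl B e :=
  M.cl_trans (fun _ hf => M.cl_mem (h hf)) he

theorem ind_insert {A : Finset ι} {e : ι} (h : M.Ind A) (he : ¬ M.cl A e) : M.Ind (insert e A) :=
  (M.key fun h' => he (M.cl_mem h')).2 ⟨h, he⟩

theorem not_cl {I A : Finset ι} {e : ι} (h : M.Ind I) (hA : A ⊆ I) (he : e ∈ I) (he' : e ∉ A) :
    ¬ M.cl A e :=
  ((M.key he').1 (M.ind_mono h (insert_subset he hA))).2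

theorem exchange {B : Finset ι} {e f : ι} (h : M.Ind (insert f B)) (h1 : M.cl (insert f B) e)
    (h2 : ¬ M.cl B e) : M.cl (insert e B) f := by
  by_contra h3
  have h4 := M.ind_insert (M.ind_insert (M.ind_mono h (subset_insert _ _)) h2) h3
  refine M.not_cl h4 (A := insert f B) (insert_subset_insert _ (subset_insert _ _)) (by simp) ?_ h1
  rw [mem_insert, not_or]
  exact ⟨fun h => h3 (M.cl_mem (by simp [h])), fun h => h2 (M.cl_mem h)⟩

theorem exists_step {A : Finset ι} {e : ι} (h2 : ¬ M.cl A e) (D : Finset ι) :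
    M.cl (A ∪ D) e → ∃ C f, insert f C ⊆ A ∪ D ∧ f ∉ A ∧ M.cl (insert f C) e ∧ ¬ M.cl C e := by
  induction D using Finset.induction_on with
  | empty => intro h; exact absurd (by simpa using h) h2
  | insert d D hd ih =>
    intro h
    by_cases h3 : M.cl (A ∪ D) e
    · obtain ⟨C, f, h4, h5⟩ := ih h3
      exact ⟨C, f, h4.trans (union_subset_union Subset.rfl (subset_insert _ _)), h5⟩
    · refine ⟨A ∪ D, d, by rw [union_insert], fun h4 => h3 ?_, by rwa [union_insert] at h, h3⟩
      rwa [union_insert, insert_eq_of_mem (mem_union_left _ h4)] at h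

theorem exists_drop {J A : Finset ι} {x : ι} (hJ : M.Ind J) (hA : A ⊆ J) (h1 : M.cl J x)
    (h2 : ¬ M.cl A x) : ∃ f ∈ J, f ∉ A ∧ ¬ M.cl (J.erase f) x := by
  obtain ⟨C, f, h3, h4, h5, h6⟩ := M.exists_step h2 J (by rwa [union_eq_right.2 hA])
  rw [union_eq_right.2 hA] at h3
  have hf : f ∈ J := h3 (mem_insert_self _ _)
  refine ⟨f, hf, h4, fun h7 => ?_⟩
  have h8 := M.exchange (M.ind_mono hJ h3) h5 h6
  refine M.not_cl hJ (erase_subset f J) hf (by simp) (M.cl_trans (fun g hg => ?_) h8)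
  rcases mem_insert.1 hg with rfl | hg
  · exact h7
  · refine M.cl_mem (mem_erase.2 ⟨?_, h3 (mem_insert_of_mem hg)⟩)
    rintro rfl
    exact h6 (by rwa [insert_eq_of_mem hg] at h5)

theorem cl_inter {J A B : Finset ι} {x : ι} (hJ : M.Ind J) (hA : A ⊆ J) (hB : B ⊆ J)
    (h1 : M.cl A x) (h2 : M.cl B x) : M.cl (A ∩ B) x := by
  by_contra h
  obtain ⟨f, -, h3, h4⟩ := M.exists_drop hJ (inter_subset_left.trans hA) (M.cl_mono hA h1) h
  rw [mem_inter, not_and_or] at h3
  rcases h3 with h3 | h3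
  · exact h4 (M.cl_mono (subset_erase.2 ⟨hA, h3⟩) h1)
  · exact h4 (M.cl_mono (subset_erase.2 ⟨hB, h3⟩) h2)

theorem steinitz {I : Finset ι} (hI : M.Ind I) (n : ℕ) : ∀ J : Finset ι, (I \ J).card = n →
    M.Ind J → (∀ f ∈ J, M.cl I f) → J.card ≤ I.card := by
  induction n with
  | zero =>
    intro J h hJ h1
    rw [card_eq_zero, sdiff_eq_empty_iff_subset] at h
    refine card_le_card fun f hf => ?_
    by_contra h2
    exact M.not_cl hJ h hf h2 (h1 f hf)
  | succ n ih =>
    intro J h hJ h1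
    obtain ⟨x, hx⟩ : (I \ J).Nonempty := card_pos.1 (by omega)
    obtain ⟨hxI, hxJ⟩ := mem_sdiff.1 hx
    by_cases h2 : M.cl J x
    · obtain ⟨f, hf, h3, h4⟩ := M.exists_drop hJ (A := J ∩ I) inter_subset_left h2
        (M.not_cl hI inter_subset_right hxI (by simp [hxJ]))
      have h5 : f ∉ I := fun h => h3 (mem_inter.2 ⟨hf, h⟩)
      have h6 := ih (insert x (J.erase f)) (by
        have : I \ insert x (J.erase f) = (I \ J).erase x := by
          ext y
          simp only [mem_sdiff, mem_insert, mem_erase]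
          constructor
          · rintro ⟨h6, h7⟩
            push Not at h7
            exact ⟨h7.1, h6, h7.2 fun h => h5 (h ▸ h6)⟩
          · rintro ⟨h6, h7, h8⟩
            exact ⟨h7, fun h => h.elim h6 fun h => h8 h.2⟩
        rw [this, card_erase_of_mem hx]; omega)
        (M.ind_insert (M.ind_mono hJ (erase_subset _ _)) h4) (fun g hg => by
          rcases mem_insert.1 hg with rfl | hg
          · exact M.cl_mem hxI
          · exact h1 g (mem_erase.1 hg).2)
      rw [card_insert_of_notMem (fun h => hxJ (mem_erase.1 h).2), card_erase_of_mem hf] at h6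
      have := card_pos.2 ⟨f, hf⟩
      omega
    · have h6 := ih (insert x J) (by rw [sdiff_insert, card_erase_of_mem hx]; omega)
        (M.ind_insert hJ h2) (fun g hg => by
          rcases mem_insert.1 hg with rfl | hg
          · exact M.cl_mem hxI
          · exact h1 g hg)
      rw [card_insert_of_notMem hxJ] at h6
      omega

theorem card_le {I J : Finset ι} (hI : M.Ind I) (hJ : M.Ind J) (h : ∀ f ∈ J, M.cl I f) :
    J.card ≤ I.card := M.steinitz hI _ J rfl hJ h

theorem exists_basis {X U : Finset ι} (hX : M.Ind X) (hU : X ⊆ U) :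
    ∃ Y, X ⊆ Y ∧ Y ⊆ U ∧ M.Ind Y ∧ ∀ e ∈ U, M.cl Y e := by
  classical
  obtain ⟨Y, hY, hmax⟩ := exists_max_image (U.powerset.filter fun Y => X ⊆ Y ∧ M.Ind Y) card
    ⟨X, by simp [hU, hX]⟩
  simp only [mem_filter, mem_powerset] at hY hmax
  refine ⟨Y, hY.2.1, hY.1, hY.2.2, fun e he => ?_⟩
  by_contra h
  have := hmax (insert e Y) ⟨insert_subset he hY.1, hY.2.1.trans (subset_insert _ _),
    M.ind_insert hY.2.2 h⟩
  rw [card_insert_of_notMem fun h' => h (M.cl_mem h')] at this
  omega

theorem stack (ρ : ι → ℕ) {B : Finset ι} (hB : M.Ind B) (A : Finset ι) :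
    (∀ e ∈ A, ¬ M.cl (B ∪ A.filter fun f => f ≠ e ∧ ρ f ≤ ρ e) e) → M.Ind (B ∪ A) := by
  induction A using Finset.induction_on_max_value ρ with
  | empty => intro _; simpa using hB
  | insert a A ha hmax ih =>
    intro h
    rw [union_insert]
    refine M.ind_insert (ih fun e he h1 => h e (mem_insert_of_mem he) (M.cl_mono ?_ h1))
      fun h1 => h a (mem_insert_self _ _) (M.cl_mono ?_ h1)
    · exact union_subset_union Subset.rfl (filter_subset_filter _ (subset_insert _ _))
    · refine union_subset_union Subset.rfl fun x hx => mem_filter.2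
        ⟨mem_insert_of_mem hx, fun h => ha (h ▸ hx), hmax x hx⟩

theorem stack' {B : Finset ι} (hB : M.Ind B) {A : Finset ι}
    (h : ∀ e ∈ A, ¬ M.cl (B ∪ A.erase e) e) : M.Ind (B ∪ A) :=
  M.stack (fun _ => 0) hB A fun e he h1 => h e he (M.cl_mono (union_subset_union Subset.rfl
    fun _ hx => mem_erase.2 ⟨(mem_filter.1 hx).2.1, (mem_filter.1 hx).1⟩) h1)

theorem ind_iff {A : Finset ι} : M.Ind A ↔ ∀ e ∈ A, ¬ M.cl (A.erase e) e :=
  ⟨fun h e he => M.not_cl h (erase_subset _ _) he (by simp), fun h => by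
    simpa using M.stack' M.ind_empty (A := A) (by simpa using h)⟩

end CS

end Pool.Agent.Lib.MP_cce914_co
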