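import Pool.Agent.Lib.MP_cce914_co.GDef
import Pool.Agent.Lib.MP_cce914_co.GMat
import Pool.Agent.Lib.MP_cce914_co.Cycle

set_option autoImplicit false

namespace Pool.Agent.Lib.MP_cce914_co

open Finset

variable {ι H : Type} [Group H]

def Sat (θ : ℕ → WithZero H) (p : ℕ × ℕ) (g : H) : Prop := θ p.2 = θ p.1 * (g : WithZero H)

section
variable (G : ι → ℕ × ℕ) (γ : ι → H)

def Sol (A : Finset ι) (θ : ℕ → WithZero H) : Prop := ∀ e ∈ A, Sat θ (G e) (γ e)

def Sp (A : Finset ι) (p : ℕ × ℕ) (g : H) : Prop := ∀ θ, Sol G γ A θ → Sat θ p g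

def Pot (B : Finset ι) (η : ℕ → H) : Prop := ∀ e ∈ B, η (G e).2 = η (G e).1 * γ e

def Ind (A : Finset ι) : Prop := ∀ B ⊆ A, B.card ≤ (Vx G B).card ∧
  ((∃ η, Pot G γ B η) → ∀ s, B.card < (insert s (Vx G B)).card)

end

variable {G : ι → ℕ × ℕ} {γ : ι → H}

theorem Sol.mono {A B : Finset ι} {θ : ℕ → WithZero H} (h : Sol G γ B θ) (hA : A ⊆ B) :
    Sol G γ A θ := fun e he => h e (hA he)

theorem Pot.mono {A B : Finset ι} {η : ℕ → H} (h : Pot G γ B η) (hA : A ⊆ B) :
    Pot G γ A η := fun e he => h e (hA he)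

theorem Sp.mono {A B : Finset ι} {p : ℕ × ℕ} {g : H} (h : Sp G γ A p g) (hA : A ⊆ B) :
    Sp G γ B p g := fun θ hθ => h θ (hθ.mono hA)

theorem Sat.ne_iff {θ : ℕ → WithZero H} {p : ℕ × ℕ} {g : H} (h : Sat θ p g) :
    θ p.1 ≠ 0 ↔ θ p.2 ≠ 0 := by
  rw [h]; simp

theorem Sat.symm {θ : ℕ → WithZero H} {u v : ℕ} {g : H} (h : Sat θ (u, v) g) :
    Sat θ (v, u) g⁻¹ := by
  unfold Sat at *
  simp only at *
  rw [h]; simp

theorem Sat.trans {θ : ℕ → WithZero H} {u v w : ℕ} {g g' : H} (h : Sat θ (u, v) g)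
    (h' : Sat θ (v, w) g') : Sat θ (u, w) (g * g') := by
  unfold Sat at *
  simp only at *
  rw [h', h]; simp [mul_assoc]

theorem Sat.refl (θ : ℕ → WithZero H) (u : ℕ) : Sat θ (u, u) 1 := by simp [Sat]

theorem Sol.pot {B : Finset ι} {θ : ℕ → WithZero H} (h : Sol G γ B θ)
    (h0 : ∀ e ∈ B, θ (G e).1 ≠ 0) : ∃ η, Pot G γ B η := by
  classical
  refine ⟨fun x => if hx : θ x = 0 then 1 else WithZero.unzero hx, fun f hf => ?_⟩
  have h3 := h f hf
  have h4 := h0 f hf
  have h5 := h3.ne_iff.1 h4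
  simp only [dif_neg h4, dif_neg h5]
  rw [← WithZero.coe_inj, WithZero.coe_mul, WithZero.coe_unzero, WithZero.coe_unzero]
  exact h3

theorem card_split {B : Finset ι} (p : ℕ → Prop) [DecidablePred p]
    (hp : ∀ e ∈ B, p (G e).1 ↔ p (G e).2) {S T V : Finset ℕ} (hS : ∀ x ∈ S, p x)
    (hT : ∀ x ∈ T, ¬ p x) (hV : Vx G B ⊆ V) (hSV : S ⊆ V) (hTV : T ⊆ V) :
    (S ∪ Vx G (B.filter fun e => p (G e).1)).card +
      (T ∪ Vx G (B.filter fun e => ¬ p (G e).1)).card ≤ V.card := by
  rw [← card_union_of_disjoint]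
  · refine card_le_card (union_subset (union_subset hSV ?_) (union_subset hTV ?_)) <;>
      exact (Vx_mono (filter_subset _ _)).trans hV
  · have h1 : ∀ x ∈ S ∪ Vx G (B.filter fun e => p (G e).1), p x := by
      intro x hx
      rcases mem_union.1 hx with hx | hx
      · exact hS x hx
      · obtain ⟨e, he, rfl | rfl⟩ := mem_Vx.1 hx
        · exact (mem_filter.1 he).2
        · exact (hp e (mem_filter.1 he).1).1 (mem_filter.1 he).2
    refine disjoint_left.2 fun x hx hx' => ?_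
    have h2 := h1 x hx
    rcases mem_union.1 hx' with hx' | hx'
    · exact hT x hx' h2
    · obtain ⟨e, he, rfl | rfl⟩ := mem_Vx.1 hx'
      · exact (mem_filter.1 he).2 h2
      · exact (mem_filter.1 he).2 ((hp e (mem_filter.1 he).1).2 h2)

variable [DecidableEq ι]

theorem ind_insert {A : Finset ι} {e : ι} (h : Ind G γ A) (he : ¬ Sp G γ A (G e) (γ e)) :
    Ind G γ (insert e A) := by
  classical
  unfold Sp at he
  push Not at he
  obtain ⟨θ, hθ, he⟩ := he
  intro B hB
  by_cases heB : e ∈ B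
  swap
  · exact h B ((subset_insert_iff_of_notMem heB).1 hB)
  have hB' : B.erase e ⊆ A := subset_insert_iff.1 hB
  have hc := card_erase_of_mem heB
  have hpos := card_pos.2 ⟨e, heB⟩
  have hV : Vx G (B.erase e) ⊆ Vx G B := Vx_mono (erase_subset _ _)
  have hsum : ∀ (p : ι → Prop) [DecidablePred p], ((B.erase e).filter p).card +
      ((B.erase e).filter fun x => ¬ p x).card = (B.erase e).card :=
    fun p _ => card_filter_add_card_filter_not p
  constructor
  · obtain ⟨s, hs, hs'⟩ : ∃ s ∈ Vx G B, θ s ≠ 0 := by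
      by_contra h1
      push Not at h1
      exact he (by rw [Sat, h1 _ (fst_mem_Vx heB), h1 _ (snd_mem_Vx heB), zero_mul])
    have h1 := card_split (G := G) (B := B.erase e) (fun x => θ x ≠ 0)
      (fun f hf => (hθ f (hB' hf)).ne_iff) (S := {s}) (T := ∅) (by simpa using hs') (by simp) hV
      (by simpa using hs) (by simp)
    have h2 := (h _ ((filter_subset (fun f => θ (G f).1 ≠ 0) _).trans hB')).2
      ((hθ.mono ((filter_subset _ _).trans hB')).pot fun f hf => (mem_filter.1 hf).2) s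
    have h3 := (h _ ((filter_subset (fun f => ¬ θ (G f).1 ≠ 0) _).trans hB')).1
    have h4 := hsum fun f => θ (G f).1 ≠ 0
    rw [empty_union, ← insert_eq] at h1
    omega
  · rintro ⟨η, hη⟩ s
    have h0 := card_le_card (subset_insert s (Vx G B))
    set c : WithZero H := θ (G e).1 * ((η (G e).1)⁻¹ : H) with hcd
    have h1 := card_split (G := G) (B := B.erase e) (fun x => θ x = c * η x)
      (fun f hf => by
        have h2 := hθ f (hB' hf)
        rw [h2, hη f (mem_of_mem_erase hf), WithZero.coe_mul, ← mul_assoc]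
        simp) (S := {(G e).1}) (T := {(G e).2}) (by simp [hcd]) (by
        intro x hx
        rw [mem_singleton] at hx
        rw [hx, hη e heB]
        intro h2
        apply he
        rw [Sat, h2, hcd]
        simp [mul_assoc]) hV
      (by simpa using fst_mem_Vx heB) (by simpa using snd_mem_Vx heB)
    have h2 := (h _ ((filter_subset (fun f => θ (G f).1 = c * η (G f).1) _).trans hB')).2
      ⟨η, hη.mono ((filter_subset _ _).trans (erase_subset _ _))⟩ (G e).1
    have h3 := (h _ ((filter_subset (fun f => ¬ θ (G f).1 = c * η (G f).1) _).trans hB')).2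
      ⟨η, hη.mono ((filter_subset _ _).trans (erase_subset _ _))⟩ (G e).2
    have h4 := hsum fun f => θ (G f).1 = c * η (G f).1
    rw [← insert_eq, ← insert_eq] at h1
    omega

theorem tree_or_tight (G : ι → ℕ × ℕ) (γ : ι → H) (A : Finset ι) (s : ℕ) :
    (∃ D ⊆ A, (insert s (Vx G D)).card ≤ D.card) ∨
      ∃ D ⊆ A, ∃ η, Pot G γ D η ∧ (insert s (Vx G D)).card ≤ D.card + 1 ∧
        Sol G γ A fun x => if x ∈ insert s (Vx G D) then (η x : WithZero H) else 0 := by
  classical
  obtain ⟨D, hD, hmax⟩ := exists_max_image (A.powerset.filter fun D =>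
    (insert s (Vx G D)).card ≤ D.card + 1 ∧ ∃ η, Pot G γ D η) card
    ⟨∅, by simp [Pot]⟩
  simp only [mem_filter, mem_powerset] at hD hmax
  obtain ⟨hDA, hDc, η, hη⟩ := hD
  have hin : ∀ f ∈ D, (G f).1 ∈ insert s (Vx G D) ∧ (G f).2 ∈ insert s (Vx G D) := fun f hf =>
    ⟨mem_insert_of_mem (fst_mem_Vx hf), mem_insert_of_mem (snd_mem_Vx hf)⟩
  have hiff : ∀ f ∈ A, (G f).1 ∈ insert s (Vx G D) ↔ (G f).2 ∈ insert s (Vx G D) := by
    intro f hf
    constructor
    · intro h1
      by_contra h2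
      have h3 : f ∉ D := fun h => h2 (hin f h).2
      have h4 := hmax (insert f D) ⟨insert_subset hf hDA, by
        rw [Vx_insert, card_insert_of_notMem h3, insert_comm s, insert_comm s, insert_comm,
          insert_eq_of_mem h1, card_insert_of_notMem h2]
        omega, Function.update η (G f).2 (η (G f).1 * γ f), fun g hg => by
        rcases mem_insert.1 hg with rfl | hg
        · rw [Function.update_self, Function.update_of_ne (ne_of_mem_of_not_mem h1 h2)]
        · rw [Function.update_of_ne (ne_of_mem_of_not_mem (hin g hg).1 h2),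
            Function.update_of_ne (ne_of_mem_of_not_mem (hin g hg).2 h2), hη g hg]⟩
      rw [card_insert_of_notMem h3] at h4
      omega
    · intro h1
      by_contra h2
      have h3 : f ∉ D := fun h => h2 (hin f h).1
      have h4 := hmax (insert f D) ⟨insert_subset hf hDA, by
        rw [Vx_insert, card_insert_of_notMem h3, insert_comm s, insert_comm s,
          insert_eq_of_mem h1, card_insert_of_notMem h2]
        omega, Function.update η (G f).1 (η (G f).2 * (γ f)⁻¹), fun g hg => by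
        rcases mem_insert.1 hg with rfl | hg
        · rw [Function.update_self, Function.update_of_ne (ne_of_mem_of_not_mem h1 h2)]
          simp
        · rw [Function.update_of_ne (ne_of_mem_of_not_mem (hin g hg).1 h2),
            Function.update_of_ne (ne_of_mem_of_not_mem (hin g hg).2 h2), hη g hg]⟩
      rw [card_insert_of_notMem h3] at h4
      omega
  by_cases h : ∃ f ∈ A, f ∉ D ∧ (G f).1 ∈ insert s (Vx G D)
  · obtain ⟨f, hf, h1, h2⟩ := h
    refine Or.inl ⟨insert f D, insert_subset hf hDA, ?_⟩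
    rw [Vx_insert, card_insert_of_notMem h1, insert_comm s, insert_comm s,
      insert_eq_of_mem ((hiff f hf).1 h2), insert_eq_of_mem h2]
    exact hDc
  · push Not at h
    refine Or.inr ⟨D, hDA, η, hη, hDc, fun f hf => ?_⟩
    unfold Sat
    by_cases h1 : f ∈ D
    · simp only [if_pos (hin f h1).1, if_pos (hin f h1).2, hη f h1, WithZero.coe_mul]
    · have h2 := h f hf h1
      simp only [if_neg h2, if_neg (fun h => h2 ((hiff f hf).2 h)), zero_mul]

theorem not_sp {A : Finset ι} {e : ι} (he : e ∉ A) (h : Ind G γ (insert e A)) :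
    ¬ Sp G γ A (G e) (γ e) := by
  intro hs
  have tree : ∀ s, Inc G e s → ¬ ∃ D ⊆ A, ∃ η, Pot G γ D η ∧
      (insert s (Vx G D)).card ≤ D.card + 1 ∧
        Sol G γ A fun x => if x ∈ insert s (Vx G D) then (η x : WithZero H) else 0 := by
    rintro s hes ⟨D, hDA, η, hη, hc, hsol⟩
    have h1 := hs _ hsol
    have h2 := h1.ne_iff
    simp only [ne_eq, ite_eq_right_iff, WithZero.coe_ne_zero, imp_false, not_not] at h2
    have h3 : (G e).1 ∈ insert s (Vx G D) ∧ (G e).2 ∈ insert s (Vx G D) := by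
      rcases hes with rfl | rfl
      · exact ⟨mem_insert_self _ _, h2.1 (mem_insert_self _ _)⟩
      · exact ⟨h2.2 (mem_insert_self _ _), mem_insert_self _ _⟩
    have h4 := (h (insert e D) (insert_subset_insert _ hDA)).2 ⟨η, fun g hg => by
      rcases mem_insert.1 hg with rfl | hg
      · unfold Sat at h1
        simp only [if_pos h3.1, if_pos h3.2] at h1
        exact_mod_cast h1
      · exact hη g hg⟩ s
    rw [Vx_insert, card_insert_of_notMem fun h => he (hDA h), insert_comm s, insert_comm s,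
      insert_eq_of_mem h3.2, insert_eq_of_mem h3.1] at h4
    omega
  obtain ⟨D, hD, h1⟩ := (tree_or_tight G γ A (G e).1).resolve_right (tree _ (Or.inl rfl))
  obtain ⟨D', hD', h2⟩ := (tree_or_tight G γ A (G e).2).resolve_right (tree _ (Or.inr rfl))
  have h3 := (h (insert e (D ∪ D')) (insert_subset_insert _ (union_subset hD hD'))).1
  have h4 := (h (D ∩ D') (inter_subset_left.trans (hD.trans (subset_insert _ _)))).1
  have h5 := card_union_add_card_inter D D'
  have h6 := card_union_add_card_inter (insert (G e).1 (Vx G D)) (insert (G e).2 (Vx G D'))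
  have h7 : (Vx G (D ∩ D')).card ≤
      (insert (G e).1 (Vx G D) ∩ insert (G e).2 (Vx G D')).card := card_le_card (subset_inter
    ((Vx_mono inter_subset_left).trans (subset_insert _ _))
    ((Vx_mono inter_subset_right).trans (subset_insert _ _)))
  rw [card_insert_of_notMem fun h => he (union_subset hD hD' h), Vx_insert, Vx_union,
    ← union_insert, ← insert_union] at h3
  omega

/-- The frame matroid as a closure system. -/
def frameCS (G : ι → ℕ × ℕ) (γ : ι → H) : CS ι where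
  Ind := Ind G γ
  cl A e := Sp G γ A (G e) (γ e)
  ind_empty B hB := by
    rw [subset_empty.1 hB]; simp
  ind_mono h hA C hC := h C (hC.trans hA)
  cl_mem he _ hθ := hθ _ he
  cl_trans h1 h2 θ hθ := h2 θ fun f hf => h1 f hf θ hθ
  key he := ⟨fun h => ⟨fun C hC => h C (hC.trans (subset_insert _ _)), not_sp he h⟩,
    fun h => ind_insert h.1 h.2⟩

/-! ### Walks -/

omit [DecidableEq ι]

theorem GainWalk.sp {A : Finset ι} {x y : ℕ × H} (h : GainWalk G γ A x y) :
    Sp G γ A (x.1, y.1) (x.2⁻¹ * y.2) := by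
  intro θ hθ
  induction h with
  | refl => simpa using Sat.refl θ x.1
  | tail _ h ih =>
    obtain ⟨e, he, ⟨h1, h2⟩ | ⟨h1, h2⟩⟩ := h
    · have := hθ e he
      rw [h1] at this
      rw [h2, ← mul_assoc]
      exact ih.trans this
    · have := hθ e he
      rw [h1] at this
      rw [h2, ← mul_assoc]
      exact ih.trans this.symm

theorem GainWalk.symm {A : Finset ι} {x y : ℕ × H} (h : GainWalk G γ A x y) :
    GainWalk G γ A y x := by
  induction h with
  | refl => exact Relation.ReflTransGen.refl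
  | tail _ h ih =>
    refine Relation.ReflTransGen.head ?_ ih
    obtain ⟨e, he, ⟨h1, h2⟩ | ⟨h1, h2⟩⟩ := h
    · exact ⟨e, he, Or.inr ⟨h1, by simp [h2]⟩⟩
    · exact ⟨e, he, Or.inl ⟨h1, by simp [h2]⟩⟩

theorem GainWalk.smul {A : Finset ι} {x y : ℕ × H} (h : GainWalk G γ A x y) (c : H) :
    GainWalk G γ A (x.1, c * x.2) (y.1, c * y.2) := by
  induction h with
  | refl => exact Relation.ReflTransGen.refl
  | tail _ h ih =>
    refine Relation.ReflTransGen.tail ih ?_
    obtain ⟨e, he, ⟨h1, h2⟩ | ⟨h1, h2⟩⟩ := h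
    · exact ⟨e, he, Or.inl ⟨h1, by simp [h2, mul_assoc]⟩⟩
    · exact ⟨e, he, Or.inr ⟨h1, by simp [h2, mul_assoc]⟩⟩

def Unb (G : ι → ℕ × ℕ) (γ : ι → H) (A : Finset ι) (u : ℕ) : Prop :=
  ∃ h, h ≠ 1 ∧ GainWalk G γ A (u, 1) (u, h)

theorem exists_sol {A : Finset ι} {u : ℕ} (hu : ¬ Unb G γ A u) :
    ∃ θ, Sol G γ A θ ∧ ∀ x (g : H), θ x = g ↔ GainWalk G γ A (u, 1) (x, g) := by
  classical
  have uniq : ∀ x g g', GainWalk G γ A (u, 1) (x, g) → GainWalk G γ A (u, 1) (x, g') →
      g = g' := by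
    intro x g g' h1 h2
    by_contra h3
    refine hu ⟨g * g'⁻¹, fun h => h3 (by simpa [mul_inv_eq_one] using h), h1.trans ?_⟩
    have h4 := h2.symm.smul (g * g'⁻¹)
    simp only [inv_mul_cancel_right, mul_one] at h4
    exact h4
  let θ : ℕ → WithZero H := fun x =>
    if h : ∃ g, GainWalk G γ A (u, 1) (x, g) then (h.choose : H) else 0
  have hθ : ∀ x (g : H), θ x = g ↔ GainWalk G γ A (u, 1) (x, g) := by
    intro x g
    simp only [θ]
    split_ifs with h
    · rw [WithZero.coe_inj]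
      exact ⟨fun h1 => h1 ▸ h.choose_spec, fun h1 => uniq _ _ _ h.choose_spec h1⟩
    · exact ⟨fun h1 => absurd h1 WithZero.zero_ne_coe, fun h1 => absurd ⟨g, h1⟩ h⟩
  refine ⟨θ, fun e he => ?_, hθ⟩
  unfold Sat
  by_cases h1 : θ (G e).1 = 0
  · rw [h1, zero_mul]
    by_contra h2
    obtain ⟨g, hg⟩ := WithZero.ne_zero_iff_exists.1 h2
    have h3 := (hθ _ _).2 (((hθ _ _).1 hg.symm).tail (c := ((G e).1, g * (γ e)⁻¹))
      ⟨e, he, Or.inr ⟨rfl, rfl⟩⟩)
    rw [h1] at h3
    exact WithZero.zero_ne_coe h3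
  · obtain ⟨g, hg⟩ := WithZero.ne_zero_iff_exists.1 h1
    rw [← hg, ← WithZero.coe_mul]
    exact (hθ _ _).2 (((hθ _ _).1 hg.symm).tail ⟨e, he, Or.inl ⟨rfl, rfl⟩⟩)

theorem sp_iff {A : Finset ι} {u v : ℕ} {g : H} : Sp G γ A (u, v) g ↔
    GainWalk G γ A (u, 1) (v, g) ∨ (Unb G γ A u ∧ Unb G γ A v) := by
  have key : ∀ u v g, Sp G γ A (u, v) g → ¬ Unb G γ A u → GainWalk G γ A (u, 1) (v, g) := by
    intro u v g h hu
    obtain ⟨θ, h1, h2⟩ := exists_sol hu
    have h3 := h θ h1
    rw [Sat, (h2 u 1).2 Relation.ReflTransGen.refl, ← WithZero.coe_mul, one_mul] at h3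
    exact (h2 _ _).1 h3
  have zero : ∀ u θ, Unb G γ A u → Sol G γ A θ → θ u = 0 := by
    rintro u θ ⟨h, h1, h2⟩ hθ
    have h3 := h2.sp θ hθ
    by_contra h4
    obtain ⟨a, ha⟩ := WithZero.ne_zero_iff_exists.1 h4
    simp only [Sat, ← ha, inv_one, one_mul, ← WithZero.coe_mul, WithZero.coe_inj] at h3
    exact h1 (by simpa using h3)
  constructor
  · intro h
    by_cases hu : Unb G γ A u
    · by_cases hv : Unb G γ A v
      · exact Or.inr ⟨hu, hv⟩
      · left
        simpa using (key v u g⁻¹ (fun θ hθ => (h θ hθ).symm) hv).symm.smul g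
    · exact Or.inl (key u v g h hu)
  · rintro (h | ⟨hu, hv⟩)
    · simpa using h.sp
    · intro θ hθ
      rw [Sat, zero u θ hu hθ, zero v θ hv hθ, zero_mul]

theorem Joined.walk {A : Finset ι} {u v : ℕ} (h : Joined G A u v) :
    ∃ g, GainWalk G γ A (u, 1) (v, g) := by
  induction h with
  | refl => exact ⟨1, Relation.ReflTransGen.refl⟩
  | tail _ h ih =>
    obtain ⟨g, hg⟩ := ih
    obtain ⟨e, he, h | h⟩ := h
    · exact ⟨g * γ e, hg.tail ⟨e, he, Or.inl ⟨h, rfl⟩⟩⟩
    · exact ⟨g * (γ e)⁻¹, hg.tail ⟨e, he, Or.inr ⟨h, rfl⟩⟩⟩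

theorem Pot.balanced {C : Finset ι} {η : ℕ → H} (h : Pot G γ C η) : Balanced G γ C := by
  intro v g hw
  have h1 := hw.sp (fun x => (η x : WithZero H)) fun e he => by
    rw [Sat, h e he, WithZero.coe_mul]
  simp only [Sat, inv_one, one_mul, ← WithZero.coe_mul, WithZero.coe_inj] at h1
  simpa using h1

theorem IsCycle.pot {C : Finset ι} (hC : IsCycle G C) (h : Balanced G γ C) :
    ∃ η, Pot G γ C η := by
  classical
  obtain ⟨e, he⟩ := hC.1
  obtain ⟨θ, h1, h2⟩ := exists_sol (A := C) (u := (G e).1) fun ⟨g, h3, h4⟩ => h3 (h _ g h4)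
  refine h1.pot fun f hf => ?_
  obtain ⟨g, hg⟩ := (hC.2.2 e he f hf).walk (γ := γ)
  rw [(h2 _ _).2 hg]; simp

theorem frameIndep_iff [DecidableEq ι] {A : Finset ι} : FrameIndep G γ A ↔ Ind G γ A := by
  rw [FrameIndep, indep_iff_av, av_empty_iff]
  constructor
  · rintro ⟨h1, h2⟩ B hB
    refine ⟨h1 B hB, fun ⟨η, hη⟩ s => ?_⟩
    rcases B.eq_empty_or_nonempty with rfl | hne
    · simp
    · by_contra h3
      have h4 := card_le_card (subset_insert s (Vx G B))
      obtain ⟨C, hC, h5⟩ := exists_cycle (G := G) hne (by omega)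
      exact h2 C (hC.trans hB) h5 (hη.mono hC).balanced
  · intro h
    refine ⟨fun B hB => (h B hB).1, fun C hC h1 h2 => ?_⟩
    obtain ⟨e, he⟩ := h1.1
    have h3 := (h C hC).2 (h1.pot h2) (G e).1
    rw [insert_eq_of_mem (fst_mem_Vx he), h1.tight] at h3
    exact lt_irrefl _ h3

/-- Extension of an assignment on `S` that respects everything `B` forces on `S`. -/
theorem exists_ext (B : Finset ι) (S : Finset ℕ) (τ : ℕ → WithZero H)
    (h : ∀ s ∈ S, ∀ t ∈ S, ∀ g, Sp G γ B (s, t) g → Sat τ (s, t) g) :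
    ∃ θ, Sol G γ B θ ∧ ∀ s ∈ S, θ s = τ s := by
  classical
  let θ : ℕ → WithZero H := fun v =>
    if hv : ∃ p : ℕ × H, p.1 ∈ S ∧ Sp G γ B (p.1, v) p.2 then τ hv.choose.1 * hv.choose.2 else 0
  have hθ : ∀ v, ∀ s ∈ S, ∀ g, Sp G γ B (s, v) g → θ v = τ s * g := by
    intro v s hs g hg
    have hv : ∃ p : ℕ × H, p.1 ∈ S ∧ Sp G γ B (p.1, v) p.2 := ⟨(s, g), hs, hg⟩
    simp only [θ, dif_pos hv]
    have h1 := h s hs _ hv.choose_spec.1 (g * (hv.choose.2)⁻¹) fun θ' h' =>
      (hg θ' h').trans (hv.choose_spec.2 θ' h').symm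
    rw [Sat] at h1
    simp only at h1
    rw [h1]
    simp [mul_assoc]
  refine ⟨θ, fun e he => ?_, fun s hs => by
    simpa using hθ s s hs 1 fun θ' _ => Sat.refl θ' s⟩
  unfold Sat
  by_cases h1 : ∃ p : ℕ × H, p.1 ∈ S ∧ Sp G γ B (p.1, (G e).1) p.2
  · obtain ⟨⟨s, g⟩, hs, hg⟩ := h1
    rw [hθ _ s hs g hg, hθ _ s hs (g * γ e) fun θ' h' => (hg θ' h').trans (h' e he)]
    simp [mul_assoc]
  · have h2 : ¬ ∃ p : ℕ × H, p.1 ∈ S ∧ Sp G γ B (p.1, (G e).2) p.2 := by
      rintro ⟨⟨s, g⟩, hs, hg⟩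
      exact h1 ⟨(s, g * (γ e)⁻¹), hs, fun θ' h' => (hg θ' h').trans (Sat.symm (h' e he))⟩
    simp only [θ, dif_neg h1, dif_neg h2, zero_mul]

end Pool.Agent.Lib.MP_cce914_co
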