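import Pool.Agent.Lib.MP_cce914_co.GCor

set_option autoImplicit false

namespace Pool.Agent.Lib.MP_cce914_co

open Finset Pool.Agent.Lib.helper80 Polynomial

variable {H : Type} [Group H] {k : ℕ} {φ : H ≃ Fin k} {m : ℕ} {G : Fin m → ℕ × ℕ} {γ : Fin m → H}

omit [Group H] in
theorem gain_blocks : ∀ x ∈ (List.ofFn fun e => block k (φ (γ e))), x.length = k := by
  intro x hx
  obtain ⟨e, rfl⟩ := List.mem_ofFn.1 hx
  exact length_block (φ _).2.le

omit [Group H] in
theorem length_codeGain (φ : H ≃ Fin k) (γ : Fin m → H) : (codeGain φ γ).length = k * m := by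
  rw [codeGain, length_flatten_const _ gain_blocks, List.length_ofFn, mul_comm]

omit [Group H] in
theorem parseH_code (hG : ∀ e, (G e).1 < 2 * m ∧ (G e).2 < 2 * m) (r : List Bool) (e : Fin m) :
    (parseH k (codeGraph G ++ (codeGain φ γ ++ r))).getD e 0 = φ (γ e) := by
  obtain ⟨r', hr⟩ := drop_flatten _ r e (by simp) (gain_blocks (φ := φ) (γ := γ))
  rw [List.getD_eq_getElem _ _ (by simp [parseH, lead_code])]
  simp only [parseH, lead_code, List.getElem_map, List.getElem_range]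
  rw [← length_codeGraph hG, List.drop_length_add_append, codeGain, hr, List.getElem_ofFn,
    lead_block (φ _).2]

theorem indGM_code (hG : ∀ e, (G e).1 < 2 * m ∧ (G e).2 < 2 * m) (X : Finset (Fin m)) :
    ∃ b : Bool, (b = true ↔ FrameIndep G γ X) ∧
      indGM (tb φ) (codeGraph G ++ codeGain φ γ ++ codeSet X) = [b] := by
  refine ⟨_, ?_, rfl⟩
  have := parseA_code hG (k := k) (codeGain φ γ) [] (length_codeGain φ γ) X
  rw [List.append_nil] at this
  rw [List.append_assoc, frameIndep_iff]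
  change indG _ _ (parseH k _) (parseA _ k) = true ↔ _
  rw [this, indG_iff (gr_parseG hG _) (parseH_code hG _)]

theorem relGM_code [DecidableEq H] (hG : ∀ e, (G e).1 < 2 * m ∧ (G e).2 < 2 * m)
    (U X X' : Finset (Fin m)) : ∃ b : Bool, (b = true ↔ Rel G γ U (2 * m) X X') ∧
      relGM (tb φ) (codeGraph G ++ codeGain φ γ ++ codeSet U ++ codeSet X ++ codeSet X') = [b] := by
  refine ⟨_, ?_, rfl⟩
  have a0 := parseA_code hG (k := k) (codeGain φ γ) (codeSet X ++ codeSet X')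
    (length_codeGain φ γ) U
  have a1 := parseA_code hG (k := k + 1) (codeGain φ γ ++ codeSet U) (codeSet X')
    (by simp [length_codeSet, length_codeGain]; ring) X
  have a2 := parseA_code hG (k := k + 2) (codeGain φ γ ++ codeSet U ++ codeSet X) []
    (by simp [length_codeSet, length_codeGain]; ring) X'
  simp only [List.append_nil, List.append_assoc] at a0 a1 a2 ⊢
  change relG _ _ (parseH k _) (parseA _ k) _ (parseA _ (k + 1)) (parseA _ (k + 2)) = true ↔ _
  rw [a0, a1, a2, lead_code, relG_iff (gr_parseG hG _) (parseH_code hG _)]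

theorem le_frameRank {A I : Finset (Fin m)} (hI : I ⊆ A) (h : FrameIndep G γ I) :
    I.card ≤ frameRank G γ A :=
  le_csSup ⟨A.card, fun _ ⟨_, hJ, _, hk⟩ => hk ▸ card_le_card hJ⟩ ⟨I, hI, h, rfl⟩

theorem exists_frameRank (G : Fin m → ℕ × ℕ) (γ : Fin m → H) (A : Finset (Fin m)) :
    ∃ I ⊆ A, FrameIndep G γ I ∧ I.card = frameRank G γ A :=
  Nat.sSup_mem (s := {k | ∃ I ⊆ A, FrameIndep G γ I ∧ I.card = k})
    ⟨0, ∅, empty_subset _, frameIndep_iff.2 (frameCS G γ).ind_empty, rfl⟩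
    ⟨A.card, fun _ ⟨_, hJ, _, hk⟩ => hk ▸ card_le_card hJ⟩

theorem mainG (H : Type) [Group H] (k : ℕ) (φ : H ≃ Fin k) : ∃ c C : ℕ,
    (∃ T₀ : Turing.TM2ComputableAux Bool Bool, ∀ (m : ℕ) (G : Fin m → ℕ × ℕ) (γ : Fin m → H),
      (∀ e, (G e).1 < 2 * m ∧ (G e).2 < 2 * m) → ∀ X : Finset (Fin m),
        Decides T₀ (codeGraph G ++ codeGain φ γ ++ codeSet X) (FrameIndep G γ X)
          (C * (m + 1) ^ c)) ∧
    ∃ T : Turing.TM2ComputableAux Bool Bool, ∀ l : ℕ, ∃ π : ℕ,
      ∀ (m : ℕ) (G : Fin m → ℕ × ℕ) (γ : Fin m → H),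
      (∀ e, (G e).1 < 2 * m ∧ (G e).2 < 2 * m) → ∀ U : Finset (Fin m),
        frameRank G γ U + frameRank G γ Uᶜ ≤ frameRank G γ univ + l →
        ∃ f : Finset (Fin m) → Fin π,
          (∀ X ⊆ U, ∀ X' ⊆ U, f X = f X' →
            ∀ Z ⊆ Uᶜ, (FrameIndep G γ (X ∪ Z) ↔ FrameIndep G γ (X' ∪ Z))) ∧
          ∀ X ⊆ U, ∀ X' ⊆ U,
            Decides T (codeGraph G ++ codeGain φ γ ++ codeSet U ++ codeSet X ++ codeSet X')
              (f X = f X') (C * (m + 1) ^ c) := by
  classical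
  let _ : Fintype H := Fintype.ofEquiv _ φ.symm
  obtain ⟨T₀, p₀, h₀⟩ := exists_machine (pt_indGM (tb φ))
  obtain ⟨T, p, h⟩ := exists_machine (pt_relGM (tb φ))
  obtain ⟨c, C, hc⟩ := poly_bound ((p₀ + p).comp (4 * X * X + 4 * X + 1 + (k : ℕ[X]) * X))
  simp only [eval_comp, eval_add, eval_mul, eval_X, eval_ofNat, eval_one, eval_natCast,
    Nat.cast_id] at hc
  refine ⟨c, C, ⟨T₀, fun m G γ hG X => h₀ _ _ _ (indGM_code hG X) ?_⟩, T, fun l =>
    ⟨2 * 2 ^ (2 * l * (2 * l * Fintype.card H)), fun m G γ hG U hl => ?_⟩⟩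
  · refine le_trans ?_ (hc m)
    refine (eval_mono p₀ ?_).trans (Nat.le_add_right _ _)
    simp only [List.length_append, length_codeGraph hG, length_codeSet, length_codeGain]
    nlinarith
  · obtain ⟨f, hf⟩ := exists_classes (G := G) (γ := γ) (U := U) (2 * m)
      (card_TT (l := l) _ fun I hI J hJ h1 h2 => by
        obtain ⟨K, -, h3, h4⟩ := exists_frameRank G γ univ
        have h5 := le_frameRank hI (frameIndep_iff.2 h1)
        have h6 := le_frameRank hJ (frameIndep_iff.2 h2)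
        exact ⟨K, frameIndep_iff.1 h3, by omega⟩)
    refine ⟨f, fun X hX X' hX' h1 Z hZ => ?_, fun X _ X' _ => h _ _ _ ?_ ?_⟩
    · rw [frameIndep_iff, frameIndep_iff]
      exact ⟨((hf _ _).1 h1).swap hG hX hX' hZ, ((hf _ _).1 h1.symm).swap hG hX' hX hZ⟩
    · rw [hf]
      exact relGM_code hG U X X'
    · refine le_trans ?_ (hc m)
      refine (eval_mono p ?_).trans (Nat.le_add_left _ _)
      simp only [List.length_append, length_codeGraph hG, length_codeSet, length_codeGain]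
      nlinarith

end Pool.Agent.Lib.MP_cce914_co
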