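import Pool.Agent.Lib.MP_cce914_co.GKey

set_option autoImplicit false
set_option linter.unusedSectionVars false

namespace Pool.Agent.Lib.MP_cce914_co

open Finset

variable {ι H : Type} [Group H] [DecidableEq ι] [DecidableEq H] [Fintype ι]

def side (U : Finset ι) (e : ι) : ℕ := if e ∈ U then 0 else 1

/-- The split graph: edges of `U` on the even vertices, the other edges on the odd vertices. -/
def GN (G : ι → ℕ × ℕ) (U : Finset ι) : ι ⊕ (ℕ × ℕ) × H → ℕ × ℕ :=
  Sum.elim (fun e => (2 * (G e).1 + side U e, 2 * (G e).2 + side U e)) Prod.fst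

def γN (γ : ι → H) : ι ⊕ (ℕ × ℕ) × H → H := Sum.elim γ Prod.snd

def mt (H : Type) [Group H] (v : ℕ) : (ℕ × ℕ) × H := ((2 * v, 2 * v + 1), 1)

def NS (H : Type) [Group H] [DecidableEq H] (A : Finset ι) (S : Finset ℕ) :
    Finset (ι ⊕ (ℕ × ℕ) × H) := A.disjSum (S.image (mt H))

theorem mt_inj : Function.Injective (mt H) := fun a b h => by
  simp only [mt, Prod.mk.injEq] at h; omega

theorem side_lt (U : Finset ι) (e : ι) : side U e < 2 := by unfold side; split_ifs <;> omega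

@[simp] theorem inl_mem_NS {A : Finset ι} {S : Finset ℕ} {e : ι} :
    Sum.inl e ∈ NS H A S ↔ e ∈ A := inl_mem_disjSum

@[simp] theorem inr_mem_NS {A : Finset ι} {S : Finset ℕ} {t : (ℕ × ℕ) × H} :
    Sum.inr t ∈ NS H A S ↔ ∃ v ∈ S, mt H v = t := by simp [NS]

theorem card_NS (A : Finset ι) (S : Finset ℕ) : (NS H A S).card = A.card + S.card := by
  rw [NS, card_disjSum, card_image_of_injective _ mt_inj]

theorem NS_union (A B : Finset ι) (S T : Finset ℕ) :
    NS H A S ∪ NS H B T = NS H (A ∪ B) (S ∪ T) := by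
  ext (e | t)
  · simp
  · simp [or_and_right, exists_or]

theorem NS_mono {A B : Finset ι} {S T : Finset ℕ} (h : A ⊆ B) (h' : S ⊆ T) :
    NS H A S ⊆ NS H B T := disjSum_mono h (image_subset_image h')

variable {G : ι → ℕ × ℕ} {γ : ι → H} {U : Finset ι}

theorem sol_NS {A : Finset ι} {S : Finset ℕ} {θ : ℕ → WithZero H} :
    Sol (GN G U) (γN γ) (NS H A S) θ ↔
      (∀ e ∈ A, Sat (fun v => θ (2 * v + side U e)) (G e) (γ e)) ∧
        ∀ v ∈ S, θ (2 * v + 1) = θ (2 * v) := by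
  constructor
  · intro h
    refine ⟨fun e he => h (Sum.inl e) (by simpa using he), fun v hv => ?_⟩
    simpa [Sat, GN, γN, mt] using h (Sum.inr (mt H v)) (inr_mem_NS.2 ⟨v, hv, rfl⟩)
  · rintro ⟨h1, h2⟩ (e | t) h
    · exact h1 e (by simpa using h)
    · obtain ⟨v, hv, rfl⟩ := inr_mem_NS.1 h
      simpa [Sat, GN, γN, mt] using h2 v hv

theorem erase_inl (A : Finset ι) (S : Finset ℕ) (e : ι) :
    (NS H A S).erase (Sum.inl e) = NS H (A.erase e) S := by
  ext (f | t) <;> simp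

theorem erase_inr (A : Finset ι) (S : Finset ℕ) (v : ℕ) :
    (NS H A S).erase (Sum.inr (mt H v)) = NS H A (S.erase v) := by
  ext (f | t)
  · simp
  · simp only [mem_erase, inr_mem_NS, ne_eq, Sum.inr.injEq]
    constructor
    · rintro ⟨h, w, hw, rfl⟩
      exact ⟨w, ⟨fun h' => h (by rw [h']), hw⟩, rfl⟩
    · rintro ⟨w, ⟨h, hw⟩, rfl⟩
      exact ⟨fun h' => h (mt_inj h'), w, hw, rfl⟩

theorem exists_viol {A : Finset ι} (h : Ind G γ A) {e : ι} (he : e ∈ A) :
    ∃ θ, Sol G γ (A.erase e) θ ∧ ¬ Sat θ (G e) (γ e) := by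
  have := (frameCS G γ).ind_iff.1 h e he
  simpa [frameCS, Sp] using this

theorem ind_real {X Z : Finset ι} (hX : Ind G γ X) (hZ : Ind G γ Z) (hXU : X ⊆ U)
    (hZU : Z ⊆ Uᶜ) : Ind (GN G U) (γN γ) (NS H (X ∪ Z) ∅) := by
  refine (frameCS (GN G U) (γN γ)).ind_iff.2 ?_
  rintro (e | t) he
  swap
  · simp at he
  rw [inl_mem_NS] at he
  obtain ⟨A, hA, heA, hs⟩ : ∃ A, Ind G γ A ∧ e ∈ A ∧
      ∀ f ∈ X ∪ Z, side U f = side U e → f ∈ A := by
    rcases mem_union.1 he with he | he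
    · refine ⟨X, hX, he, fun f hf hs => (mem_union.1 hf).resolve_right fun h => ?_⟩
      simp [side, hXU he, mem_compl.1 (hZU h)] at hs
    · refine ⟨Z, hZ, he, fun f hf hs => (mem_union.1 hf).resolve_left fun h => ?_⟩
      simp [side, hXU h, mem_compl.1 (hZU he)] at hs
  obtain ⟨θ, h1, h2⟩ := exists_viol hA heA
  rw [erase_inl]
  intro h
  have key : ∀ f, side U f = side U e → (fun v => if (2 * v + side U f) % 2 = side U e then
      θ ((2 * v + side U f) / 2) else 0) = θ := by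
    intro f hf
    funext v
    have := side_lt U f
    rw [if_pos (by omega)]
    congr 1
    omega
  refine h2 ?_
  rw [← key e rfl]
  refine h (fun x => if x % 2 = side U e then θ (x / 2) else 0) (sol_NS.2 ⟨fun f hf => ?_, by simp⟩)
  by_cases h3 : side U f = side U e
  · rw [key f h3]
    exact h1 f (mem_erase.2 ⟨(mem_erase.1 hf).1, hs f (mem_erase.1 hf).2 h3⟩)
  · have := side_lt U f
    unfold Sat
    beta_reduce
    rw [if_neg (by omega), if_neg (by omega), zero_mul]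

theorem ind_mt (S : Finset ℕ) : Ind (GN G U) (γN γ) (NS H ∅ S) := by
  refine (frameCS (GN G U) (γN γ)).ind_iff.2 ?_
  rintro (e | t) he
  · simp at he
  obtain ⟨v, hv, rfl⟩ := inr_mem_NS.1 he
  rw [erase_inr]
  intro h
  have := h (fun x => if x = 2 * v then 1 else 0) (sol_NS.2 ⟨by simp, fun w hw => by
    have := (mem_erase.1 hw).1
    rw [if_neg (by omega), if_neg (by omega)]⟩)
  simp [Sat, GN, γN, mt] at this

theorem ind_up {A : Finset ι} (hA : Ind G γ A) (S : Finset ℕ) :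
    Ind (GN G U) (γN γ) (NS H A S) := by
  have := (frameCS (GN G U) (γN γ)).stack' (ind_mt S) (A := NS H A ∅) (by
    rintro (e | t) he
    swap
    · simp at he
    obtain ⟨θ, h1, h2⟩ := exists_viol hA (inl_mem_NS.1 he)
    rw [erase_inl, NS_union]
    intro h
    have key : ∀ f, (fun v => θ ((2 * v + side U f) / 2)) = θ := by
      intro f
      funext v
      have := side_lt U f
      congr 1
      omega
    refine h2 ?_
    rw [← key e]
    refine h (fun x => θ (x / 2)) (sol_NS.2 ⟨fun f hf => ?_, fun v _ => ?_⟩)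
    · rw [key f]
      exact h1 f (by simpa using hf)
    · congr 1
      omega)
  rwa [NS_union, empty_union, union_empty] at this

theorem ind_down {n : ℕ} (hn : ∀ e, (G e).1 < n ∧ (G e).2 < n) {A : Finset ι}
    (hA : Ind (GN G U) (γN γ) (NS H A (range n))) : Ind G γ A := by
  refine (frameCS G γ).ind_iff.2 fun e he h => ?_
  refine (frameCS (GN G U) (γN γ)).ind_iff.1 hA (Sum.inl e) (by simpa using he) ?_
  rw [erase_inl]
  intro θ hθ
  obtain ⟨h1, h2⟩ := sol_NS.1 hθ
  have key : ∀ f, Sat (fun v => θ (2 * v + side U f)) (G f) (γ f) ↔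
      Sat (fun v => θ (2 * v)) (G f) (γ f) := by
    intro f
    unfold side
    split_ifs
    · rfl
    · unfold Sat
      beta_reduce
      rw [h2 _ (mem_range.2 (hn f).1), h2 _ (mem_range.2 (hn f).2)]
  exact (key e).2 (h _ fun f hf => (key f).1 (h1 f hf))

open Classical in
/-- The matching edges that are spanned by the graph and the earlier matching edges. -/
noncomputable def TT (G : ι → ℕ × ℕ) (γ : ι → H) (U : Finset ι) (n : ℕ) : Finset ℕ :=
  (range n).filter fun v => Sp (GN G U) (γN γ) (NS H univ (range v)) (2 * v, 2 * v + 1) 1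

noncomputable def PP (G : ι → ℕ × ℕ) (γ : ι → H) (U : Finset ι) (n : ℕ) : Finset ℕ :=
  range n \ TT G γ U n

theorem mem_TT {n v : ℕ} : v ∈ TT G γ U n ↔
    v < n ∧ Sp (GN G U) (γN γ) (NS H univ (range v)) (2 * v, 2 * v + 1) 1 := by
  simp [TT]

theorem mem_PP {n v : ℕ} : v ∈ PP G γ U n ↔
    v < n ∧ ¬ Sp (GN G U) (γN γ) (NS H univ (range v)) (2 * v, 2 * v + 1) 1 := by
  rw [PP, mem_sdiff, mem_TT, mem_range]
  tauto

theorem TT_sub (n : ℕ) : TT G γ U n ⊆ range n := fun _ h => mem_range.2 (mem_TT.1 h).1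

theorem PP_union (n : ℕ) : PP G γ U n ∪ TT G γ U n = range n :=
  sdiff_union_of_subset (TT_sub n)

theorem ind_PP {X Z : Finset ι} (hX : Ind G γ X) (hZ : Ind G γ Z) (hXU : X ⊆ U)
    (hZU : Z ⊆ Uᶜ) (n : ℕ) : Ind (GN G U) (γN γ) (NS H (X ∪ Z) (PP G γ U n)) := by
  have := (frameCS (GN G U) (γN γ)).stack (Sum.elim (fun _ => 0) fun t => t.1.1)
    (ind_real hX hZ hXU hZU) (NS H ∅ (PP G γ U n)) (by
    rintro (e | t) he
    · simp at he
    obtain ⟨v, hv, rfl⟩ := inr_mem_NS.1 he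
    intro h
    refine (mem_PP.1 hv).2 (Sp.mono h ?_)
    rintro (f | t) hf
    · simp
    · simp only [mem_union, inr_mem_NS, mem_filter] at hf
      rcases hf with ⟨w, hw, -⟩ | ⟨⟨w, -, rfl⟩, h1, h2⟩
      · simp at hw
      · refine inr_mem_NS.2 ⟨w, mem_range.2 ?_, rfl⟩
        have h3 : w ≠ v := fun h => h1 (by rw [h])
        simp only [Sum.elim_inr, mt] at h2
        omega)
  rwa [NS_union, empty_union, union_empty] at this

theorem sol_PP {n : ℕ} {θ : ℕ → WithZero H}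
    (h : Sol (GN G U) (γN γ) (NS H univ (PP G γ U n)) θ) :
    Sol (GN G U) (γN γ) (NS H univ (range n)) θ := by
  obtain ⟨h1, h2⟩ := sol_NS.1 h
  refine sol_NS.2 ⟨h1, fun v => ?_⟩
  induction v using Nat.strong_induction_on with
  | _ v ih =>
    intro hv
    rw [mem_range] at hv
    by_cases h3 : v ∈ PP G γ U n
    · exact h2 v h3
    · rw [mem_PP, not_and, not_not] at h3
      have := h3 hv θ (sol_NS.2 ⟨h1, fun w hw =>
        ih w (mem_range.1 hw) (mem_range.2 ((mem_range.1 hw).trans hv))⟩)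
      simpa [Sat] using this

theorem sol_span {A W Y : Finset ι} {S : Finset ℕ} {s : ℕ} (hW : ∀ e ∈ W, side U e = s)
    (hA : A ⊆ W) (hY : A ⊆ Y) (hsp : ∀ e ∈ W, Sp G γ A (G e) (γ e)) {θ : ℕ → WithZero H}
    (h : Sol (GN G U) (γN γ) (NS H Y S) θ) : Sol (GN G U) (γN γ) (NS H (Y ∪ W) S) θ := by
  obtain ⟨h1, h2⟩ := sol_NS.1 h
  refine sol_NS.2 ⟨fun e he => ?_, h2⟩
  rcases mem_union.1 he with he | he
  · exact h1 e he
  · rw [hW e he]
    exact hsp e he _ fun f hf => hW f (hA hf) ▸ h1 f (hY hf)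

theorem side_U : ∀ e ∈ U, side U e = 0 := fun _ he => if_pos he

theorem side_W : ∀ e ∈ Uᶜ, side U e = 1 := fun _ he => if_neg (mem_compl.1 he)

theorem card_TT {l : ℕ} (n : ℕ) (hl : ∀ I ⊆ U, ∀ J ⊆ Uᶜ, Ind G γ I → Ind G γ J →
    ∃ K, Ind G γ K ∧ I.card + J.card ≤ K.card + l) : (TT G γ U n).card ≤ l := by
  obtain ⟨I, -, h1, h2, h3⟩ := (frameCS G γ).exists_basis (frameCS G γ).ind_empty (empty_subset U)
  obtain ⟨J, -, h4, h5, h6⟩ := (frameCS G γ).exists_basis (frameCS G γ).ind_empty (empty_subset Uᶜ)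
  obtain ⟨K, h7, h8⟩ := hl I h1 J h4 h2 h5
  have h9 := (frameCS (GN G U) (γN γ)).card_le (ind_PP h2 h5 h1 h4 n) (ind_up h7 (range n))
    fun f hf θ hθ => by
      have h9 := sol_span side_W h4 (subset_union_right.trans subset_union_left) h6
        (sol_span side_U h1 subset_union_left h3 hθ)
      rw [union_assoc, union_compl, union_eq_right.2 (subset_univ _)] at h9
      exact sol_PP h9 f (NS_mono (subset_univ _) Subset.rfl hf)
  have h10 := card_union_le I J
  have h11 : (PP G γ U n).card + (TT G γ U n).card = n := by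
    rw [PP, card_sdiff_add_card_eq_card (TT_sub n), card_range]
  rw [card_NS, card_NS, card_range] at h9
  omega

theorem modular {X Z : Finset ι} (hX : Ind G γ X) (hZ : Ind G γ Z) (hXU : X ⊆ U)
    (hZU : Z ⊆ Uᶜ) {n : ℕ} {p : ℕ × ℕ} {g : H}
    (h1 : Sp (GN G U) (γN γ) (NS H (X ∪ Uᶜ) (PP G γ U n)) p g)
    (h2 : Sp (GN G U) (γN γ) (NS H (U ∪ Z) (PP G γ U n)) p g) :
    Sp (GN G U) (γN γ) (NS H (X ∪ Z) (PP G γ U n)) p g := by
  obtain ⟨I, a0, a1, a2, a3⟩ := (frameCS G γ).exists_basis hX hXU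
  obtain ⟨J, b0, b1, b2, b3⟩ := (frameCS G γ).exists_basis hZ hZU
  have h3 := (frameCS (GN G U) (γN γ)).cl_inter (x := Sum.inr (p, g)) (ind_PP a2 b2 a1 b1 n)
    (NS_mono (union_subset_union a0 Subset.rfl) Subset.rfl)
    (NS_mono (union_subset_union Subset.rfl b0) Subset.rfl)
    (fun θ hθ => h1 θ ((sol_span side_W b1 subset_union_right b3 hθ).mono
      (NS_mono (union_subset_union subset_union_left Subset.rfl) Subset.rfl)))
    (fun θ hθ => h2 θ ((sol_span side_U a1 subset_union_left a3 hθ).mono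
      (NS_mono (union_subset subset_union_right (subset_union_right.trans subset_union_left))
        Subset.rfl)))
  refine Sp.mono h3 ?_
  rintro (e | t) he
  · simp only [mem_inter, inl_mem_NS, mem_union] at he ⊢
    rcases he with ⟨h4 | h4, h5 | h5⟩
    · exact Or.inl h4
    · exact Or.inl h4
    · exact absurd (a1 h5) (mem_compl.1 (b1 h4))
    · exact Or.inr h5
  · simpa using (mem_inter.1 he).1

/-- The ends of the matching edges in `TT`. -/
noncomputable def TV (G : ι → ℕ × ℕ) (γ : ι → H) (U : Finset ι) (n : ℕ) : Finset ℕ :=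
  (TT G γ U n).image (fun v => 2 * v) ∪ (TT G γ U n).image fun v => 2 * v + 1

def Rel (G : ι → ℕ × ℕ) (γ : ι → H) (U : Finset ι) (n : ℕ) (X X' : Finset ι) : Prop :=
  (Ind G γ X ↔ Ind G γ X') ∧ ∀ s ∈ TV G γ U n, ∀ t ∈ TV G γ U n, ∀ g,
    (Sp (GN G U) (γN γ) (NS H (X ∪ Uᶜ) (PP G γ U n)) (s, t) g ↔
      Sp (GN G U) (γN γ) (NS H (X' ∪ Uᶜ) (PP G γ U n)) (s, t) g)

theorem Rel.swap {n : ℕ} (hn : ∀ e, (G e).1 < n ∧ (G e).2 < n) {X X' Z : Finset ι}
    (h : Rel G γ U n X X') (hXU : X ⊆ U) (hXU' : X' ⊆ U) (hZU : Z ⊆ Uᶜ)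
    (h1 : Ind G γ (X ∪ Z)) : Ind G γ (X' ∪ Z) := by
  have hX : Ind G γ X := (frameCS G γ).ind_mono h1 subset_union_left
  have hZ : Ind G γ Z := (frameCS G γ).ind_mono h1 subset_union_right
  have h2 := (frameCS (GN G U) (γN γ)).stack' (ind_PP (h.1.1 hX) hZ hXU' hZU n)
    (A := NS H ∅ (TT G γ U n)) (by
    rintro (e | t) he
    · simp at he
    obtain ⟨v, hv, rfl⟩ := inr_mem_NS.1 he
    rw [erase_inr, NS_union, union_empty]
    intro h2
    refine (frameCS (GN G U) (γN γ)).not_cl (ind_up h1 (range n))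
      (A := NS H (X ∪ Z) (PP G γ U n ∪ (TT G γ U n).erase v)) (e := Sum.inr (mt H v))
      (NS_mono Subset.rfl ?_) (inr_mem_NS.2 ⟨v, mem_range.2 (mem_TT.1 hv).1, rfl⟩) ?_ ?_
    · rw [← PP_union (G := G) (γ := γ) (U := U) n]
      exact union_subset_union Subset.rfl (erase_subset _ _)
    · rw [inr_mem_NS]
      rintro ⟨w, hw, h3⟩
      rw [mt_inj h3, mem_union, mem_erase] at hw
      rcases hw with hw | hw
      · exact (mem_PP.1 hw).2 (mem_TT.1 hv).2
      · exact hw.1 rfl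
    intro θ hθ
    obtain ⟨η, h3, h4⟩ := exists_ext (G := GN G U) (γ := γN γ) (NS H (X' ∪ Z) (PP G γ U n))
      (TV G γ U n) θ fun s hs t ht g hg => modular hX hZ hXU hZU
        ((h.2 s hs t ht g).2 (hg.mono (NS_mono (union_subset_union Subset.rfl hZU) Subset.rfl)))
        (hg.mono (NS_mono (union_subset_union hXU' Subset.rfl) Subset.rfl)) θ
        (hθ.mono (NS_mono Subset.rfl subset_union_left))
    have h5 : ∀ w ∈ TT G γ U n, η (2 * w) = θ (2 * w) ∧ η (2 * w + 1) = θ (2 * w + 1) :=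
      fun w hw => ⟨h4 _ (mem_union_left _ (mem_image_of_mem _ hw)),
        h4 _ (mem_union_right _ (mem_image_of_mem _ hw))⟩
    have h6 := h2 η (sol_NS.2 ⟨(sol_NS.1 h3).1, fun w hw => by
      rcases mem_union.1 hw with hw | hw
      · exact (sol_NS.1 h3).2 w hw
      · rw [(h5 w (mem_of_mem_erase hw)).1, (h5 w (mem_of_mem_erase hw)).2]
        exact (sol_NS.1 hθ).2 w (mem_union_right _ hw)⟩)
    simp only [Sat, GN, γN, mt, Sum.elim_inr] at h6 ⊢
    rwa [(h5 v hv).1, (h5 v hv).2] at h6)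
  rw [NS_union, union_empty, PP_union] at h2
  exact ind_down hn h2

theorem exists_classes [Fintype H] {l : ℕ} (n : ℕ) (hl : (TT G γ U n).card ≤ l) :
    ∃ f : Finset ι → Fin (2 * 2 ^ (2 * l * (2 * l * Fintype.card H))),
      ∀ X X', f X = f X' ↔ Rel G γ U n X X' := by
  classical
  have h1 : (TV G γ U n).card ≤ 2 * l := by
    have h1 := card_union_le ((TT G γ U n).image fun v => 2 * v)
      ((TT G γ U n).image fun v => 2 * v + 1)
    have h2 := card_image_le (s := TT G γ U n) (f := fun v => 2 * v)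
    have h3 := card_image_le (s := TT G γ U n) (f := fun v => 2 * v + 1)
    unfold TV
    omega
  have h2 : Fintype.card (Prop × (TV G γ U n × TV G γ U n × H → Prop)) ≤
      Fintype.card (Fin (2 * 2 ^ (2 * l * (2 * l * Fintype.card H)))) := by
    simp only [Fintype.card_prod, Fintype.card_prop, Fintype.card_fun, Fintype.card_coe,
      Fintype.card_fin]
    exact Nat.mul_le_mul_left _ (Nat.pow_le_pow_right (by norm_num)
      (Nat.mul_le_mul h1 (Nat.mul_le_mul_right _ h1)))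
  obtain ⟨emb⟩ := Function.Embedding.nonempty_of_card_le h2
  refine ⟨fun X => emb (Ind G γ X, fun q =>
    Sp (GN G U) (γN γ) (NS H (X ∪ Uᶜ) (PP G γ U n)) (q.1, q.2.1) q.2.2), fun X X' => ?_⟩
  simp only [EmbeddingLike.apply_eq_iff_eq, Prod.mk.injEq, funext_iff, eq_iff_iff, Rel,
    Prod.forall, Subtype.forall]

end Pool.Agent.Lib.MP_cce914_co
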