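import Pool.Agent.Lib.MP_cce914_co.Comb

set_option autoImplicit false

namespace Pool.Agent.Lib.MP_cce914_co

open Finset

variable {ι : Type} [DecidableEq ι]

/-! ### Pruning pendant edges -/

def Keep (G : ι → ℕ × ℕ) (T : Finset ℕ) (A : Finset ι) (e : ι) : Prop :=
  ((G e).1 ∈ T ∨ 2 ≤ degree G A (G e).1) ∧ ((G e).2 ∈ T ∨ 2 ≤ degree G A (G e).2)

variable {G G' : ι → ℕ × ℕ}

theorem av_prune {T : Finset ℕ} {A A' : Finset ι} (hA : A' ⊆ A)
    (hk : ∀ e ∈ A, Keep G T A e → e ∈ A') : Av G T A' ↔ Av G T A := by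
  classical
  refine ⟨fun h => ?_, fun h => h.mono hA⟩
  let φ : ι → ℕ := fun e => if (G e).1 ∈ T ∨ 2 ≤ degree G A (G e).1 then (G e).2 else (G e).1
  have key : ∀ e ∈ A \ A', Inc G e (φ e) ∧ φ e ∉ T ∧ degree G A (φ e) ≤ 1 := by
    intro e he
    rw [mem_sdiff] at he
    have h1 : ¬ Keep G T A e := fun h => he.2 (hk e he.1 h)
    simp only [φ]
    split_ifs with h2
    · have h3 : ¬ ((G e).2 ∈ T ∨ 2 ≤ degree G A (G e).2) := fun h => h1 ⟨h2, h⟩
      push Not at h3
      exact ⟨Or.inr rfl, h3.1, by omega⟩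
    · push Not at h2
      exact ⟨Or.inl rfl, h2.1, by omega⟩
  refine av_of_inj (F := A \ A') φ ?_ ?_ (by rwa [Finset.sdiff_sdiff_eq_self hA])
  · intro e he g hg heg
    have h1 := key e he
    have h2 := key g hg
    exact eq_of_degree_le_one h2.2.2 (mem_sdiff.1 hg).1 (mem_sdiff.1 he).1 h2.1 (heg ▸ h1.1)
  · intro e he
    have h1 := key e he
    refine ⟨h1.1, h1.2.1, fun hm => ?_⟩
    obtain ⟨g, hg, hgv⟩ := mem_Vx.1 hm
    have := eq_of_degree_le_one h1.2.2 (mem_sdiff.1 he).1 (mem_sdiff.1 hg).1 h1.1 hgv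
    subst this
    exact (mem_sdiff.1 hg).2 he

omit [DecidableEq ι] in
theorem av_fix {T : Finset ℕ} {A : Finset ι} (hk : ∀ e ∈ A, Keep G T A e) :
    Av G T A ↔ ∀ e ∈ A, ((G e).1 ∉ T ∧ degree G A (G e).1 ≤ 2) ∧
      ((G e).2 ∉ T ∧ degree G A (G e).2 ≤ 2) := by
  constructor
  · intro h
    have h1 := h A Subset.rfl
    have h2 := sum_degree (G := G) A
    have h3 : ∀ v ∈ Vx G A, (if v ∈ T then 0 else 2) ≤ degree G A v := by
      intro v hv
      split_ifs with hT
      · omega
      · obtain ⟨e, he, rfl | rfl⟩ := mem_Vx.1 hv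
        · exact (hk e he).1.resolve_left hT
        · exact (hk e he).2.resolve_left hT
    have h4 : ∑ v ∈ Vx G A, (if v ∈ T then 0 else 2) = 2 * (Vx G A \ T).card := by
      rw [sum_ite, sum_const_zero, sum_const, smul_eq_mul, zero_add, mul_comm, filter_notMem_eq_sdiff]
    have h5 := sum_le_sum h3
    have h6 := (sum_eq_sum_iff_of_le h3).1 (by omega)
    have h7 : ∀ v ∈ Vx G A, v ∉ T ∧ degree G A v ≤ 2 := by
      intro v hv
      have h8 := h6 v hv
      have h9 := degree_pos.2 hv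
      split_ifs at h8 with hT
      · omega
      · exact ⟨hT, h8.ge⟩
    exact fun e he => ⟨h7 _ (fst_mem_Vx he), h7 _ (snd_mem_Vx he)⟩
  · intro h B hB
    have h7 : ∀ v ∈ Vx G B, v ∉ T ∧ degree G A v ≤ 2 := by
      intro v hv
      obtain ⟨e, he, rfl | rfl⟩ := mem_Vx.1 hv
      · exact (h e (hB he)).1
      · exact (h e (hB he)).2
    rw [sdiff_eq_self_of_disjoint (disjoint_left.2 fun v hv => (h7 v hv).1)]
    have h1 := sum_degree (G := G) B
    have h2 : ∑ v ∈ Vx G B, degree G B v ≤ ∑ v ∈ Vx G B, 2 :=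
      sum_le_sum fun v hv => (degree_mono hB v).trans (h7 v hv).2
    rw [sum_const, smul_eq_mul] at h2
    omega

/-! ### Deleting coloops and contracting series edges -/

def Only (G : ι → ℕ × ℕ) (E : Finset ι) (v : ℕ) (e f : ι) : Prop :=
  ∀ g ∈ E, Inc G g v → g = e ∨ g = f

def Del (G : ι → ℕ × ℕ) (E : Finset ι) (e : ι) : Prop :=
  Only G E (G e).1 e e ∨ Only G E (G e).2 e e ∨
    ∃ f ∈ E, (G e).1 ≠ (G e).2 ∧ Only G E (G e).1 e f ∧ Only G E (G e).2 e f

def Adj (G : ι → ℕ × ℕ) (E : Finset ι) (v : ℕ) (e f : ι) : Prop :=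
  Inc G e v ∧ Inc G f v ∧ Only G E v e f

def Ser (G : ι → ℕ × ℕ) (E : Finset ι) (e f : ι) : Prop :=
  (G e).1 ≠ (G e).2 ∧ ((Adj G E (G e).1 e f ∨ Adj G E (G e).2 e f) ∨
    ∃ g ∈ E, g ≠ e ∧ g ≠ f ∧ (G g).1 ≠ (G g).2 ∧ Adj G E (G g).1 e g ∧ Adj G E (G g).2 g f)

theorem Only.pendant {E A : Finset ι} {v : ℕ} {e f : ι} (h : Only G E v e f) (hA : A ⊆ E)
    (hf : f = e ∨ f ∉ A ∨ ¬ Inc G f v) (he : Inc G e v) (h1 : Av G ∅ (A.erase e)) : Av G ∅ A := by
  refine av_pendant (by simp) he (fun g hg hgv => ?_) h1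
  rcases h g (hA hg) hgv with h | rfl
  · exact h
  · rcases hf with hf | hf | hf
    · exact hf
    · exact absurd hg hf
    · exact absurd hgv hf

omit [DecidableEq ι] in
theorem Only.symm {E : Finset ι} {v : ℕ} {e f : ι} (h : Only G E v e f) : Only G E v f e :=
  fun g hg hv => (h g hg hv).symm

theorem Del.free {E A : Finset ι} {e : ι} (h : Del G E e) (hA : A ⊆ E)
    (h1 : Av G ∅ (A.erase e)) : Av G ∅ A := by
  rcases h with h | h | ⟨f, -, hne, h2, h3⟩
  · exact h.pendant hA (Or.inl rfl) (Or.inl rfl) h1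
  · exact h.pendant hA (Or.inl rfl) (Or.inr rfl) h1
  by_cases hfe : f = e
  · exact h2.pendant hA (Or.inl hfe) (Or.inl rfl) h1
  by_cases hf : Inc G f (G e).2
  · refine av_of_inj (F := {e, f}) (fun g => if g = e then (G e).1 else (G e).2) ?_ ?_
      (h1.mono fun x hx => ?_)
    · intro x hx y hy hxy
      simp only [coe_insert, coe_singleton, Set.mem_insert_iff, Set.mem_singleton_iff] at hx hy
      rcases hx with rfl | rfl <;> rcases hy with rfl | rfl
      · rfl
      · simp [hfe, hne] at hxy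
      · simp [hfe, hne.symm] at hxy
      · rfl
    · intro x hx
      have key : ∀ v, Only G E v e f → v ∉ Vx G (A \ {e, f}) := by
        intro v hv hm
        obtain ⟨g, hg, hgv⟩ := mem_Vx.1 hm
        rw [mem_sdiff] at hg
        exact hg.2 (by simpa using hv g (hA hg.1) hgv)
      simp only [mem_insert, mem_singleton] at hx
      rcases hx with rfl | rfl
      · simp only [if_true]
        exact ⟨Or.inl rfl, by simp, key _ h2⟩
      · simp only [if_neg hfe]
        exact ⟨hf, by simp, key _ h3⟩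
    · simp only [mem_sdiff, mem_insert, mem_singleton, not_or] at hx
      exact mem_erase.2 ⟨hx.2.1, hx.1⟩
  · exact h3.pendant hA (Or.inr (Or.inr hf)) (Or.inr rfl) h1

theorem Ser.left {E A : Finset ι} {e f : ι} (h : Ser G E e f) (hA : A ⊆ E) (hf : f ∉ A)
    (h1 : Av G ∅ (A.erase e)) : Av G ∅ A := by
  rcases h.2 with (h | h) | ⟨g, -, -, -, -, h2, h3⟩
  · exact h.2.2.pendant hA (Or.inr (Or.inl hf)) h.1 h1
  · exact h.2.2.pendant hA (Or.inr (Or.inl hf)) h.1 h1
  · refine h3.2.2.pendant hA (Or.inr (Or.inl hf)) h3.1 ?_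
    refine h2.2.2.pendant ((erase_subset _ _).trans hA) (Or.inr (Or.inl (by simp))) h2.1 ?_
    exact h1.mono (erase_subset_erase _ (erase_subset _ _))

theorem Ser.right {E A : Finset ι} {e f : ι} (h : Ser G E e f) (hA : A ⊆ E) (hf : e ∉ A)
    (h1 : Av G ∅ (A.erase f)) : Av G ∅ A := by
  rcases h.2 with (h | h) | ⟨g, -, -, -, -, h2, h3⟩
  · exact h.2.2.symm.pendant hA (Or.inr (Or.inl hf)) h.2.1 h1
  · exact h.2.2.symm.pendant hA (Or.inr (Or.inl hf)) h.2.1 h1
  · refine h2.2.2.symm.pendant hA (Or.inr (Or.inl hf)) h2.2.1 ?_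
    refine h3.2.2.symm.pendant ((erase_subset _ _).trans hA) (Or.inr (Or.inl (by simp)))
      h3.2.1 ?_
    exact h1.mono (erase_subset_erase _ (erase_subset _ _))

def merge (x y v : ℕ) : ℕ := if v = y then x else v

theorem card_image_merge {x y : ℕ} (hxy : x ≠ y) (V : Finset ℕ) (h : x ∈ V ∨ y ∈ V) :
    (V.image (merge x y)).card + 1 = (insert x (insert y V)).card := by
  have : V.image (merge x y) = (insert x (insert y V)).erase y := by
    ext v
    simp only [mem_image, mem_erase, mem_insert, merge]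
    constructor
    · rintro ⟨w, hw, rfl⟩
      split_ifs with h
      · exact ⟨hxy, Or.inl rfl⟩
      · exact ⟨h, Or.inr (Or.inr hw)⟩
    · rintro ⟨hv, rfl | rfl | hv'⟩
      · rcases h with h | h
        · exact ⟨v, h, by simp [hxy]⟩
        · exact ⟨y, h, by simp⟩
      · exact absurd rfl hv
      · exact ⟨v, hv', by simp [hv]⟩
  rw [this, card_erase_add_one (by simp)]

omit [DecidableEq ι] in
theorem Vx_image {φ : ℕ → ℕ} {B : Finset ι} (h : ∀ g ∈ B, G' g = (φ (G g).1, φ (G g).2)) :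
    Vx G' B = (Vx G B).image φ := by
  ext v
  simp only [mem_image, mem_Vx, Inc]
  constructor
  · rintro ⟨e, he, h'⟩
    rw [h e he] at h'
    rcases h' with h' | h'
    · exact ⟨_, ⟨e, he, Or.inl rfl⟩, h'⟩
    · exact ⟨_, ⟨e, he, Or.inr rfl⟩, h'⟩
  · rintro ⟨w, ⟨e, he, rfl | rfl⟩, rfl⟩
    · exact ⟨e, he, Or.inl (by rw [h e he])⟩
    · exact ⟨e, he, Or.inr (by rw [h e he])⟩

theorem av_contract {A : Finset ι} {e : ι} (hne : (G e).1 ≠ (G e).2) (he : e ∉ A)
    (h : ∀ g ∈ A, G' g = (merge (G e).1 (G e).2 (G g).1, merge (G e).1 (G e).2 (G g).2)) :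
    Av G ∅ (insert e A) ↔ Av G' ∅ A := by
  rw [av_empty_iff, av_empty_iff]
  constructor
  · intro h1 B hB
    rw [Vx_image fun g hg => h g (hB hg)]
    by_cases h2 : (G e).1 ∈ Vx G B ∨ (G e).2 ∈ Vx G B
    · have h3 := card_image_merge hne _ h2
      have h4 := h1 (insert e B) (insert_subset_insert _ hB)
      rw [Vx_insert, card_insert_of_notMem fun h => he (hB h)] at h4
      omega
    · push Not at h2
      rw [card_image_of_injOn]
      · exact h1 B (hB.trans (subset_insert _ _))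
      · intro v hv w hw hvw
        have hv' : v ≠ (G e).2 := fun h => h2.2 (h ▸ hv)
        have hw' : w ≠ (G e).2 := fun h => h2.2 (h ▸ hw)
        simpa [merge, hv', hw'] using hvw
  · intro h1 B hB
    have hB' : B.erase e ⊆ A := by
      intro x hx
      rcases mem_insert.1 (hB (mem_erase.1 hx).2) with h | h
      · exact absurd h (mem_erase.1 hx).1
      · exact h
    have h2 := h1 _ hB'
    rw [Vx_image fun g hg => h g (hB' hg)] at h2
    by_cases heB : e ∈ B
    · have h3 := card_image_merge hne (Vx G B) (Or.inl (fst_mem_Vx heB))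
      rw [insert_eq_of_mem (snd_mem_Vx heB), insert_eq_of_mem (fst_mem_Vx heB)] at h3
      have h4 := card_le_card (image_subset_image (f := merge (G e).1 (G e).2)
        (Vx_mono (G := G) (erase_subset e B)))
      have h5 := card_erase_add_one heB
      omega
    · rw [erase_eq_of_notMem heB] at h2
      exact h2.trans card_image_le

omit [DecidableEq ι] in
theorem av_congr {T : Finset ℕ} {A : Finset ι} (h : ∀ g ∈ A, G' g = G g) :
    Av G' T A ↔ Av G T A := by
  have : ∀ B ⊆ A, Vx G' B = Vx G B := fun B hB => by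
    rw [Vx_image (G := G) (φ := id) fun g hg => h g (hB hg), image_id]
  exact ⟨fun h1 B hB => this B hB ▸ h1 B hB, fun h1 B hB => (this B hB).symm ▸ h1 B hB⟩

def psi (e f : ι) (A : Finset ι) : Finset ι :=
  if e ∈ A ∧ f ∈ A then A.erase e else (A.erase e).erase f

theorem psi_subset (e f : ι) (A : Finset ι) : psi e f A ⊆ A.erase e := by
  unfold psi
  split_ifs
  · exact Subset.rfl
  · exact erase_subset _ _

theorem card_psi (e f : ι) (A : Finset ι) : A.card ≤ (psi e f A).card + 1 := by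
  unfold psi
  split_ifs with h
  · rw [card_erase_add_one h.1]
  · by_cases he : e ∈ A
    · rw [erase_eq_of_notMem (a := f) fun h' => h ⟨he, (mem_erase.1 h').2⟩, card_erase_add_one he]
    · rw [erase_eq_of_notMem he]
      have := pred_card_le_card_erase (s := A) (a := f)
      omega

theorem psi_union {e f : ι} {X Z U : Finset ι} (hX : X ⊆ U) (hZ : Disjoint Z U)
    (h : e ∈ U ↔ f ∈ U) : psi e f (X ∪ Z) = psi e f X ∪ psi e f Z := by
  have h1 : ∀ x, x ∈ X → x ∈ U := fun x hx => hX hx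
  have h2 : ∀ x, x ∈ Z → x ∉ U := fun x hx => disjoint_left.1 hZ hx
  ext x
  unfold psi
  split_ifs <;> simp only [mem_erase, mem_union] at * <;> grind

structure Step (G G' : ι → ℕ × ℕ) (E : Finset ι) (e f : ι) : Prop where
  mem : e ∈ E
  iff : ∀ A ⊆ E, Av G ∅ A ↔ Av G' ∅ (psi e f A)
  ins : ∀ I ⊆ E.erase e, Av G' ∅ I → Av G ∅ (insert e I)

theorem Del.step {E : Finset ι} {e : ι} (he : e ∈ E) (h : Del G E e) (hG : ∀ g ∈ E, G' g = G g) :
    Step G G' E e e := by
  refine ⟨he, fun A hA => ?_, fun I hI h1 => ?_⟩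
  · have : psi e e A = A.erase e := by unfold psi; split_ifs <;> simp
    rw [this, av_congr fun g hg => hG g (hA (erase_subset _ _ hg))]
    exact ⟨fun h1 => h1.mono (erase_subset _ _), h.free hA⟩
  · have hI' : I ⊆ E := hI.trans (erase_subset _ _)
    refine h.free (insert_subset he hI') ?_
    rw [erase_insert fun h => by simpa using hI h]
    exact (av_congr fun g hg => hG g (hI' hg)).1 h1

theorem Ser.step {E : Finset ι} {e f : ι} (he : e ∈ E) (hef : f ≠ e) (h : Ser G E e f)
    (hG : ∀ g ∈ E, G' g = (merge (G e).1 (G e).2 (G g).1, merge (G e).1 (G e).2 (G g).2)) :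
    Step G G' E e f := by
  refine ⟨he, fun A hA => ?_, fun I hI h1 => ?_⟩
  · have h1 := psi_subset e f A
    have h2 : psi e f A ⊆ E := h1.trans ((erase_subset _ _).trans hA)
    rw [← av_contract h.1 (fun h => by simpa using h1 h) fun g hg => hG g (h2 hg)]
    unfold psi at *
    split_ifs at * with h3
    · rw [insert_erase h3.1]
    · constructor
      · intro h4
        refine h.left (insert_subset he h2) (by simp [hef]) (h4.mono ?_)
        rw [erase_insert fun h => by simpa using h1 h]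
        exact h1.trans (erase_subset _ _)
      · intro h4
        by_cases hf : f ∈ A
        · have he' : e ∉ A := fun h => h3 ⟨h, hf⟩
          refine h.right hA he' (h4.mono ?_)
          rw [erase_eq_of_notMem he']
          exact subset_insert _ _
        · refine h4.mono ?_
          rw [erase_eq_of_notMem (a := f) fun h => hf (mem_erase.1 h).2]
          exact insert_erase_subset _ _
  · have hI' : I ⊆ E := hI.trans (erase_subset _ _)
    exact (av_contract h.1 (fun h => by simpa using hI h) fun g hg => hG g (hI' hg)).2 h1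

def Lam (G : ι → ℕ × ℕ) (E U : Finset ι) (l : ℕ) : Prop :=
  ∀ I ⊆ E ∩ U, ∀ J ⊆ E \ U, Av G ∅ I → Av G ∅ J → ∃ K ⊆ E, Av G ∅ K ∧ I.card + J.card ≤ K.card + l

theorem Step.lam {E U : Finset ι} {e f : ι} {l : ℕ} (h : Step G G' E e f) (hl : Lam G E U l) :
    Lam G' (E.erase e) U l := by
  intro I hI J hJ h1 h2
  have hI' : I ⊆ E.erase e := hI.trans inter_subset_left
  have hJ' : J ⊆ E.erase e := hJ.trans sdiff_subset
  have h3 := h.ins I hI' h1
  have h4 := h.ins J hJ' h2
  have hI2 : I ⊆ E ∩ U := hI.trans (inter_subset_inter (erase_subset _ _) Subset.rfl)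
  have hJ2 : J ⊆ E \ U := hJ.trans (sdiff_subset_sdiff (erase_subset _ _) Subset.rfl)
  have heI : e ∉ I := fun h => by simpa using hI' h
  have heJ : e ∉ J := fun h => by simpa using hJ' h
  have : ∃ K ⊆ E, Av G ∅ K ∧ I.card + J.card + 1 ≤ K.card + l := by
    by_cases hU : e ∈ U
    · obtain ⟨K, hK, h5, h6⟩ := hl (insert e I) (insert_subset (mem_inter.2 ⟨h.mem, hU⟩) hI2) J hJ2
        h3 (h4.mono (subset_insert _ _))
      rw [card_insert_of_notMem heI] at h6
      exact ⟨K, hK, h5, by omega⟩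
    · obtain ⟨K, hK, h5, h6⟩ := hl I hI2 (insert e J) (insert_subset (mem_sdiff.2 ⟨h.mem, hU⟩) hJ2)
        (h3.mono (subset_insert _ _)) h4
      rw [card_insert_of_notMem heJ] at h6
      exact ⟨K, hK, h5, by omega⟩
  obtain ⟨K, hK, h5, h6⟩ := this
  have h7 := card_psi e f K
  exact ⟨psi e f K, (psi_subset _ _ _).trans (erase_subset_erase _ hK), (h.iff K hK).1 h5, by omega⟩

end Pool.Agent.Lib.MP_cce914_co
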